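import Mathlib

/-!
Definitions and module statements for the l^p Brown-Douglas-Fillmore project (MP_c92038_an).
-/

open scoped ENNReal

noncomputable section

namespace Pool.Agent.H33.BDFP

/-! ### Spaces -/

/-- complex `l^p(N)` -/
abbrev LP (p : ℝ≥0∞) := lp (fun _ : ℕ => ℂ) p

/-- the `l^p`-sum of the finite-dimensional Hilbert spaces `C^(r n)` -/
abbrev ZP (r : ℕ → ℕ) (p : ℝ≥0∞) := lp (fun n : ℕ => EuclideanSpace ℂ (Fin (r n))) p

section General

variable {X Y : Type} [NormedAddCommGroup X] [NormedSpace ℂ X]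
  [NormedAddCommGroup Y] [NormedSpace ℂ Y]

/-- equality modulo compact operators -/
def EqK (S T : X →L[ℂ] Y) : Prop := IsCompactOperator (⇑(S - T))

/-- `T` is an invertible operator modulo compact operators, i.e. a compact perturbation of an
invertible operator (Fredholm of index zero). -/
def IndexZero (T : X →L[ℂ] X) : Prop := ∃ U : (X →L[ℂ] X)ˣ, EqK (U : X →L[ℂ] X) T

/-- `X` is isomorphic to a complemented subspace of `l^p` -/
def PComp (p : ℝ≥0∞) [Fact (1 ≤ p)] (X : Type) [NormedAddCommGroup X] [NormedSpace ℂ X] : Prop :=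
  ∃ (i : X →L[ℂ] LP p) (q : LP p →L[ℂ] X), q ∘L i = ContinuousLinearMap.id ℂ X

end General

/-! ### Representations of `C(M)` -/

/-- the coordinate function of `M` -/
def zfun (M : Set ℂ) : C(M, ℂ) := ⟨Subtype.val, continuous_subtype_val⟩

/-- a bounded unital representation of `C(M)` on `X` -/
structure Rep (M : Set ℂ) [CompactSpace M] (X : Type) [NormedAddCommGroup X]
    [NormedSpace ℂ X] where
  hom : C(M, ℂ) →ₐ[ℂ] (X →L[ℂ] X)
  bdd : ∃ C : ℝ, ∀ a, ‖hom a‖ ≤ C * ‖a‖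

section RepSection

variable {M : Set ℂ} [CompactSpace M]
variable {X Y : Type} [NormedAddCommGroup X] [NormedSpace ℂ X]
  [NormedAddCommGroup Y] [NormedSpace ℂ Y]

lemma norm_prodMap_le (f : X →L[ℂ] X) (g : Y →L[ℂ] Y) :
    ‖f.prodMap g‖ ≤ max ‖f‖ ‖g‖ := by
  refine ContinuousLinearMap.opNorm_le_bound _ ((norm_nonneg f).trans (le_max_left _ _)) ?_
  intro x
  have h1 : ‖f x.1‖ ≤ max ‖f‖ ‖g‖ * ‖x‖ :=
    (f.le_opNorm x.1).trans (mul_le_mul (le_max_left _ _) (norm_fst_le x) (norm_nonneg _)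
      ((norm_nonneg f).trans (le_max_left _ _)))
  have h2 : ‖g x.2‖ ≤ max ‖f‖ ‖g‖ * ‖x‖ :=
    (g.le_opNorm x.2).trans (mul_le_mul (le_max_right _ _) (norm_snd_le x) (norm_nonneg _)
      ((norm_nonneg f).trans (le_max_left _ _)))
  exact max_le h1 h2

/-- direct sum of two representations -/
def Rep.prod (ρ : Rep M X) (σ : Rep M Y) : Rep M (X × Y) where
  hom :=
    { toFun := fun a => (ρ.hom a).prodMap (σ.hom a)
      map_add' := fun a b => by rw [map_add, map_add]; rfl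
      map_mul' := fun a b => by rw [map_mul, map_mul]; rfl
      map_one' := by rw [map_one, map_one]; rfl
      map_zero' := by rw [map_zero, map_zero]; rfl
      commutes' := fun c => by rw [AlgHom.commutes, AlgHom.commutes]; rfl }
  bdd := by
    obtain ⟨C, hC⟩ := ρ.bdd
    obtain ⟨D, hD⟩ := σ.bdd
    refine ⟨max C D, fun a => ?_⟩
    refine (norm_prodMap_le _ _).trans (max_le ?_ ?_)
    · exact (hC a).trans (mul_le_mul_of_nonneg_right (le_max_left _ _) (norm_nonneg _))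
    · exact (hD a).trans (mul_le_mul_of_nonneg_right (le_max_right _ _) (norm_nonneg _))

@[simp] lemma Rep.prod_apply (ρ : Rep M X) (σ : Rep M Y) (a : C(M, ℂ)) :
    (ρ.prod σ).hom a = (ρ.hom a).prodMap (σ.hom a) := rfl

/-- `e` and `f` are (essential) idempotents; the compressions of `ρ` to `e` and of `σ` to `f`
are equivalent modulo compact operators. -/
def EssEquiv (ρ : Rep M X) (e : X →L[ℂ] X) (σ : Rep M Y) (f : Y →L[ℂ] Y) : Prop :=
  ∃ (A : X →L[ℂ] Y) (B : Y →L[ℂ] X),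
    EqK (B ∘L A) e ∧ EqK (A ∘L B) f ∧ EqK (A ∘L e) A ∧ EqK (B ∘L f) B ∧
    ∀ a, EqK (A ∘L ρ.hom a) (σ.hom a ∘L A)

/-- `e` is an idempotent commuting modulo compact operators with the representation -/
def Corner (ρ : Rep M X) (e : X →L[ℂ] X) : Prop :=
  e ∘L e = e ∧ ∀ a, EqK (e ∘L ρ.hom a) (ρ.hom a ∘L e)

/-- `e (ρ(z) - μ) e + (1 - e)` -/
def cornerOp (ρ : Rep M X) (e : X →L[ℂ] X) (μ : ℂ) : X →L[ℂ] X :=
  e ∘L (ρ.hom (zfun M) - μ • ContinuousLinearMap.id ℂ X) ∘L e + (ContinuousLinearMap.id ℂ X - e)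

end RepSection

end Pool.Agent.H33.BDFP
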