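import Mathlib
import Pool.Agent.H33.BDFP.Defs

/-!
Normed versions of a vector space, matrices of operators between l^p sums, diagonal
representations.
-/

open scoped ENNReal

noncomputable section

namespace Pool.Agent.H33.BDFP

/-! ### Vector spaces with a chosen norm -/

/-- a norm on a complex vector space -/
structure DNorm (V : Type) [AddCommGroup V] [Module ℂ V] where
  s : Seminorm ℂ V
  eq_zero : ∀ x, s x = 0 → x = 0

/-- the vector space `V` with the norm `N` -/
def NV (V : Type) [AddCommGroup V] [Module ℂ V] (_ : DNorm V) : Type := V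

section NVSection

variable {V : Type} [AddCommGroup V] [Module ℂ V]

local instance NV.instNACG (N : DNorm V) : NormedAddCommGroup (NV V N) :=
  AddGroupNorm.toNormedAddCommGroup (E := V)
    { N.s.toAddGroupSeminorm with
      eq_zero_of_map_eq_zero' := N.eq_zero }

local instance NV.instModule (N : DNorm V) : Module ℂ (NV V N) := inferInstanceAs (Module ℂ V)

lemma NV.norm_def (N : DNorm V) (x : NV V N) : ‖x‖ = N.s x := rfl

local instance NV.instNormedSpace (N : DNorm V) : NormedSpace ℂ (NV V N) where
  norm_smul_le c x := by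
    rw [NV.norm_def, NV.norm_def]
    exact (map_smul_eq_mul N.s c x).le

/-- the identity map `V → NV V N` -/
def NV.of (N : DNorm V) : V ≃ₗ[ℂ] NV V N := LinearEquiv.refl ℂ V

@[simp] lemma NV.norm_of (N : DNorm V) (x : V) : ‖NV.of N x‖ = N.s x := rfl

/-- a linear map `V → W` as a linear map `NV V N → NV W N'` -/
def NV.map {W : Type} [AddCommGroup W] [Module ℂ W] (N : DNorm V) (N' : DNorm W)
    (f : V →ₗ[ℂ] W) : NV V N →ₗ[ℂ] NV W N' := f

lemma NV.map_apply {W : Type} [AddCommGroup W] [Module ℂ W] (N : DNorm V) (N' : DNorm W)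
    (f : V →ₗ[ℂ] W) (x : V) : NV.map N N' f (NV.of N x) = NV.of N' (f x) := rfl

local instance NV.instFD (N : DNorm V) [h : FiniteDimensional ℂ V] : FiniteDimensional ℂ (NV V N) := h

local instance NV.instComplete (N : DNorm V) [FiniteDimensional ℂ V] : CompleteSpace (NV V N) :=
  FiniteDimensional.complete ℂ _

end NVSection

attribute [local instance] NV.instNACG NV.instModule NV.instNormedSpace NV.instFD NV.instComplete

/-! ### Matrices -/

/-- `T : l^p(E) → l^q(F)` has the matrix `t` -/
def IsMat {ι κ : Type} [DecidableEq ι] {E : ι → Type} {F : κ → Type}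
    [∀ i, NormedAddCommGroup (E i)] [∀ i, NormedSpace ℂ (E i)]
    [∀ i, NormedAddCommGroup (F i)] [∀ i, NormedSpace ℂ (F i)]
    {p q : ℝ≥0∞} [Fact (1 ≤ p)] [Fact (1 ≤ q)]
    (T : lp E p →L[ℂ] lp F q) (t : ∀ (i : κ) (j : ι), E j →ₗ[ℂ] F i) : Prop :=
  ∀ (j : ι) (x : E j) (i : κ), T (lp.single p j x) i = t i j x

/-- truncation to the coordinates in `S` -/
def trunc {ι : Type} {E : ι → Type} [∀ i, NormedAddCommGroup (E i)] [∀ i, NormedSpace ℂ (E i)]
    (p : ℝ≥0∞) [Fact (1 ≤ p)] (S : Set ι) : lp E p →L[ℂ] lp E p :=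
  open Classical in
  lp.mapCLM p (fun i => if i ∈ S then ContinuousLinearMap.id ℂ (E i) else 0) (K := 1) zero_le_one
    (by
      intro i
      split_ifs
      · exact ContinuousLinearMap.norm_id_le
      · simp)

/-! ### Representations -/

section RepSection

variable {M : Set ℂ} [CompactSpace M]

/-- contractive representation -/
def Rep.Contr {X : Type} [NormedAddCommGroup X] [NormedSpace ℂ X] (ρ : Rep M X) : Prop :=
  ∀ a, ‖ρ.hom a‖ ≤ ‖a‖

/-- the direct sum of contractive representations -/
def Rep.lpSum {ι : Type} {E : ι → Type} [∀ i, NormedAddCommGroup (E i)]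
    [∀ i, NormedSpace ℂ (E i)] (p : ℝ≥0∞) [Fact (1 ≤ p)] (τ : ∀ i, Rep M (E i))
    (h : ∀ i, (τ i).Contr) : Rep M (lp E p) where
  hom :=
    { toFun := fun a => lp.mapCLM p (fun i => (τ i).hom a) (norm_nonneg a) (fun i => h i a)
      map_add' := fun a b => by
        refine ContinuousLinearMap.ext fun x => ?_
        refine lp.ext (funext fun i => ?_)
        change (τ i).hom (a + b) (x i) = (τ i).hom a (x i) + (τ i).hom b (x i)
        rw [map_add]; rfl
      map_mul' := fun a b => by
        refine ContinuousLinearMap.ext fun x => ?_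
        refine lp.ext (funext fun i => ?_)
        change (τ i).hom (a * b) (x i) = (τ i).hom a ((τ i).hom b (x i))
        rw [map_mul]; rfl
      map_one' := by
        refine ContinuousLinearMap.ext fun x => ?_
        refine lp.ext (funext fun i => ?_)
        change (τ i).hom 1 (x i) = x i
        rw [map_one]; rfl
      map_zero' := by
        refine ContinuousLinearMap.ext fun x => ?_
        refine lp.ext (funext fun i => ?_)
        change (τ i).hom 0 (x i) = 0
        rw [map_zero]; rfl
      commutes' := fun c => by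
        refine ContinuousLinearMap.ext fun x => ?_
        refine lp.ext (funext fun i => ?_)
        change (τ i).hom (algebraMap ℂ C(M, ℂ) c) (x i) = c • x i
        rw [AlgHom.commutes]; rfl }
  bdd := ⟨1, fun a => by
    rw [one_mul]
    exact lp.norm_mapCLM_le p _ (norm_nonneg a) (fun i => h i a)⟩

lemma Rep.lpSum_apply {ι : Type} {E : ι → Type} [∀ i, NormedAddCommGroup (E i)]
    [∀ i, NormedSpace ℂ (E i)] (p : ℝ≥0∞) [Fact (1 ≤ p)] (τ : ∀ i, Rep M (E i))
    (h : ∀ i, (τ i).Contr) (a : C(M, ℂ)) (x : lp E p) (i : ι) :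
    (Rep.lpSum p τ h).hom a x i = (τ i).hom a (x i) := rfl

/-- an algebra homomorphism into the endomorphisms of `V`, contractive for the norm `N`,
as a representation on `NV V N` -/
def Rep.ofEnd {V : Type} [AddCommGroup V] [Module ℂ V] (N : DNorm V)
    (τ : C(M, ℂ) →ₐ[ℂ] Module.End ℂ V) (h : ∀ a x, N.s (τ a x) ≤ ‖a‖ * N.s x) :
    Rep M (NV V N) where
  hom :=
    { toFun := fun a => LinearMap.mkContinuous (E := NV V N) (F := NV V N)
        (NV.map N N (τ a)) ‖a‖ (h a)
      map_add' := fun a b => by
        refine ContinuousLinearMap.ext fun x => ?_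
        change τ (a + b) x = τ a x + τ b x
        rw [map_add]; rfl
      map_mul' := fun a b => by
        refine ContinuousLinearMap.ext fun x => ?_
        change τ (a * b) x = τ a (τ b x)
        rw [map_mul]; rfl
      map_one' := by
        refine ContinuousLinearMap.ext fun x => ?_
        change τ 1 x = x
        rw [map_one]; rfl
      map_zero' := by
        refine ContinuousLinearMap.ext fun x => ?_
        change τ 0 x = 0
        rw [map_zero]; rfl
      commutes' := fun c => by
        refine ContinuousLinearMap.ext fun x => ?_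
        change τ (algebraMap ℂ C(M, ℂ) c) x = c • x
        rw [AlgHom.commutes]; rfl }
  bdd := ⟨1, fun a => by
    rw [one_mul]
    exact LinearMap.mkContinuous_norm_le _ (norm_nonneg a) (h a)⟩

lemma Rep.ofEnd_apply {V : Type} [AddCommGroup V] [Module ℂ V] (N : DNorm V)
    (τ : C(M, ℂ) →ₐ[ℂ] Module.End ℂ V) (h : ∀ a x, N.s (τ a x) ≤ ‖a‖ * N.s x)
    (a : C(M, ℂ)) (x : V) : (Rep.ofEnd N τ h).hom a (NV.of N x) = NV.of N (τ a x) := rfl

lemma Rep.ofEnd_contr {V : Type} [AddCommGroup V] [Module ℂ V] (N : DNorm V)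
    (τ : C(M, ℂ) →ₐ[ℂ] Module.End ℂ V) (h : ∀ a x, N.s (τ a x) ≤ ‖a‖ * N.s x) :
    (Rep.ofEnd N τ h).Contr :=
  fun a => LinearMap.mkContinuous_norm_le _ (norm_nonneg a) (h a)

/-- diagonal operator on `C^m` -/
def diagE {m : ℕ} (d : Fin m → ℂ) :
    EuclideanSpace ℂ (Fin m) →L[ℂ] EuclideanSpace ℂ (Fin m) :=
  LinearMap.toContinuousLinearMap
    { toFun := fun x => WithLp.toLp 2 (fun i => d i * x i)
      map_add' := fun x y => by
        ext i; simp [mul_add]
      map_smul' := fun c x => by
        ext i; simp [mul_left_comm] }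

lemma diagE_apply {m : ℕ} (d : Fin m → ℂ) (x : EuclideanSpace ℂ (Fin m)) (i : Fin m) :
    diagE d x i = d i * x i := rfl

lemma norm_diagE_le {m : ℕ} (d : Fin m → ℂ) {C : ℝ} (hC : 0 ≤ C) (h : ∀ i, ‖d i‖ ≤ C) :
    ‖diagE d‖ ≤ C := by
  refine ContinuousLinearMap.opNorm_le_bound _ hC fun x => ?_
  rw [EuclideanSpace.norm_eq, EuclideanSpace.norm_eq]
  rw [← Real.sqrt_sq hC, ← Real.sqrt_mul (sq_nonneg C)]
  apply Real.sqrt_le_sqrt
  rw [Finset.mul_sum]
  refine Finset.sum_le_sum fun i _ => ?_
  rw [diagE_apply, norm_mul, mul_pow]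
  exact mul_le_mul_of_nonneg_right (pow_le_pow_left₀ (norm_nonneg _) (h i) 2) (sq_nonneg _)

/-- the diagonal representation on `C^m` given by the points `v i` of `M` -/
def eucRep {m : ℕ} (v : Fin m → M) : Rep M (EuclideanSpace ℂ (Fin m)) where
  hom :=
    { toFun := fun a => diagE (fun i => a (v i))
      map_add' := fun a b => by
        refine ContinuousLinearMap.ext fun x => ?_
        ext i
        change (a (v i) + b (v i)) * x i = a (v i) * x i + b (v i) * x i
        rw [add_mul]
      map_mul' := fun a b => by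
        refine ContinuousLinearMap.ext fun x => ?_
        ext i
        change (a (v i) * b (v i)) * x i = a (v i) * (b (v i) * x i)
        rw [mul_assoc]
      map_one' := by
        refine ContinuousLinearMap.ext fun x => ?_
        ext i
        change (1 : ℂ) * x i = x i
        rw [one_mul]
      map_zero' := by
        refine ContinuousLinearMap.ext fun x => ?_
        ext i
        change (0 : ℂ) * x i = 0
        rw [zero_mul]
      commutes' := fun c => by
        refine ContinuousLinearMap.ext fun x => ?_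
        ext _i
        rfl }
  bdd := ⟨1, fun a => by
    rw [one_mul]
    exact norm_diagE_le _ (norm_nonneg _) fun i => a.norm_coe_le_norm _⟩

lemma eucRep_apply {m : ℕ} (v : Fin m → M) (a : C(M, ℂ)) (x : EuclideanSpace ℂ (Fin m))
    (i : Fin m) : (eucRep v).hom a x i = a (v i) * x i := rfl

lemma eucRep_contr {m : ℕ} (v : Fin m → M) : (eucRep v).Contr :=
  fun a => norm_diagE_le _ (norm_nonneg _) fun i => a.norm_coe_le_norm _

/-- the diagonal representation on the `l^p`-sum of the spaces `C^(r n)` -/
def diagRep {r : ℕ → ℕ} (v : ∀ n, Fin (r n) → M) (p : ℝ≥0∞) [Fact (1 ≤ p)] : Rep M (ZP r p) :=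
  Rep.lpSum p (fun n => eucRep (v n)) (fun n => eucRep_contr (v n))

lemma diagRep_apply {r : ℕ → ℕ} (v : ∀ n, Fin (r n) → M) (p : ℝ≥0∞) [Fact (1 ≤ p)]
    (a : C(M, ℂ)) (x : ZP r p) (n : ℕ) (i : Fin (r n)) :
    (diagRep v p).hom a x n i = a (v n i) * x n i := rfl

end RepSection

end Pool.Agent.H33.BDFP
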