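import Mathlib
import Pool.Agent.H33.BDFP.Defs
import Pool.Agent.H33.BDFP.Defs2

attribute [local instance] Pool.Agent.H33.BDFP.NV.instNACG Pool.Agent.H33.BDFP.NV.instModule
  Pool.Agent.H33.BDFP.NV.instNormedSpace Pool.Agent.H33.BDFP.NV.instFD
  Pool.Agent.H33.BDFP.NV.instComplete

/-!
Blocks of `ZP r p` for a cut sequence `N`, the level norms, and the spaces of the assembly.
-/

open scoped ENNReal NNReal

noncomputable section

namespace Pool.Agent.H33.BDFP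

/-! ### cuts -/

/-- block number `j` of the cut sequence `N` -/
def blk (N : ℕ → ℕ) (j : ℕ) : Set ℕ := {n | N j ≤ n ∧ n < N (j + 1)}

/-- near tri-diagonal pairs -/
def nearDiag (q : ℕ × ℕ) : Prop := q.1 ≤ q.2 + 1 ∧ q.2 ≤ q.1 + 1

instance : DecidablePred nearDiag := fun q => by unfold nearDiag; infer_instance

section

variable {p q : ℝ≥0∞} [Fact (1 ≤ p)] [Fact (1 ≤ q)] {E F : ℕ → Type}
  [∀ n, NormedAddCommGroup (E n)] [∀ n, NormedSpace ℂ (E n)]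
  [∀ n, NormedAddCommGroup (F n)] [∀ n, NormedSpace ℂ (F n)]

/-- norm of the block `(i, j)` of `T` -/
def bN (N : ℕ → ℕ) (T : lp E p →L[ℂ] lp F q) (i j : ℕ) : ℝ :=
  ‖trunc q (blk N i) ∘L T ∘L trunc p (blk N j)‖

/-- the matrix of block norms is bounded in the sense of Schur and summable far from the
diagonal -/
def Cut1 (N : ℕ → ℕ) (T : lp E p →L[ℂ] lp F q) : Prop :=
  (∃ C, (∀ i, Summable (bN N T i) ∧ ∑' j, bN N T i j ≤ C) ∧
    (∀ j, Summable (fun i => bN N T i j) ∧ ∑' i, bN N T i j ≤ C)) ∧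
  Summable (fun x : ℕ × ℕ => if nearDiag x then 0 else bN N T x.1 x.2)

/-- rows and columns of the matrix of block norms tend to zero -/
def Cut2 (N : ℕ → ℕ) (T : lp E p →L[ℂ] lp F q) : Prop :=
  ∀ ε : ℝ, 0 < ε → ∃ j₀ : ℕ, (∀ i, j₀ ≤ i → ∑' j, bN N T i j ≤ ε) ∧
    (∀ j, j₀ ≤ j → ∑' i, bN N T i j ≤ ε)

end

/-! ### level norms -/

/-- the level norm `max (α (∑ ‖x n‖^p)^(1/p), (∑ (s n ‖x n‖)^2)^(1/2))` -/
def rosNorm (p : ℝ≥0∞) {m : ℕ} {r : Fin m → ℕ} (s : Fin m → ℝ) (α : ℝ)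
    (x : ∀ n, EuclideanSpace ℂ (Fin (r n))) : ℝ :=
  max (α * (∑ n, ‖x n‖ ^ p.toReal) ^ (1 / p.toReal)) (Real.sqrt (∑ n, (s n * ‖x n‖) ^ 2))

section lvl

variable {m : ℕ} {r : Fin m → ℕ}

/-- the vector `x` in the `l^p` sum -/
def toPi (p : ℝ≥0∞) : (∀ n, EuclideanSpace ℂ (Fin (r n))) →ₗ[ℂ]
    PiLp p (fun n => EuclideanSpace ℂ (Fin (r n))) :=
  ((WithLp.linearEquiv p ℂ (∀ n, EuclideanSpace ℂ (Fin (r n)))).symm : _ →ₗ[ℂ] _)

/-- multiplication by the numbers `s n` -/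
def mulS (s : Fin m → ℝ) : (∀ n, EuclideanSpace ℂ (Fin (r n))) →ₗ[ℂ]
    (∀ n, EuclideanSpace ℂ (Fin (r n))) where
  toFun x := fun n => (s n : ℂ) • x n
  map_add' x y := by
    funext n
    change (s n : ℂ) • (x n + y n) = (s n : ℂ) • x n + (s n : ℂ) • y n
    rw [smul_add]
  map_smul' c x := by
    funext n
    change (s n : ℂ) • (c • x n) = c • ((s n : ℂ) • x n)
    rw [smul_comm]

/-- the level norm as a norm -/
def lvl (p : ℝ≥0∞) [Fact (1 ≤ p)] (s : Fin m → ℝ) (hs : ∀ n, 0 < s n) (α : ℝ≥0) :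
    DNorm (∀ n, EuclideanSpace ℂ (Fin (r n))) where
  s := (α • (normSeminorm ℂ (PiLp p (fun n => EuclideanSpace ℂ (Fin (r n))))).comp (toPi p)) ⊔
    ((normSeminorm ℂ (PiLp 2 (fun n => EuclideanSpace ℂ (Fin (r n))))).comp
      ((toPi 2) ∘ₗ (mulS s)))
  eq_zero x hx := by
    have h1 : ‖(toPi 2 (mulS s x) : PiLp 2 (fun n => EuclideanSpace ℂ (Fin (r n))))‖ ≤ 0 := by
      rw [← hx]
      exact le_sup_right
    have h2 : (toPi 2 (mulS s x) : PiLp 2 (fun n => EuclideanSpace ℂ (Fin (r n)))) = 0 :=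
      norm_le_zero_iff.1 h1
    funext n
    have h3 : (s n : ℂ) • x n = 0 := by
      have := congrArg (fun y : PiLp 2 (fun n => EuclideanSpace ℂ (Fin (r n))) => y n) h2
      exact this
    rcases smul_eq_zero.1 h3 with h | h
    · exact absurd (by exact_mod_cast h) (hs n).ne'
    · exact h

lemma lvl_s (p : ℝ≥0∞) [Fact (1 ≤ p)] (hp : p ≠ ∞) (s : Fin m → ℝ) (hs : ∀ n, 0 < s n)
    (α : ℝ≥0) (x : ∀ n, EuclideanSpace ℂ (Fin (r n))) :
    (lvl p s hs α).s x = rosNorm p s α x := by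
  have hp0 : 0 < p.toReal := ENNReal.toReal_pos
    (zero_lt_one.trans_le (Fact.out : (1 : ℝ≥0∞) ≤ p)).ne' hp
  have h1 : ‖(toPi p x : PiLp p (fun n => EuclideanSpace ℂ (Fin (r n))))‖ =
      (∑ n, ‖x n‖ ^ p.toReal) ^ (1 / p.toReal) := PiLp.norm_eq_sum hp0 _
  have h2 : ‖(toPi 2 (mulS s x) : PiLp 2 (fun n => EuclideanSpace ℂ (Fin (r n))))‖ =
      Real.sqrt (∑ n, (s n * ‖x n‖) ^ 2) := by
    rw [PiLp.norm_eq_of_L2]
    congr 1
    refine Finset.sum_congr rfl fun n _ => ?_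
    change ‖(s n : ℂ) • x n‖ ^ 2 = _
    rw [norm_smul, Complex.norm_real, Real.norm_of_nonneg (hs n).le]
  change max (α • ‖(toPi p x : PiLp p (fun n => EuclideanSpace ℂ (Fin (r n))))‖)
    ‖(toPi 2 (mulS s x) : PiLp 2 (fun n => EuclideanSpace ℂ (Fin (r n))))‖ = _
  rw [h1, h2]
  rfl

end lvl

/-! ### blocks -/

/-- the coordinates of the block `j` -/
abbrev BV (r N : ℕ → ℕ) (j : ℕ) : Type :=
  ∀ i : Fin (N (j + 1) - N j), EuclideanSpace ℂ (Fin (r (N j + i)))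

/-- the levels: `lev none` is the Hilbert level, `lev (some k)` the level `k` -/
def lev (p : ℝ≥0∞) [Fact (1 ≤ p)] (r N : ℕ → ℕ) (s : ℕ → ℝ) (hs : ∀ n, 0 < s n) :
    Option ℕ → ∀ j, DNorm (BV r N j)
  | none, j => lvl p (fun i => s (N j + i)) (fun _ => hs _) 0
  | some k, j => lvl p (fun i => s (N j + i)) (fun _ => hs _) ((1 / 2 : ℝ≥0) ^ k)

/-- inclusion of the block `j` -/
def toZ (r N : ℕ → ℕ) (q : ℝ≥0∞) [Fact (1 ≤ q)] (j : ℕ) : BV r N j →ₗ[ℂ] ZP r q where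
  toFun x := ∑ i : Fin (N (j + 1) - N j), lp.single q (N j + (i : ℕ)) (x i)
  map_add' x y := by
    rw [← Finset.sum_add_distrib]
    refine Finset.sum_congr rfl fun i _ => ?_
    exact lp.single_add (E := fun n => EuclideanSpace ℂ (Fin (r n))) q _ (x i) (y i)
  map_smul' c x := by
    rw [RingHom.id_apply, Finset.smul_sum]
    refine Finset.sum_congr rfl fun i _ => ?_
    exact lp.single_smul (E := fun n => EuclideanSpace ℂ (Fin (r n))) q _ c (x i)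

/-- restriction to the block `j` -/
def ofZ (r N : ℕ → ℕ) (q : ℝ≥0∞) [Fact (1 ≤ q)] (j : ℕ) : ZP r q →ₗ[ℂ] BV r N j where
  toFun x := fun i => x (N j + i)
  map_add' _ _ := rfl
  map_smul' _ _ := rfl

/-- the matrix entry `(i, j)` of `T` -/
def blkEnt {r r' : ℕ → ℕ} (N : ℕ → ℕ) {q q' : ℝ≥0∞} [Fact (1 ≤ q)] [Fact (1 ≤ q')]
    (T : ZP r q →L[ℂ] ZP r' q') (i j : ℕ) : BV r N j →ₗ[ℂ] BV r' N i :=
  (ofZ r' N q' i) ∘ₗ T.toLinearMap ∘ₗ (toZ r N q j)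

section

variable {M : Set ℂ} [CompactSpace M]

/-- the diagonal representation on the block `j` -/
def tauB {r : ℕ → ℕ} (N : ℕ → ℕ) (v : ∀ n, Fin (r n) → M) (j : ℕ) :
    C(M, ℂ) →ₐ[ℂ] Module.End ℂ (BV r N j) where
  toFun a :=
    { toFun := fun x i => (eucRep (v (N j + i))).hom a (x i)
      map_add' := fun x y => by
        funext i
        exact map_add _ _ _
      map_smul' := fun c x => by
        funext i
        exact ((eucRep (v (N j + i))).hom a).map_smul c (x i) }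
  map_add' a b := by
    refine LinearMap.ext fun x => funext fun i => ?_
    change (eucRep (v (N j + i))).hom (a + b) (x i) = _
    rw [map_add]
    rfl
  map_mul' a b := by
    refine LinearMap.ext fun x => funext fun i => ?_
    change (eucRep (v (N j + i))).hom (a * b) (x i) = _
    rw [map_mul]
    rfl
  map_one' := by
    refine LinearMap.ext fun x => funext fun i => ?_
    change (eucRep (v (N j + i))).hom 1 (x i) = _
    rw [map_one]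
    rfl
  map_zero' := by
    refine LinearMap.ext fun x => funext fun i => ?_
    change (eucRep (v (N j + i))).hom 0 (x i) = _
    rw [map_zero]
    rfl
  commutes' c := by
    refine LinearMap.ext fun x => funext fun i => ?_
    change (eucRep (v (N j + i))).hom (algebraMap ℂ C(M, ℂ) c) (x i) = _
    rw [AlgHom.commutes]
    rfl

lemma tauB_apply {r : ℕ → ℕ} (N : ℕ → ℕ) (v : ∀ n, Fin (r n) → M) (j : ℕ) (a : C(M, ℂ))
    (x : BV r N j) (i : Fin (N (j + 1) - N j)) :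
    tauB N v j a x i = (eucRep (v (N j + i))).hom a (x i) := rfl

lemma lvl_mono_apply (p : ℝ≥0∞) [Fact (1 ≤ p)] (hp : p ≠ ∞) {m : ℕ} {r : Fin m → ℕ}
    (s : Fin m → ℝ) (hs : ∀ n, 0 < s n) (α : ℝ≥0) {C : ℝ} (hC : 0 ≤ C)
    (x y : ∀ n, EuclideanSpace ℂ (Fin (r n))) (h : ∀ n, ‖y n‖ ≤ C * ‖x n‖) :
    (lvl p s hs α).s y ≤ C * (lvl p s hs α).s x := by
  have hp0 : 0 < p.toReal := ENNReal.toReal_pos
    (zero_lt_one.trans_le (Fact.out : (1 : ℝ≥0∞) ≤ p)).ne' hp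
  rw [lvl_s p hp, lvl_s p hp]
  unfold rosNorm
  have h1 : (∑ n, ‖y n‖ ^ p.toReal) ^ (1 / p.toReal) ≤
      C * (∑ n, ‖x n‖ ^ p.toReal) ^ (1 / p.toReal) := by
    have h2 : (∑ n, ‖y n‖ ^ p.toReal) ≤ C ^ p.toReal * ∑ n, ‖x n‖ ^ p.toReal := by
      rw [Finset.mul_sum]
      refine Finset.sum_le_sum fun n _ => ?_
      rw [← Real.mul_rpow hC (norm_nonneg _)]
      exact Real.rpow_le_rpow (norm_nonneg _) (h n) hp0.le
    refine (Real.rpow_le_rpow (Finset.sum_nonneg fun n _ => by positivity) h2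
      (by positivity)).trans (le_of_eq ?_)
    rw [Real.mul_rpow (by positivity) (Finset.sum_nonneg fun n _ => by positivity),
      ← Real.rpow_mul hC, mul_one_div_cancel hp0.ne', Real.rpow_one]
  have h3 : Real.sqrt (∑ n, (s n * ‖y n‖) ^ 2) ≤ C * Real.sqrt (∑ n, (s n * ‖x n‖) ^ 2) := by
    rw [← Real.sqrt_sq hC, ← Real.sqrt_mul (sq_nonneg C)]
    apply Real.sqrt_le_sqrt
    rw [Finset.mul_sum]
    refine Finset.sum_le_sum fun n _ => ?_
    rw [← mul_pow]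
    apply pow_le_pow_left₀ (mul_nonneg (hs n).le (norm_nonneg _))
    calc s n * ‖y n‖ ≤ s n * (C * ‖x n‖) := mul_le_mul_of_nonneg_left (h n) (hs n).le
      _ = C * (s n * ‖x n‖) := by ring
  rw [mul_max_of_nonneg _ _ hC]
  refine max_le_max ?_ h3
  calc (α : ℝ) * (∑ n, ‖y n‖ ^ p.toReal) ^ (1 / p.toReal)
      ≤ α * (C * (∑ n, ‖x n‖ ^ p.toReal) ^ (1 / p.toReal)) :=
        mul_le_mul_of_nonneg_left h1 α.2
    _ = C * (α * (∑ n, ‖x n‖ ^ p.toReal) ^ (1 / p.toReal)) := by ring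

lemma lev_tau (p : ℝ≥0∞) [Fact (1 ≤ p)] (hp : p ≠ ∞) (r N : ℕ → ℕ) (s : ℕ → ℝ)
    (hs : ∀ n, 0 < s n) (v : ∀ n, Fin (r n) → M) (l : Option ℕ) (j : ℕ) (a : C(M, ℂ))
    (x : BV r N j) :
    (lev p r N s hs l j).s (tauB N v j a x) ≤ ‖a‖ * (lev p r N s hs l j).s x := by
  have h : ∀ i, ‖(tauB N v j a x) i‖ ≤ ‖a‖ * ‖x i‖ := fun i =>
    ((eucRep (v (N j + i))).hom a).le_of_opNorm_le (eucRep_contr _ a) (x i)
  cases l with
  | none => exact lvl_mono_apply p hp _ (fun _ => hs _) _ (norm_nonneg a) _ _ h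
  | some k => exact lvl_mono_apply p hp _ (fun _ => hs _) _ (norm_nonneg a) _ _ h

/-- the `l^p` sum of the blocks with the norms of the level `l` -/
abbrev ZL (p : ℝ≥0∞) [Fact (1 ≤ p)] (r N : ℕ → ℕ) (s : ℕ → ℝ) (hs : ∀ n, 0 < s n)
    (l : Option ℕ) : Type :=
  lp (fun j => NV (BV r N j) (lev p r N s hs l j)) p

/-- the `l^p` sum of the levels `1, 2, ...` -/
abbrev ZPlus (p : ℝ≥0∞) [Fact (1 ≤ p)] (r N : ℕ → ℕ) (s : ℕ → ℝ) (hs : ∀ n, 0 < s n) : Type :=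
  lp (fun q : ℕ × ℕ => NV (BV r N q.2) (lev p r N s hs (some (q.1 + 1)) q.2)) p

/-- the diagonal representation on `ZL` -/
def repL (p : ℝ≥0∞) [Fact (1 ≤ p)] (hp : p ≠ ∞) (r N : ℕ → ℕ) (s : ℕ → ℝ)
    (hs : ∀ n, 0 < s n) (v : ∀ n, Fin (r n) → M) (l : Option ℕ) :
    Rep M (ZL p r N s hs l) :=
  Rep.lpSum p (fun j => Rep.ofEnd (lev p r N s hs l j) (tauB N v j)
    (lev_tau p hp r N s hs v l j)) (fun _ => Rep.ofEnd_contr _ _ _)

/-- the diagonal representation on `ZPlus` -/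
def repPlus (p : ℝ≥0∞) [Fact (1 ≤ p)] (hp : p ≠ ∞) (r N : ℕ → ℕ) (s : ℕ → ℝ)
    (hs : ∀ n, 0 < s n) (v : ∀ n, Fin (r n) → M) :
    Rep M (ZPlus p r N s hs) :=
  Rep.lpSum p (fun q : ℕ × ℕ => Rep.ofEnd (lev p r N s hs (some (q.1 + 1)) q.2) (tauB N v q.2)
    (lev_tau p hp r N s hs v (some (q.1 + 1)) q.2)) (fun _ => Rep.ofEnd_contr _ _ _)

/-- `T` on `ZL` has the same matrix as `S` on `ZP` -/
def SameMat {p : ℝ≥0∞} [Fact (1 ≤ p)] {r r' N : ℕ → ℕ} {s s' : ℕ → ℝ} {hs : ∀ n, 0 < s n}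
    {hs' : ∀ n, 0 < s' n} {l l' : Option ℕ} {q q' : ℝ≥0∞} [Fact (1 ≤ q)] [Fact (1 ≤ q')]
    (T : ZL p r N s hs l →L[ℂ] ZL p r' N s' hs' l') (S : ZP r q →L[ℂ] ZP r' q') : Prop :=
  IsMat T (fun i j => NV.map (lev p r N s hs l j) (lev p r' N s' hs' l' i) (blkEnt N S i j))

end

end Pool.Agent.H33.BDFP
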