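import Mathlib
import Pool.Agent.H33.BDFP.Defs

/-!
Definitions used in the statement of the final theorem: Calkin algebra, isomorphic extensions,
trivial extensions, equivalence, sum, the absorbing extension, the Fredholm index.
-/

open scoped ENNReal

noncomputable section

namespace Pool.Agent.H33.BDFP

section

variable (X : Type) [NormedAddCommGroup X] [NormedSpace ℂ X]

/-- the two-sided ideal of compact operators -/
def compactIdeal : Ideal (X →L[ℂ] X) where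
  carrier := {T | IsCompactOperator (⇑T)}
  add_mem' := fun ha hb => ha.add hb
  zero_mem' := isCompactOperator_zero
  smul_mem' := fun c _ hT => hT.clm_comp c

instance : (compactIdeal X).IsTwoSided := ⟨fun b hT => hT.comp_clm b⟩

/-- the Calkin algebra `B(X)/K(X)`, with the quotient norm -/
abbrev Calkin := (X →L[ℂ] X) ⧸ compactIdeal X

/-- the quotient map -/
def calkinMk : (X →L[ℂ] X) →ₐ[ℂ] Calkin X := Ideal.Quotient.mkₐ ℂ (compactIdeal X)

end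

section

variable {X : Type} [NormedAddCommGroup X] [NormedSpace ℂ X]
variable {Y : Type} [NormedAddCommGroup Y] [NormedSpace ℂ Y]

lemma calkinMk_eq_iff (S T : X →L[ℂ] X) : calkinMk X S = calkinMk X T ↔ EqK S T := by
  change Ideal.Quotient.mk (compactIdeal X) S = Ideal.Quotient.mk (compactIdeal X) T ↔ _
  rw [Ideal.Quotient.eq]
  rfl

lemma calkinMk_surjective : Function.Surjective (calkinMk X) := Ideal.Quotient.mk_surjective

/-- the Fredholm index `dim ker T - codim ran T` -/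
def findex (T : X →L[ℂ] Y) : ℤ :=
  (Module.finrank ℂ (LinearMap.ker T.toLinearMap) : ℤ) -
    (Module.finrank ℂ (Y ⧸ LinearMap.range T.toLinearMap) : ℤ)

/-- conjugation of `T ⊕ T'` by an isomorphism `X × X ≃ X` -/
def conjSum (S : (X × X) ≃L[ℂ] X) (T T' : X →L[ℂ] X) : X →L[ℂ] X :=
  (S : (X × X) →L[ℂ] X) ∘L (T.prodMap T') ∘L (S.symm : X →L[ℂ] (X × X))

lemma isCompactOperator_prodMap {T : X →L[ℂ] X} {T' : Y →L[ℂ] Y} (hT : IsCompactOperator (⇑T))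
    (hT' : IsCompactOperator (⇑T')) : IsCompactOperator (⇑(T.prodMap T')) := by
  have h1 : IsCompactOperator (⇑((ContinuousLinearMap.inl ℂ X Y) ∘L T ∘L
      (ContinuousLinearMap.fst ℂ X Y))) :=
    (hT.comp_clm (ContinuousLinearMap.fst ℂ X Y)).clm_comp (ContinuousLinearMap.inl ℂ X Y)
  have h2 : IsCompactOperator (⇑((ContinuousLinearMap.inr ℂ X Y) ∘L T' ∘L
      (ContinuousLinearMap.snd ℂ X Y))) :=
    (hT'.comp_clm (ContinuousLinearMap.snd ℂ X Y)).clm_comp (ContinuousLinearMap.inr ℂ X Y)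
  have h3 := h1.add h2
  have e : (⇑(T.prodMap T') : X × Y → X × Y) =
      ⇑((ContinuousLinearMap.inl ℂ X Y) ∘L T ∘L (ContinuousLinearMap.fst ℂ X Y)) +
      ⇑((ContinuousLinearMap.inr ℂ X Y) ∘L T' ∘L (ContinuousLinearMap.snd ℂ X Y)) := by
    funext x
    change (T x.1, T' x.2) = (T x.1, (0 : Y)) + ((0 : X), T' x.2)
    simp
  rw [e]
  exact h3

lemma conjSum_eqK (S : (X × X) ≃L[ℂ] X) {T₁ T₂ T₁' T₂' : X →L[ℂ] X} (h : EqK T₁ T₂)
    (h' : EqK T₁' T₂') : EqK (conjSum S T₁ T₁') (conjSum S T₂ T₂') := by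
  have h1 : conjSum S T₁ T₁' - conjSum S T₂ T₂' = conjSum S (T₁ - T₂) (T₁' - T₂') := by
    refine ContinuousLinearMap.ext fun x => ?_
    change S (T₁ (S.symm x).1, T₁' (S.symm x).2) - S (T₂ (S.symm x).1, T₂' (S.symm x).2)
      = S (T₁ (S.symm x).1 - T₂ (S.symm x).1, T₁' (S.symm x).2 - T₂' (S.symm x).2)
    rw [← map_sub]
    rfl
  change IsCompactOperator _
  rw [h1]
  exact ((isCompactOperator_prodMap h h').comp_clm (S.symm : X →L[ℂ] (X × X))).clm_comp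
    (S : (X × X) →L[ℂ] X)

/-- the operation on the Calkin algebra induced by `conjSum` -/
def calkinSum (S : (X × X) ≃L[ℂ] X) (x y : Calkin X) : Calkin X :=
  calkinMk X (conjSum S (Function.surjInv calkinMk_surjective x)
    (Function.surjInv calkinMk_surjective y))

lemma calkinSum_mk (S : (X × X) ≃L[ℂ] X) (T T' : X →L[ℂ] X) :
    calkinSum S (calkinMk X T) (calkinMk X T') = calkinMk X (conjSum S T T') := by
  unfold calkinSum
  rw [calkinMk_eq_iff]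
  apply conjSum_eqK
  · rw [← calkinMk_eq_iff]; exact Function.surjInv_eq _ _
  · rw [← calkinMk_eq_iff]; exact Function.surjInv_eq _ _

end

section Ext

variable {M : Set ℂ} [CompactSpace M]
variable {X : Type} [NormedAddCommGroup X] [NormedSpace ℂ X]

/-- the sum of two extensions, formed with the isomorphism `S : X × X ≃ X`:
`a ↦ π(S (T₁ ⊕ T₂) S⁻¹)` where `π(Tᵢ) = φᵢ(a)` -/
def extSum (S : (X × X) ≃L[ℂ] X) (φ₁ φ₂ : C(M, ℂ) →ₐ[ℂ] Calkin X) :
    C(M, ℂ) →ₐ[ℂ] Calkin X where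
  toFun := fun a => calkinSum S (φ₁ a) (φ₂ a)
  map_add' := fun a b => by
    obtain ⟨T₁, h₁⟩ := calkinMk_surjective (φ₁ a)
    obtain ⟨T₂, h₂⟩ := calkinMk_surjective (φ₂ a)
    obtain ⟨R₁, k₁⟩ := calkinMk_surjective (φ₁ b)
    obtain ⟨R₂, k₂⟩ := calkinMk_surjective (φ₂ b)
    rw [map_add, map_add, ← h₁, ← h₂, ← k₁, ← k₂, ← map_add, ← map_add, calkinSum_mk,
      calkinSum_mk, calkinSum_mk, ← map_add]
    congr 1
    refine ContinuousLinearMap.ext fun x => ?_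
    change S (T₁ (S.symm x).1 + R₁ (S.symm x).1, T₂ (S.symm x).2 + R₂ (S.symm x).2)
      = S (T₁ (S.symm x).1, T₂ (S.symm x).2) + S (R₁ (S.symm x).1, R₂ (S.symm x).2)
    rw [← map_add]
    rfl
  map_mul' := fun a b => by
    obtain ⟨T₁, h₁⟩ := calkinMk_surjective (φ₁ a)
    obtain ⟨T₂, h₂⟩ := calkinMk_surjective (φ₂ a)
    obtain ⟨R₁, k₁⟩ := calkinMk_surjective (φ₁ b)
    obtain ⟨R₂, k₂⟩ := calkinMk_surjective (φ₂ b)
    rw [map_mul, map_mul, ← h₁, ← h₂, ← k₁, ← k₂, ← map_mul, ← map_mul, calkinSum_mk,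
      calkinSum_mk, calkinSum_mk, ← map_mul]
    congr 1
    refine ContinuousLinearMap.ext fun x => ?_
    change S (T₁ (R₁ (S.symm x).1), T₂ (R₂ (S.symm x).2))
      = S (T₁ (S.symm (S (R₁ (S.symm x).1, R₂ (S.symm x).2))).1,
        T₂ (S.symm (S (R₁ (S.symm x).1, R₂ (S.symm x).2))).2)
    rw [ContinuousLinearEquiv.symm_apply_apply]
  map_one' := by
    rw [map_one, map_one, ← map_one (calkinMk X), calkinSum_mk]
    congr 1
    refine ContinuousLinearMap.ext fun x => ?_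
    change S ((S.symm x).1, (S.symm x).2) = x
    exact S.apply_symm_apply x
  map_zero' := by
    rw [map_zero, map_zero, ← map_zero (calkinMk X), calkinSum_mk]
    congr 1
    refine ContinuousLinearMap.ext fun x => ?_
    change S (0, 0) = 0
    exact map_zero S
  commutes' := fun c => by
    rw [AlgHom.commutes, AlgHom.commutes, ← (calkinMk X).commutes c, calkinSum_mk]
    congr 1
    refine ContinuousLinearMap.ext fun x => ?_
    change S (c • (S.symm x).1, c • (S.symm x).2) = c • x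
    have : (c • (S.symm x).1, c • (S.symm x).2) = c • (S.symm x) := rfl
    rw [this, map_smul, S.apply_symm_apply]

/-- isomorphic extension: a unital homomorphism which is an isomorphism into -/
def IsIsoExt (φ : C(M, ℂ) →ₐ[ℂ] Calkin X) : Prop :=
  ∃ C : ℝ, 1 ≤ C ∧ ∀ a, C⁻¹ * ‖a‖ ≤ ‖φ a‖ ∧ ‖φ a‖ ≤ C * ‖a‖

/-- trivial isomorphic extension -/
def IsTrivialExt (φ : C(M, ℂ) →ₐ[ℂ] Calkin X) : Prop :=
  IsIsoExt φ ∧ ∃ ρ : C(M, ℂ) →ₐ[ℂ] (X →L[ℂ] X),
    (∃ C : ℝ, 1 ≤ C ∧ ∀ a, C⁻¹ * ‖a‖ ≤ ‖ρ a‖ ∧ ‖ρ a‖ ≤ C * ‖a‖) ∧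
    ∀ a, φ a = calkinMk X (ρ a)

/-- equivalence of extensions -/
def ExtEquiv (φ₁ φ₂ : C(M, ℂ) →ₐ[ℂ] Calkin X) : Prop :=
  ∃ S : (X →L[ℂ] X)ˣ, ∀ a, φ₂ a = calkinMk X (S : X →L[ℂ] X) * φ₁ a *
    calkinMk X ((S⁻¹ : (X →L[ℂ] X)ˣ) : X →L[ℂ] X)

/-- the absorbing extension `θ_M`: trivial, `[θ] + [θ] = [θ]`, and every isomorphic extension
`φ` has an isomorphic extension `φ'` with `[φ] + [φ'] = [θ]` -/
def IsTheta (θ : C(M, ℂ) →ₐ[ℂ] Calkin X) : Prop :=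
  IsTrivialExt θ ∧ (∃ S, ExtEquiv (extSum S θ θ) θ) ∧
  ∀ φ : C(M, ℂ) →ₐ[ℂ] Calkin X, IsIsoExt φ →
    ∃ φ' : C(M, ℂ) →ₐ[ℂ] Calkin X, IsIsoExt φ' ∧ ∃ S, ExtEquiv (extSum S φ φ') θ

end Ext

/-- The final theorem: positive answer to Q1. -/
def ResultStmt : Prop :=
  ∀ (p : ℝ≥0∞) [Fact (1 ≤ p)], 1 < p → p ≠ ∞ → p ≠ 2 →
  ∀ (M : Set ℂ) [CompactSpace M], M.Nonempty →
  ∀ (θ φ₁ φ₂ : C(M, ℂ) →ₐ[ℂ] Calkin (LP p)), IsTheta θ → IsIsoExt φ₁ → IsIsoExt φ₂ →
    ((∀ μ : ℂ, μ ∉ M → ∀ T₁ T₂ : LP p →L[ℂ] LP p,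
        calkinMk (LP p) T₁ = φ₁ (zfun M) - μ • 1 →
        calkinMk (LP p) T₂ = φ₂ (zfun M) - μ • 1 → findex T₁ = findex T₂) ↔
      ∀ S S' : (LP p × LP p) ≃L[ℂ] LP p, ExtEquiv (extSum S φ₁ θ) (extSum S' φ₂ θ))

end Pool.Agent.H33.BDFP
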