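import Mathlib
import Pool.Agent.H33.BDFP.Defs
import Pool.Agent.H33.BDFP.Defs2
import Pool.Agent.H33.BDFP.Defs3
import Pool.Agent.H33.BDFP.ResDefs

attribute [local instance] Pool.Agent.H33.BDFP.NV.instNACG Pool.Agent.H33.BDFP.NV.instModule
  Pool.Agent.H33.BDFP.NV.instNormedSpace Pool.Agent.H33.BDFP.NV.instFD
  Pool.Agent.H33.BDFP.NV.instComplete

/-!
Module statements for the project BDFP (l^p Brown-Douglas-Fillmore, MP_c92038_an).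
Each module proves `theorem xxx : XxxStmt` (possibly assuming other `...Stmt`).
-/

open scoped ENNReal NNReal

noncomputable section

namespace Pool.Agent.H33.BDFP

/-! ## Fredholm theory -/

section

variable {X Y : Type} [NormedAddCommGroup X] [NormedSpace ℂ X]
  [NormedAddCommGroup Y] [NormedSpace ℂ Y]

/-- invertible modulo compact operators -/
def EssInv (T : X →L[ℂ] Y) : Prop :=
  ∃ S : Y →L[ℂ] X, EqK (S ∘L T) (ContinuousLinearMap.id ℂ X) ∧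
    EqK (T ∘L S) (ContinuousLinearMap.id ℂ Y)

end

/-- compact operators into `Y` are limits of finite rank operators -/
def AP (Y : Type) [NormedAddCommGroup Y] [NormedSpace ℂ Y] : Prop :=
  ∀ (X : Type) [NormedAddCommGroup X] [NormedSpace ℂ X] (C : X →L[ℂ] Y),
    IsCompactOperator (⇑C) → ∀ ε : ℝ, 0 < ε → ∃ F : X →L[ℂ] Y,
      FiniteDimensional ℂ (LinearMap.range F.toLinearMap) ∧ ‖C - F‖ ≤ ε

/-- Module AP. -/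
def APStmt : Prop :=
  (∀ (p : ℝ≥0∞) [Fact (1 ≤ p)], p ≠ ∞ → ∀ (E : ℕ → Type) [∀ n, NormedAddCommGroup (E n)]
    [∀ n, NormedSpace ℂ (E n)] [∀ n, FiniteDimensional ℂ (E n)], AP (lp E p)) ∧
  (∀ (H : Type) [NormedAddCommGroup H] [InnerProductSpace ℂ H] [CompleteSpace H], AP H) ∧
  (∀ (X Y : Type) [NormedAddCommGroup X] [NormedSpace ℂ X] [NormedAddCommGroup Y]
    [NormedSpace ℂ Y], AP X → AP Y → AP (X × Y))

/-- Module IX: index theory (spaces with the approximation property). -/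
def IXStmt : Prop :=
  -- index zero is a compact perturbation of an isomorphism, also between different spaces
  (∀ (X Y : Type) [NormedAddCommGroup X] [NormedSpace ℂ X] [CompleteSpace X]
    [NormedAddCommGroup Y] [NormedSpace ℂ Y] [CompleteSpace Y], AP X → AP Y →
    ∀ T : X →L[ℂ] Y, EssInv T → findex T = 0 → ∃ U : X ≃L[ℂ] Y, EqK (U : X →L[ℂ] Y) T) ∧
  -- invariance under compact perturbations
  (∀ (X Y : Type) [NormedAddCommGroup X] [NormedSpace ℂ X] [CompleteSpace X]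
    [NormedAddCommGroup Y] [NormedSpace ℂ Y] [CompleteSpace Y], AP X → AP Y →
    ∀ T T' : X →L[ℂ] Y, EssInv T → EqK T T' → EssInv T' ∧ findex T = findex T') ∧
  -- additivity for direct sums
  (∀ (X X' Y Y' : Type) [NormedAddCommGroup X] [NormedSpace ℂ X] [CompleteSpace X]
    [NormedAddCommGroup X'] [NormedSpace ℂ X'] [CompleteSpace X']
    [NormedAddCommGroup Y] [NormedSpace ℂ Y] [CompleteSpace Y]
    [NormedAddCommGroup Y'] [NormedSpace ℂ Y'] [CompleteSpace Y'], AP X → AP X' → AP Y → AP Y' →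
    ∀ (T : X →L[ℂ] X') (S : Y →L[ℂ] Y'), EssInv T → EssInv S →
      findex (T.prodMap S) = findex T + findex S) ∧
  -- invariance under isomorphisms
  (∀ (X Y X' Y' : Type) [NormedAddCommGroup X] [NormedSpace ℂ X] [NormedAddCommGroup Y]
    [NormedSpace ℂ Y] [NormedAddCommGroup X'] [NormedSpace ℂ X'] [NormedAddCommGroup Y']
    [NormedSpace ℂ Y'] (T : X →L[ℂ] Y) (U : X' ≃L[ℂ] X) (V : Y ≃L[ℂ] Y'),
    findex ((V : Y →L[ℂ] Y') ∘L T ∘L (U : X' →L[ℂ] X)) = findex T)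

/-! ## The core theorem -/

/-- Core theorem for the exponent `p`: a corner of an exact representation of `C(M)` on `l^p`
whose indices vanish is stably trivial. -/
def MCStmt (p : ℝ≥0∞) [Fact (1 ≤ p)] : Prop :=
  ∀ (M : Set ℂ) [CompactSpace M], M.Nonempty →
  ∀ (ρ : Rep M (LP p)) (e : LP p →L[ℂ] LP p), Corner ρ e →
    (∀ μ : ℂ, μ ∉ M → IndexZero (cornerOp ρ e μ)) →
    ∃ σ₁ σ₂ : Rep M (LP p),
      EssEquiv (ρ.prod σ₁) (e.prodMap (ContinuousLinearMap.id ℂ (LP p)))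
        σ₂ (ContinuousLinearMap.id ℂ (LP p))

/-- Module T: transposition. -/
def TStmt : Prop :=
  ∀ (p q : ℝ≥0∞) [Fact (1 ≤ p)] [Fact (1 ≤ q)], 1 < p → 1 < q → p⁻¹ + q⁻¹ = 1 →
    MCStmt q → MCStmt p

/-! ## From the core theorem to the final theorem -/

/-- Module SEMI: the semigroup of extensions. -/
def SemiStmt : Prop :=
  ∀ (p : ℝ≥0∞) [Fact (1 ≤ p)] (M : Set ℂ) [CompactSpace M],
    (∀ S (φ ψ : C(M, ℂ) →ₐ[ℂ] Calkin (LP p)), IsIsoExt φ → IsIsoExt ψ →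
      IsIsoExt (extSum S φ ψ)) ∧
    (∀ S (φ ψ : C(M, ℂ) →ₐ[ℂ] Calkin (LP p)), IsTrivialExt φ → IsTrivialExt ψ →
      IsTrivialExt (extSum S φ ψ)) ∧
    (∀ φ : C(M, ℂ) →ₐ[ℂ] Calkin (LP p), ExtEquiv φ φ) ∧
    (∀ φ ψ : C(M, ℂ) →ₐ[ℂ] Calkin (LP p), ExtEquiv φ ψ → ExtEquiv ψ φ) ∧
    (∀ φ ψ χ : C(M, ℂ) →ₐ[ℂ] Calkin (LP p), ExtEquiv φ ψ → ExtEquiv ψ χ → ExtEquiv φ χ) ∧
    (∀ S S' (φ φ' ψ ψ' : C(M, ℂ) →ₐ[ℂ] Calkin (LP p)), ExtEquiv φ φ' → ExtEquiv ψ ψ' →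
      ExtEquiv (extSum S φ ψ) (extSum S' φ' ψ')) ∧
    (∀ S S' (φ ψ : C(M, ℂ) →ₐ[ℂ] Calkin (LP p)), ExtEquiv (extSum S φ ψ) (extSum S' ψ φ)) ∧
    (∀ S S' (φ ψ χ : C(M, ℂ) →ₐ[ℂ] Calkin (LP p)),
      ExtEquiv (extSum S (extSum S φ ψ) χ) (extSum S' φ (extSum S' ψ χ)))

/-- Module TRIV: trivial extensions are absorbed by `θ`. -/
def TrivAbsStmt : Prop :=
  ∀ (p : ℝ≥0∞) [Fact (1 ≤ p)], p ≠ ∞ → ∀ (M : Set ℂ) [CompactSpace M], M.Nonempty →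
  ∀ θ τ : C(M, ℂ) →ₐ[ℂ] Calkin (LP p), IsTheta θ → IsTrivialExt τ →
    ∀ S, ExtEquiv (extSum S τ θ) θ

/-- `φ` has index zero -/
def ZeroIndex {X : Type} [NormedAddCommGroup X] [NormedSpace ℂ X] {M : Set ℂ} [CompactSpace M]
    (φ : C(M, ℂ) →ₐ[ℂ] Calkin X) : Prop :=
  ∀ μ : ℂ, μ ∉ M → ∀ T : X →L[ℂ] X, calkinMk X T = φ (zfun M) - μ • 1 → findex T = 0

/-- Module STAB: an extension of index zero is stably trivial. -/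
def StabStmt : Prop :=
  ∀ (p : ℝ≥0∞) [Fact (1 ≤ p)], 1 < p → p ≠ ∞ → MCStmt p →
  ∀ (M : Set ℂ) [CompactSpace M], M.Nonempty →
  ∀ θ φ : C(M, ℂ) →ₐ[ℂ] Calkin (LP p), IsTheta θ → IsIsoExt φ → ZeroIndex φ →
    ∃ τ₁ τ₂ : C(M, ℂ) →ₐ[ℂ] Calkin (LP p), IsTrivialExt τ₁ ∧ IsTrivialExt τ₂ ∧
      ∃ S, ExtEquiv (extSum S φ τ₁) τ₂

/-- Module FIN: the final theorem from the core theorem. -/
def FinStmt : Prop :=
  (∀ (p : ℝ≥0∞) [Fact (1 ≤ p)], 1 < p → p ≠ ∞ → p ≠ 2 → MCStmt p) → ResultStmt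

/-! ## Isomorphisms of `l^p` -/

/-- Module PEL. -/
def PelStmt : Prop :=
  ∀ (p : ℝ≥0∞) [Fact (1 ≤ p)], p ≠ ∞ →
    Nonempty (lp (fun _ : ℕ => LP p) p ≃L[ℂ] LP p) ∧
    Nonempty ((LP p × LP p) ≃L[ℂ] LP p) ∧
    (∀ (X : Type) [NormedAddCommGroup X] [NormedSpace ℂ X], PComp p X →
      Nonempty ((X × LP p) ≃L[ℂ] LP p)) ∧
    (∀ (X Y : Type) [NormedAddCommGroup X] [NormedSpace ℂ X] [NormedAddCommGroup Y]
      [NormedSpace ℂ Y], PComp p X → PComp p Y → PComp p (X × Y))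

/-- the `l^p` norm on `C^L` -/
def lpn (p : ℝ≥0∞) {L : ℕ} (y : Fin L → ℂ) : ℝ := (∑ l, ‖y l‖ ^ p.toReal) ^ (1 / p.toReal)

/-- Module PSUM: countable `l^p` sums of uniformly complemented subspaces of `l^p_L`. -/
def PSumStmt : Prop :=
  ∀ (p : ℝ≥0∞) [Fact (1 ≤ p)], p ≠ ∞ → ∀ (ι : Type) [Countable ι] (E : ι → Type)
    [∀ i, NormedAddCommGroup (E i)] [∀ i, NormedSpace ℂ (E i)] (K : ℝ),
    (∀ i, ∃ (L : ℕ) (a : E i →ₗ[ℂ] (Fin L → ℂ)) (q : (Fin L → ℂ) →ₗ[ℂ] E i),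
      (∀ x, q (a x) = x) ∧ (∀ x, lpn p (a x) ≤ K * ‖x‖) ∧ (∀ y, ‖q y‖ ≤ K * lpn p y)) →
    PComp p (lp E p)

/-! ## Khintchine inequalities, Rosenthal spaces -/

/-- the signs -/
def sgn (b : Bool) : ℂ := if b then 1 else -1

/-- the average over all signs -/
def signAvg {ι : Type} [Fintype ι] [DecidableEq ι] (f : (ι → Bool) → ℝ) : ℝ :=
  (∑ ε : ι → Bool, f ε) / 2 ^ (Fintype.card ι)

/-- Module KH: Khintchine inequalities for vectors in an inner product space. -/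
def KhStmt : Prop :=
  (∀ p : ℝ, 2 ≤ p → ∃ B : ℝ, 1 ≤ B ∧
    ∀ (E : Type) [NormedAddCommGroup E] [InnerProductSpace ℂ E] (ι : Type) [Fintype ι]
      [DecidableEq ι] (c : ι → E),
      signAvg (fun ε => ‖∑ i, sgn (ε i) • c i‖ ^ p) ≤ B ^ p * (∑ i, ‖c i‖ ^ 2) ^ (p / 2) ∧
      (∑ i, ‖c i‖ ^ 2) ^ (p / 2) ≤ signAvg (fun ε => ‖∑ i, sgn (ε i) • c i‖ ^ p)) ∧
  (∀ q : ℝ, 1 ≤ q → q ≤ 2 →
    ∀ (E : Type) [NormedAddCommGroup E] [InnerProductSpace ℂ E] (ι : Type) [Fintype ι]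
      [DecidableEq ι] (c : ι → E),
      signAvg (fun ε => ‖∑ i, sgn (ε i) • c i‖ ^ q) ≤ (∑ i, ‖c i‖ ^ 2) ^ (q / 2))

/-- Module ROS: Rosenthal type embedding, uniform constant. -/
def RosStmt : Prop :=
  ∀ (p : ℝ≥0∞) [Fact (1 ≤ p)], 2 < p → p ≠ ∞ → ∃ K : ℝ, ∀ (m : ℕ) (r : Fin m → ℕ)
    (s : Fin m → ℝ), (∀ n, 0 < s n) → ∀ α : ℝ, 0 ≤ α →
    ∃ (L : ℕ) (a : (∀ n, EuclideanSpace ℂ (Fin (r n))) →ₗ[ℂ] (Fin L → ℂ))
      (q : (Fin L → ℂ) →ₗ[ℂ] (∀ n, EuclideanSpace ℂ (Fin (r n)))),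
      (∀ x, q (a x) = x) ∧ (∀ x, lpn p (a x) ≤ K * rosNorm p s α x) ∧
      (∀ y, rosNorm p s α (q y) ≤ K * lpn p y)

/-! ## From `l^p` to diagonal representations, weights, Hilbert space -/

/-- Module PART: fine partitions of unity with squares. -/
def PartStmt : Prop :=
  ∀ (M : Set ℂ) [CompactSpace M] (ε : ℝ), 0 < ε →
    ∃ (m : ℕ) (h : Fin m → C(M, ℂ)) (v : Fin m → M),
      (∑ i, h i * h i = 1) ∧ (∀ z, ∑ i, ‖h i z‖ ≤ 2) ∧ (∀ z i, ‖h i z‖ ≤ 1) ∧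
      ∀ z i, h i z ≠ 0 → dist z (v i) ≤ ε

/-- Module DIL1: square functions of a representation. -/
def Dil1Stmt : Prop :=
  ∀ (p : ℝ≥0∞) [Fact (1 ≤ p)], 2 ≤ p → p ≠ ∞ → ∃ K : ℝ, 0 ≤ K ∧ ∀ (M : Set ℂ)
    [CompactSpace M] (ρ : Rep M (LP p)) (C : ℝ), 0 ≤ C → (∀ a, ‖ρ.hom a‖ ≤ C * ‖a‖) →
    ∀ (m : ℕ) (g : Fin m → C(M, ℂ)) (S : ℝ), 0 ≤ S → (∀ z, ∑ i, ‖g i z‖ ≤ S) →
    ∃ (J : LP p →L[ℂ] ZP (fun _ => m) p) (R : ZP (fun _ => m) p →L[ℂ] LP p),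
      ‖J‖ ≤ K * C * S ∧ ‖R‖ ≤ K * C * S ∧ (∀ x n i, J x n i = ρ.hom (g i) x n) ∧
      (∀ n i (c : ℂ), R (lp.single p n (EuclideanSpace.single i c)) =
        ρ.hom (g i) (lp.single p n c))

/-- Module DIL: every bounded representation of `C(M)` on `l^p`, `p ≥ 2`, is modulo compact
operators a direct summand of a diagonal representation on `ZP r p`. The coordinates `i₀ n` are
extra coordinates on which `J` and `R` vanish; there the points of the diagonal representation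
are the prescribed points `u n`. -/
def DilStmt : Prop :=
  ∀ (p : ℝ≥0∞) [Fact (1 ≤ p)], 2 ≤ p → p ≠ ∞ → ∀ (M : Set ℂ) [CompactSpace M]
    (ρ : Rep M (LP p)) (u : ℕ → M),
    ∃ (r : ℕ → ℕ) (v : ∀ n, Fin (r n) → M) (i₀ : ∀ n, Fin (r n))
      (J : LP p →L[ℂ] ZP r p) (R : ZP r p →L[ℂ] LP p),
      (∀ n, v n (i₀ n) = u n) ∧ (∀ x n, J x n (i₀ n) = 0) ∧
      (∀ n (c : ℂ), R (lp.single p n (EuclideanSpace.single (i₀ n) c)) = 0) ∧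
      R ∘L J = ContinuousLinearMap.id ℂ (LP p) ∧
      (∀ a, EqK (J ∘L ρ.hom a) ((diagRep v p).hom a ∘L J)) ∧
      (∀ a, EqK (R ∘L (diagRep v p).hom a) (ρ.hom a ∘L R))

/-- `D : ZP r p → ZP r 2` is multiplication by the positive numbers `s n` -/
def IsDiag {r : ℕ → ℕ} {p : ℝ≥0∞} [Fact (1 ≤ p)] (s : ℕ → ℝ) (D : ZP r p →L[ℂ] ZP r 2) : Prop :=
  (∀ n, 0 < s n) ∧ ∀ x n, D x n = (s n : ℂ) • x n

/-- admissible weights: the unit ball of the dual of `l^(p/2)` -/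
def Adm (p : ℝ≥0∞) [Fact (1 ≤ p)] (w : ℕ → ℝ) : Prop :=
  (∀ n, 0 ≤ w n) ∧ ∀ x : LP p, Summable (fun n => w n * ‖x n‖ ^ 2) ∧
    ∑' n, w n * ‖x n‖ ^ 2 ≤ ‖x‖ ^ 2

/-- Module MAU: Maurey's factorisation for one operator. -/
def MauStmt : Prop :=
  ∀ (p : ℝ≥0∞) [Fact (1 ≤ p)], 2 < p → p ≠ ∞ → ∃ B : ℝ, 1 ≤ B ∧ ∀ (r : ℕ → ℕ)
    (A : ZP r p →L[ℂ] ZP r p) (w : ℕ → ℝ), Adm p w → ∃ w' : ℕ → ℝ, Adm p w' ∧
      ∀ x : ZP r p, ∑' n, w n * ‖A x n‖ ^ 2 ≤ (B * ‖A‖) ^ 2 * ∑' n, w' n * ‖x n‖ ^ 2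

/-- Module WT: simultaneous boundedness and compactness on a weighted Hilbert space. -/
def WtStmt : Prop :=
  ∀ (p : ℝ≥0∞) [Fact (1 ≤ p)], 2 < p → p ≠ ∞ → ∀ (r : ℕ → ℕ) (e : ZP r p →L[ℂ] ZP r p)
    (c : ℕ → (ZP r p →L[ℂ] ZP r p)), (∀ m, IsCompactOperator (⇑(c m))) →
    ∃ (s : ℕ → ℝ) (D : ZP r p →L[ℂ] ZP r 2) (e₂ : ZP r 2 →L[ℂ] ZP r 2)
      (c₂ : ℕ → (ZP r 2 →L[ℂ] ZP r 2)),
      IsDiag s D ∧ ‖D‖ ≤ 1 ∧ e₂ ∘L D = D ∘L e ∧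
      ∀ m, IsCompactOperator (⇑(c₂ m)) ∧ c₂ m ∘L D = D ∘L c m

/-- Module TR: transfer of index zero to the weighted Hilbert space. -/
def TrStmt : Prop :=
  ∀ (p : ℝ≥0∞) [Fact (1 ≤ p)], 2 < p → p ≠ ∞ → ∀ (r : ℕ → ℕ) (s : ℕ → ℝ)
    (D : ZP r p →L[ℂ] ZP r 2) (F G : ZP r p →L[ℂ] ZP r p) (F₂ G₂ : ZP r 2 →L[ℂ] ZP r 2),
    IsDiag s D → F₂ ∘L D = D ∘L F → G₂ ∘L D = D ∘L G →
    EqK (G ∘L F) (ContinuousLinearMap.id ℂ _) → EqK (F ∘L G) (ContinuousLinearMap.id ℂ _) →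
    EqK (G₂ ∘L F₂) (ContinuousLinearMap.id ℂ _) → EqK (F₂ ∘L G₂) (ContinuousLinearMap.id ℂ _) →
    IndexZero F → IndexZero F₂

/-! ## Matrices and cuts -/

/-- Module SCH: Schur test, uniqueness, compactness. -/
def SchStmt : Prop :=
  ∀ (p : ℝ≥0∞) [Fact (1 ≤ p)], p ≠ ∞ → ∀ (ι κ : Type) [DecidableEq ι] [DecidableEq κ]
    (E : ι → Type) (F : κ → Type)
    [∀ i, NormedAddCommGroup (E i)] [∀ i, NormedSpace ℂ (E i)] [∀ i, FiniteDimensional ℂ (E i)]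
    [∀ i, NormedAddCommGroup (F i)] [∀ i, NormedSpace ℂ (F i)] [∀ i, FiniteDimensional ℂ (F i)]
    (t : ∀ (i : κ) (j : ι), E j →ₗ[ℂ] F i),
    -- existence
    (∀ (b : κ → ι → ℝ) (C : ℝ), 0 ≤ C → (∀ i j, 0 ≤ b i j) →
      (∀ i j x, ‖t i j x‖ ≤ b i j * ‖x‖) →
      (∀ i, Summable (b i) ∧ ∑' j, b i j ≤ C) →
      (∀ j, Summable (fun i => b i j) ∧ ∑' i, b i j ≤ C) →
      ∃ T : lp E p →L[ℂ] lp F p, IsMat T t ∧ ‖T‖ ≤ C) ∧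
    -- uniqueness
    (∀ T T' : lp E p →L[ℂ] lp F p, IsMat T t → IsMat T' t → T = T') ∧
    -- compactness
    (∀ T : lp E p →L[ℂ] lp F p, IsMat T t → (∀ ε : ℝ, 0 < ε → ∃ (S : Finset ι)
      (b : κ → ι → ℝ), (∀ i j, 0 ≤ b i j) ∧ (∀ i, ∀ j ∉ S, ∀ x, ‖t i j x‖ ≤ b i j * ‖x‖) ∧
        (∀ i, Summable (b i) ∧ ∑' j, b i j ≤ ε) ∧
        (∀ j, Summable (fun i => b i j) ∧ ∑' i, b i j ≤ ε)) → IsCompactOperator (⇑T))

/-- Module CUT, part 1: truncations of a bounded or compact operator. -/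
def CutStmt : Prop :=
  ∀ (p q : ℝ≥0∞) [Fact (1 ≤ p)] [Fact (1 ≤ q)], 1 < p → p ≠ ∞ → q ≠ ∞ →
  ∀ (E F : ℕ → Type) [∀ n, NormedAddCommGroup (E n)] [∀ n, NormedSpace ℂ (E n)]
    [∀ n, FiniteDimensional ℂ (E n)] [∀ n, NormedAddCommGroup (F n)]
    [∀ n, NormedSpace ℂ (F n)] [∀ n, FiniteDimensional ℂ (F n)] (T : lp E p →L[ℂ] lp F q),
    (∀ n : ℕ, Filter.Tendsto (fun N : ℕ => ‖trunc q {i | N ≤ i} ∘L T ∘L trunc p {i | i < n}‖)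
      Filter.atTop (nhds 0)) ∧
    (∀ n : ℕ, Filter.Tendsto (fun N : ℕ => ‖trunc q {i | i < n} ∘L T ∘L trunc p {i | N ≤ i}‖)
      Filter.atTop (nhds 0)) ∧
    (IsCompactOperator (⇑T) →
      Filter.Tendsto (fun N : ℕ => ‖trunc q {i | N ≤ i} ∘L T‖) Filter.atTop (nhds 0) ∧
      Filter.Tendsto (fun N : ℕ => ‖T ∘L trunc p {i | N ≤ i}‖) Filter.atTop (nhds 0))

/-- Module CUT, part 2: choice of the cuts. -/
def CutSeqStmt : Prop :=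
  ∀ (I : Type) [Countable I] (f : I → ℕ → ℕ → ℝ) (g : I → ℕ → ℝ),
    (∀ m n, Filter.Tendsto (fun N => f m n N) Filter.atTop (nhds 0)) →
    (∀ m, Filter.Tendsto (fun N => g m N) Filter.atTop (nhds 0)) →
    ∃ N : ℕ → ℕ, StrictMono N ∧ N 0 = 0 ∧ ∀ m : I, ∃ j₀ : ℕ, ∀ j, j₀ ≤ j →
      f m (N j) (N (j + 1)) ≤ (1 / 4 : ℝ) ^ j ∧ g m (N (j + 1)) ≤ (1 / 4 : ℝ) ^ j

/-- Module BLK: norms of the blocks. -/
def BlkStmt : Prop :=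
  ∀ (p q : ℝ≥0∞) [Fact (1 ≤ p)] [Fact (1 ≤ q)],
  ∀ (E F : ℕ → Type) [∀ n, NormedAddCommGroup (E n)] [∀ n, NormedSpace ℂ (E n)]
    [∀ n, NormedAddCommGroup (F n)] [∀ n, NormedSpace ℂ (F n)]
    (T : lp E p →L[ℂ] lp F q) (N : ℕ → ℕ) (m : ℕ), StrictMono N → N 0 = 0 →
    (∀ j, m ≤ j → ‖trunc q {i | N (j + 1) ≤ i} ∘L T ∘L trunc p {i | i < N j}‖ ≤ (1 / 4) ^ j) →
    (∀ j, m ≤ j → ‖trunc q {i | i < N j} ∘L T ∘L trunc p {i | N (j + 1) ≤ i}‖ ≤ (1 / 4) ^ j) →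
    Cut1 N T ∧
    ((∀ j, m ≤ j → ‖trunc q {i | N (j + 1) ≤ i} ∘L T‖ ≤ (1 / 4) ^ j ∧
        ‖T ∘L trunc p {i | N (j + 1) ≤ i}‖ ≤ (1 / 4) ^ j) → Cut2 N T)

/-! ## The swindle -/

/-- Module CYC: slowly varying families of matrices moving the copies. `g j` goes from the
copies `0, 1, 2, ...` to the copies `0 (= infinity), 1, 2, ...`; `g' j` is its inverse. -/
def CycStmt : Prop :=
  ∀ κ : ℕ → ℕ, ∃ (K : ℕ → ℕ) (g g' : ℕ → ℕ → ℕ → ℂ),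
    -- trivial outside a finite square
    (∀ j c' c, K j < c' ∨ K j < c → g j c' c = (if c' = c then 1 else 0) ∧
      g' j c' c = (if c' = c then 1 else 0)) ∧
    -- bounds for rows and columns
    (∀ j c (S : Finset ℕ), ∑ d ∈ S, ‖g j c d‖ ≤ 8 ∧ ∑ d ∈ S, ‖g j d c‖ ≤ 8 ∧
      ∑ d ∈ S, ‖g' j c d‖ ≤ 8 ∧ ∑ d ∈ S, ‖g' j d c‖ ≤ 8) ∧
    -- inverse
    (∀ j c' c, c' ≤ K j → c ≤ K j →
      ∑ d ∈ Finset.range (K j + 1), g' j c' d * g j d c = (if c' = c then 1 else 0) ∧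
      ∑ d ∈ Finset.range (K j + 1), g j c' d * g' j d c = (if c' = c then 1 else 0)) ∧
    -- admissible entries
    (∀ j c' c, g j c' c ≠ 0 →
      c' = c + 1 ∨ (c' = c ∧ 1 ≤ c) ∨ (κ j ≤ c ∧ (c' = 0 ∨ κ j ≤ c'))) ∧
    (∀ j c' c, g' j c' c ≠ 0 →
      c = c' + 1 ∨ (c' = c ∧ 1 ≤ c) ∨ (κ j ≤ c' ∧ (c = 0 ∨ κ j ≤ c))) ∧
    -- slow variation
    (∀ ε : ℝ, 0 < ε → ∃ j₀ : ℕ, ∀ j, j₀ ≤ j → ∀ c (S : Finset ℕ),
      ∑ d ∈ S, ‖g (j + 1) c d - g j c d‖ ≤ ε ∧ ∑ d ∈ S, ‖g (j + 1) d c - g j d c‖ ≤ ε ∧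
      ∑ d ∈ S, ‖g' (j + 1) c d - g' j c d‖ ≤ ε ∧ ∑ d ∈ S, ‖g' (j + 1) d c - g' j d c‖ ≤ ε) ∧
    (∀ j c' c, g (j + 1) c' c ≠ g j c' c →
      κ j ≤ c ∧ κ (j + 1) ≤ c ∧ (c' = 0 ∨ (κ j ≤ c' ∧ κ (j + 1) ≤ c'))) ∧
    (∀ j c' c, g' (j + 1) c' c ≠ g' j c' c →
      κ j ≤ c' ∧ κ (j + 1) ≤ c' ∧ (c = 0 ∨ (κ j ≤ c ∧ κ (j + 1) ≤ c)))

/-- Module SW: the swindle over the levels. `lev (some k)` are the levels `k = 0, 1, 2, ...`,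
`lev none` is the Hilbert level. -/
def SwStmt : Prop :=
  ∀ (p : ℝ≥0∞) [Fact (1 ≤ p)], p ≠ ∞ → ∀ (M : Set ℂ) [CompactSpace M] (V : ℕ → Type)
    [∀ j, AddCommGroup (V j)] [∀ j, Module ℂ (V j)] [∀ j, FiniteDimensional ℂ (V j)]
    (lev : Option ℕ → ∀ j, DNorm (V j)),
    (∀ k j x, (lev (some (k + 1)) j).s x ≤ (lev (some k) j).s x) →
    (∀ k j x, (lev (some k) j).s x ≤ 2 * (lev (some (k + 1)) j).s x) →
    (∀ j, ∃ κ : ℕ, ∀ k, κ ≤ k → ∀ x, (lev (some k) j).s x = (lev none j).s x) →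
  ∀ (τ : ∀ j, C(M, ℂ) →ₐ[ℂ] Module.End ℂ (V j))
    (hτ : ∀ l j a x, (lev l j).s (τ j a x) ≤ ‖a‖ * (lev l j).s x)
    (e : ∀ i j, V j →ₗ[ℂ] V i) (b : ℕ → ℕ → ℝ) (C : ℝ),
    (∀ i j, 0 ≤ b i j) → (∀ l i j x, (lev l i).s (e i j x) ≤ b i j * (lev l j).s x) →
    (∀ i, Summable (b i) ∧ ∑' j, b i j ≤ C) →
    (∀ j, Summable (fun i => b i j) ∧ ∑' i, b i j ≤ C) →
    Summable (fun x : ℕ × ℕ => if nearDiag x then 0 else b x.1 x.2) →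
    (∀ i j (x : V j) (f : V i →ₗ[ℂ] ℂ), HasSum (fun l => f (e i l (e l j x))) (f (e i j x))) →
    (∀ (a : C(M, ℂ)) (ε : ℝ), 0 < ε → ∃ (j₀ : ℕ) (c : ℕ → ℕ → ℝ), (∀ i j, 0 ≤ c i j) ∧
      (∀ l i j x, (lev l i).s (e i j (τ j a x) - τ i a (e i j x)) ≤ c i j * (lev l j).s x) ∧
      (∀ i, Summable (c i)) ∧ (∀ j, Summable (fun i => c i j)) ∧
      (∀ i, j₀ ≤ i → ∑' j, c i j ≤ ε) ∧ (∀ j, j₀ ≤ j → ∑' i, c i j ≤ ε)) →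
  ∀ (e0 : lp (fun j => NV (V j) (lev (some 0) j)) p →L[ℂ] lp (fun j => NV (V j) (lev (some 0) j)) p)
    (ei : lp (fun j => NV (V j) (lev none j)) p →L[ℂ] lp (fun j => NV (V j) (lev none j)) p),
    IsMat e0 (fun i j => NV.map (lev (some 0) j) (lev (some 0) i) (e i j)) →
    IsMat ei (fun i j => NV.map (lev none j) (lev none i) (e i j)) →
    EssEquiv
      ((Rep.lpSum p (fun j => Rep.ofEnd (lev (some 0) j) (τ j) (hτ (some 0) j))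
          (fun _ => Rep.ofEnd_contr _ _ _)).prod
        (Rep.lpSum p (fun q : ℕ × ℕ => Rep.ofEnd (lev (some (q.1 + 1)) q.2) (τ q.2)
          (hτ (some (q.1 + 1)) q.2)) (fun _ => Rep.ofEnd_contr _ _ _)))
      (e0.prodMap (ContinuousLinearMap.id ℂ _))
      ((Rep.lpSum p (fun j => Rep.ofEnd (lev none j) (τ j) (hτ none j))
          (fun _ => Rep.ofEnd_contr _ _ _)).prod
        (Rep.lpSum p (fun q : ℕ × ℕ => Rep.ofEnd (lev (some (q.1 + 1)) q.2) (τ q.2)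
          (hτ (some (q.1 + 1)) q.2)) (fun _ => Rep.ofEnd_contr _ _ _)))
      (ei.prodMap (ContinuousLinearMap.id ℂ _))

/-! ## Assembly -/

/-- Module ACUT: one cut sequence for all the operators. -/
def ACutStmt : Prop :=
  ∀ (p : ℝ≥0∞) [Fact (1 ≤ p)], 2 < p → p ≠ ∞ → ∀ (M : Set ℂ) [CompactSpace M] (r r' : ℕ → ℕ)
    (v : ∀ n, Fin (r n) → M) (v' : ∀ n, Fin (r' n) → M)
    (e : ZP r p →L[ℂ] ZP r p) (e₂ : ZP r 2 →L[ℂ] ZP r 2)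
    (A : ZP r 2 →L[ℂ] ZP r' 2) (B : ZP r' 2 →L[ℂ] ZP r 2),
    Corner (diagRep v p) e → Corner (diagRep v 2) e₂ →
    (∀ a, EqK (A ∘L (diagRep v 2).hom a) ((diagRep v' 2).hom a ∘L A)) →
    ∃ N : ℕ → ℕ, StrictMono N ∧ N 0 = 0 ∧ Cut1 N e ∧ Cut1 N e₂ ∧ Cut1 N A ∧ Cut1 N B ∧
      (∀ a, Cut1 N (e ∘L (diagRep v p).hom a - (diagRep v p).hom a ∘L e) ∧
        Cut2 N (e ∘L (diagRep v p).hom a - (diagRep v p).hom a ∘L e)) ∧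
      (∀ a, Cut1 N (e₂ ∘L (diagRep v 2).hom a - (diagRep v 2).hom a ∘L e₂) ∧
        Cut2 N (e₂ ∘L (diagRep v 2).hom a - (diagRep v 2).hom a ∘L e₂)) ∧
      (∀ a, Cut1 N (A ∘L (diagRep v 2).hom a - (diagRep v' 2).hom a ∘L A) ∧
        Cut2 N (A ∘L (diagRep v 2).hom a - (diagRep v' 2).hom a ∘L A))

/-- Module AREG: the blocks at the level zero give back `ZP r p`; every operator on the level
`0` comes from a matrix. -/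
def ARegStmt : Prop :=
  ∀ (p : ℝ≥0∞) [Fact (1 ≤ p)] (_ : 2 < p) (hp : p ≠ ∞) (M : Set ℂ) [CompactSpace M]
    (r N : ℕ → ℕ) (s : ℕ → ℝ) (hs : ∀ n, 0 < s n) (v : ∀ n, Fin (r n) → M)
    (D : ZP r p →L[ℂ] ZP r 2), IsDiag s D → ‖D‖ ≤ 1 → StrictMono N → N 0 = 0 →
    ∃ Φ : ZL p r N s hs (some 0) ≃L[ℂ] ZP r p,
      (∀ j (x : BV r N j), Φ (lp.single p j (NV.of _ x)) = toZ r N p j x) ∧
      (∀ a y, Φ ((repL p hp r N s hs v (some 0)).hom a y) = (diagRep v p).hom a (Φ y)) ∧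
      (∀ e : ZP r p →L[ℂ] ZP r p,
        SameMat ((Φ.symm : ZP r p →L[ℂ] ZL p r N s hs (some 0)) ∘L e ∘L
          (Φ : ZL p r N s hs (some 0) →L[ℂ] ZP r p)) e)

/-- Module ASW: application of the swindle. -/
def ASwStmt : Prop :=
  ∀ (p : ℝ≥0∞) [Fact (1 ≤ p)] (_ : 2 < p) (hp : p ≠ ∞) (M : Set ℂ) [CompactSpace M]
    (r N : ℕ → ℕ) (s : ℕ → ℝ) (hs : ∀ n, 0 < s n) (v : ∀ n, Fin (r n) → M)
    (D : ZP r p →L[ℂ] ZP r 2) (e : ZP r p →L[ℂ] ZP r p) (e₂ : ZP r 2 →L[ℂ] ZP r 2),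
    IsDiag s D → ‖D‖ ≤ 1 → StrictMono N → N 0 = 0 → e₂ ∘L D = D ∘L e →
    e ∘L e = e → Cut1 N e → Cut1 N e₂ →
    (∀ a, Cut1 N (e ∘L (diagRep v p).hom a - (diagRep v p).hom a ∘L e) ∧
        Cut2 N (e ∘L (diagRep v p).hom a - (diagRep v p).hom a ∘L e)) →
    (∀ a, Cut1 N (e₂ ∘L (diagRep v 2).hom a - (diagRep v 2).hom a ∘L e₂) ∧
        Cut2 N (e₂ ∘L (diagRep v 2).hom a - (diagRep v 2).hom a ∘L e₂)) →
    ∃ ei : ZL p r N s hs none →L[ℂ] ZL p r N s hs none, SameMat ei e ∧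
      ∀ e0 : ZL p r N s hs (some 0) →L[ℂ] ZL p r N s hs (some 0), SameMat e0 e →
      EssEquiv
        ((repL p hp r N s hs v (some 0)).prod (repPlus p hp r N s hs v))
        (e0.prodMap (ContinuousLinearMap.id ℂ _))
        ((repL p hp r N s hs v none).prod (repPlus p hp r N s hs v))
        (ei.prodMap (ContinuousLinearMap.id ℂ _))

/-- Module AHIL: the Hilbert level is trivial. -/
def AHilStmt : Prop :=
  ∀ (p : ℝ≥0∞) [Fact (1 ≤ p)] (_ : 2 < p) (hp : p ≠ ∞) (M : Set ℂ) [CompactSpace M]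
    (r r' N : ℕ → ℕ) (s : ℕ → ℝ) (hs : ∀ n, 0 < s n) (v : ∀ n, Fin (r n) → M)
    (v' : ∀ n, Fin (r' n) → M)
    (D : ZP r p →L[ℂ] ZP r 2) (e : ZP r p →L[ℂ] ZP r p) (e₂ : ZP r 2 →L[ℂ] ZP r 2)
    (A : ZP r 2 →L[ℂ] ZP r' 2) (B : ZP r' 2 →L[ℂ] ZP r 2),
    IsDiag s D → StrictMono N → N 0 = 0 → e₂ ∘L D = D ∘L e →
    A ∘L B = ContinuousLinearMap.id ℂ _ → B ∘L A = e₂ →
    Cut1 N A → Cut1 N B →
    (∀ a, Cut1 N (A ∘L (diagRep v 2).hom a - (diagRep v' 2).hom a ∘L A) ∧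
        Cut2 N (A ∘L (diagRep v 2).hom a - (diagRep v' 2).hom a ∘L A)) →
    ∀ ei : ZL p r N s hs none →L[ℂ] ZL p r N s hs none, SameMat ei e →
      EssEquiv (repL p hp r N s hs v none) ei
        (repL p hp r' N (fun _ => 1) (fun _ => one_pos) v' none) (ContinuousLinearMap.id ℂ _)

/-- Module APC: the spaces of the assembly are complemented in `l^p`. -/
def APcStmt : Prop :=
  ∀ (p : ℝ≥0∞) [Fact (1 ≤ p)], 2 < p → p ≠ ∞ →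
    ∀ (r N : ℕ → ℕ) (s : ℕ → ℝ) (hs : ∀ n, 0 < s n), PComp p (ZPlus p r N s hs) ∧
      PComp p (ZL p r N s hs none)

/-- Module ASM: the `l^p` corner is stably trivial. -/
def AsmStmt : Prop :=
  ∀ (p : ℝ≥0∞) [Fact (1 ≤ p)], 2 < p → p ≠ ∞ → ∀ (M : Set ℂ) [CompactSpace M] (r r' : ℕ → ℕ)
    (v : ∀ n, Fin (r n) → M) (v' : ∀ n, Fin (r' n) → M)
    (e : ZP r p →L[ℂ] ZP r p) (e₂ : ZP r 2 →L[ℂ] ZP r 2) (s : ℕ → ℝ)
    (D : ZP r p →L[ℂ] ZP r 2) (A : ZP r 2 →L[ℂ] ZP r' 2) (B : ZP r' 2 →L[ℂ] ZP r 2),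
    Corner (diagRep v p) e → Corner (diagRep v 2) e₂ → IsDiag s D → ‖D‖ ≤ 1 →
    e₂ ∘L D = D ∘L e → A ∘L B = ContinuousLinearMap.id ℂ _ → B ∘L A = e₂ →
    (∀ a, EqK (A ∘L (diagRep v 2).hom a) ((diagRep v' 2).hom a ∘L A)) →
    ∃ (X₁ X₂ : Type) (_ : NormedAddCommGroup X₁) (_ : NormedSpace ℂ X₁)
      (_ : NormedAddCommGroup X₂) (_ : NormedSpace ℂ X₂) (σ₁ : Rep M X₁) (σ₂ : Rep M X₂),
      PComp p X₁ ∧ PComp p X₂ ∧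
      EssEquiv ((diagRep v p).prod σ₁) (e.prodMap (ContinuousLinearMap.id ℂ X₁))
        σ₂ (ContinuousLinearMap.id ℂ X₂)

/-- Module MC: assembly of the core theorem for `2 < p < ∞` (helper33). -/
def MCAsmStmt : Prop :=
  ∀ (p : ℝ≥0∞) [Fact (1 ≤ p)], 2 < p → p ≠ ∞ → MCStmt p

end Pool.Agent.H33.BDFP
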