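import Mathlib
import Pool.Agent.H33.BDFP.Defs
import Pool.Agent.H33.BDFP.Defs2
import Pool.Agent.H33.BDFP.Defs3
import Pool.Agent.H33.BDFP.ResDefs
import Pool.Agent.H33.BDFP.Stmts

attribute [local instance] Pool.Agent.H33.BDFP.NV.instNACG Pool.Agent.H33.BDFP.NV.instModule
  Pool.Agent.H33.BDFP.NV.instNormedSpace Pool.Agent.H33.BDFP.NV.instFD
  Pool.Agent.H33.BDFP.NV.instComplete

/-!
Part D: the classical theorem of Brown, Douglas and Fillmore in the case of index zero, after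
Friis and Rordam.
-/

open scoped ENNReal NNReal

noncomputable section

namespace Pool.Agent.H33.BDFP

/-! ## C*-algebras -/

/-- a pair `π : B → A` of C*-algebras with enough projections and unitaries in `B` -/
structure Good (B A : Type) [CStarAlgebra B] [CStarAlgebra A] (π : B →⋆ₐ[ℂ] A) : Prop where
  lift : ∀ a : A, ‖a‖ < 1 → ∃ X : B, π X = a ∧ ‖X‖ < 1
  rickart : ∀ Y : B, ∃ Q : B, IsStarProjection Q ∧ Q * Y = Y ∧ ∀ Z : B, Z * Y = 0 → Z * Q = 0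
  polar : ∀ y : A, IsStarNormal y → ¬ IsUnit y → ∀ η : ℝ, 0 < η → ∃ U ∈ unitary B,
    ∀ k : ℂ → ℂ, Continuous k → (∀ z, ‖z‖ ≤ η → k z = 0) →
      cfc (fun z => z * k z) y = π U * cfc (fun z => (‖z‖ : ℂ) * k z) y

/-- `a` lifts to an invertible element -/
def Lft {B A : Type} [CStarAlgebra B] [CStarAlgebra A] (π : B →⋆ₐ[ℂ] A) (a : A) : Prop :=
  ∃ W : Bˣ, π (W : B) = a

/-- Module QUO: the quotient of a C*-algebra by a closed self-adjoint ideal. -/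
def QuoStmt : Prop :=
  ∀ (B : Type) [CStarAlgebra B] (J : Set B), IsClosed J → (0 : B) ∈ J →
    (∀ x ∈ J, ∀ y ∈ J, x + y ∈ J) → (∀ x ∈ J, ∀ y : B, y * x ∈ J ∧ x * y ∈ J) →
    (∀ x ∈ J, star x ∈ J) →
    ∃ (A : Type) (_ : CStarAlgebra A) (π : B →⋆ₐ[ℂ] A), (∀ x, π x = 0 ↔ x ∈ J) ∧
      ∀ a : A, ‖a‖ < 1 → ∃ X : B, π X = a ∧ ‖X‖ < 1

/-- Module PAIR1: the Calkin algebra of a Hilbert space. -/
def Pair1Stmt : Prop :=
  ∀ (H : Type) [NormedAddCommGroup H] [InnerProductSpace ℂ H] [CompleteSpace H]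
    [TopologicalSpace.SeparableSpace H], ¬ FiniteDimensional ℂ H →
  ∃ (A : Type) (_ : CStarAlgebra A) (_ : Nontrivial A) (π : (H →L[ℂ] H) →⋆ₐ[ℂ] A),
    Good (H →L[ℂ] H) A π ∧ ∀ T, π T = 0 ↔ IsCompactOperator (⇑T)

/-- the finite-dimensional Hilbert spaces -/
abbrev Eu (n : ℕ) : Type := EuclideanSpace ℂ (Fin n)

/-- Module PAIR2: bounded sequences of matrices modulo null sequences. -/
def Pair2Stmt : Prop :=
  ∀ (d : ℕ → ℕ), ∃ (B A : Type) (_ : CStarAlgebra B) (_ : CStarAlgebra A) (_ : Nontrivial A)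
    (π : B →⋆ₐ[ℂ] A) (ev : ∀ n, B →⋆ₐ[ℂ] (Eu (d n + 1) →L[ℂ] Eu (d n + 1))),
    Good B A π ∧ (∀ x, (∀ n, ev n x = 0) → x = 0) ∧
    (∀ t : ∀ n, Eu (d n + 1) →L[ℂ] Eu (d n + 1), (∃ C, ∀ n, ‖t n‖ ≤ C) →
      ∃ x, ∀ n, ev n x = t n) ∧
    (∀ x, π x = 0 ↔ Filter.Tendsto (fun n => ‖ev n x‖) Filter.atTop (nhds 0)) ∧
    (∀ y : A, IsUnit y → Lft π y)

/-! ## The theorem of Friis and Rordam -/

/-- Module PUNCT: a small perturbation makes `b - μ` liftable for finitely many `μ`. -/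
def PunctStmt : Prop :=
  ∀ (B A : Type) [CStarAlgebra B] [CStarAlgebra A] (π : B →⋆ₐ[ℂ] A), Good B A π →
    ∀ b : A, IsStarNormal b → ∀ Λ : Finset ℂ,
      (∀ μ ∈ Λ, μ ∉ spectrum ℂ b → Lft π (b - algebraMap ℂ A μ)) →
      ∀ ε : ℝ, 0 < ε → ∃ b' : A, IsStarNormal b' ∧ ‖b' - b‖ ≤ ε ∧
        ∀ μ ∈ Λ, Lft π (b' - algebraMap ℂ A μ)

/-- the square of half side `R` -/
def Sq (R : ℕ) : Set ℂ := {z | |z.re| ≤ R ∧ |z.im| ≤ R}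

/-- the centres of the cells in the square -/
def ctr (R : ℕ) : Finset ℂ :=
  (Finset.Ico (-(R : ℤ)) R ×ˢ Finset.Ico (-(R : ℤ)) R).image
    (fun q => (⟨(q.1 : ℝ) + 1 / 2, (q.2 : ℝ) + 1 / 2⟩ : ℂ))

/-- the grid -/
def grid : Set ℂ := {z | (∃ k : ℤ, z.re = k) ∨ ∃ k : ℤ, z.im = k}

/-- the grid without the midpoints of its edges -/
def gridM : Set ℂ := {z | (∃ k : ℤ, z.re = k ∧ ∀ l : ℤ, z.im ≠ l + 1 / 2) ∨
  ∃ k : ℤ, z.im = k ∧ ∀ l : ℤ, z.re ≠ l + 1 / 2}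

/-- Module RETR: retraction to the grid. -/
def RetrStmt : Prop :=
  ∀ (B A : Type) [CStarAlgebra B] [CStarAlgebra A] (π : B →⋆ₐ[ℂ] A), Good B A π →
    ∀ (R : ℕ) (b : A), IsStarNormal b → spectrum ℂ b ⊆ Sq R →
      (∀ μ ∈ ctr (R + 1), Lft π (b - algebraMap ℂ A μ)) →
      ∃ b' : A, IsStarNormal b' ∧ ‖b' - b‖ ≤ 1 ∧ spectrum ℂ b' ⊆ grid ∩ Sq R ∧
        ∀ μ ∈ ctr (R + 1), Lft π (b' - algebraMap ℂ A μ)

/-- the grid, translated such that `0` is the midpoint of a vertical edge -/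
def gridS : Set ℂ := {z | (∃ k : ℤ, z.re = k) ∨ ∃ k : ℤ, z.im = k + 1 / 2}

/-- Module EDGE: cutting one edge at its midpoint `0`. -/
def EdgeStmt : Prop :=
  ∀ (B A : Type) [CStarAlgebra B] [CStarAlgebra A] (π : B →⋆ₐ[ℂ] A), Good B A π →
    ∀ b : A, IsStarNormal b → spectrum ℂ b ⊆ gridS →
      Lft π (b - algebraMap ℂ A (1 / 2)) → Lft π (b + algebraMap ℂ A (1 / 2)) →
      ∀ ε : ℝ, 0 < ε → ∃ b' : A, IsStarNormal b' ∧ ‖b' - b‖ ≤ ε ∧ (0 : ℂ) ∉ spectrum ℂ b' ∧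
        spectrum ℂ b' ⊆ spectrum ℂ b ∪ {z | z.re = 0 ∧ |z.im| ≤ ε}

/-- Module CUTALL: cutting all the edges. -/
def CutAllStmt : Prop :=
  ∀ (B A : Type) [CStarAlgebra B] [CStarAlgebra A] (π : B →⋆ₐ[ℂ] A), Good B A π →
    ∀ (R : ℕ) (b : A), IsStarNormal b → spectrum ℂ b ⊆ grid ∩ Sq R →
      (∀ μ ∈ ctr (R + 1), Lft π (b - algebraMap ℂ A μ)) →
      ∃ b' : A, IsStarNormal b' ∧ ‖b' - b‖ ≤ 1 ∧ spectrum ℂ b' ⊆ gridM

/-- Module FINL: normal elements with finite spectrum lift. -/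
def FinLiftStmt : Prop :=
  ∀ (B A : Type) [CStarAlgebra B] [CStarAlgebra A] [Nontrivial A] (π : B →⋆ₐ[ℂ] A),
    Good B A π → ∀ b : A, IsStarNormal b → (spectrum ℂ b).Finite →
    ∃ (m : ℕ) (Q : Fin m → B) (c : Fin m → ℂ), (∀ i, IsStarProjection (Q i)) ∧
      (∀ i j, i ≠ j → Q i * Q j = 0) ∧ ∑ i, Q i = 1 ∧ (∀ i, c i ∈ spectrum ℂ b) ∧
      π (∑ i, c i • Q i) = b

/-- Module FR: the theorem of Friis and Rordam. -/
def FRStmt : Prop :=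
  ∀ (B A : Type) [CStarAlgebra B] [CStarAlgebra A] [Nontrivial A] (π : B →⋆ₐ[ℂ] A),
    Good B A π → ∀ a : A, IsStarNormal a →
    (∀ μ : ℂ, μ ∉ spectrum ℂ a → Lft π (a - algebraMap ℂ A μ)) →
    ∀ ε : ℝ, 0 < ε → ∃ (m : ℕ) (Q : Fin m → B) (c : Fin m → ℂ), (∀ i, IsStarProjection (Q i)) ∧
      (∀ i j, i ≠ j → Q i * Q j = 0) ∧ ∑ i, Q i = 1 ∧ (∀ i, c i ∈ spectrum ℂ a) ∧
      ‖π (∑ i, c i • Q i) - a‖ ≤ ε

/-! ## Quasidiagonality and the classical theorem -/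

/-- Module QD: limits of operators with finite spectrum are quasidiagonal. -/
def QdStmt : Prop :=
  ∀ (H : Type) [NormedAddCommGroup H] [InnerProductSpace ℂ H] [CompleteSpace H]
    [TopologicalSpace.SeparableSpace H], ¬ FiniteDimensional ℂ H →
  ∀ T : H →L[ℂ] H, (∀ ε : ℝ, 0 < ε → ∃ (m : ℕ) (Q : Fin m → (H →L[ℂ] H)) (c : Fin m → ℂ)
    (K : H →L[ℂ] H), (∀ i, IsStarProjection (Q i)) ∧ (∀ i j, i ≠ j → Q i * Q j = 0) ∧
      ∑ i, Q i = 1 ∧ IsCompactOperator (⇑K) ∧ ‖T - (∑ i, c i • Q i) - K‖ ≤ ε) →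
    ∃ (d : ℕ → ℕ) (Φ : H ≃ₗᵢ[ℂ] ZP (fun n => d n + 1) 2)
      (t : ∀ n, Eu (d n + 1) →L[ℂ] Eu (d n + 1)) (T' : H →L[ℂ] H) (C : ℝ),
      (∀ n, ‖t n‖ ≤ C) ∧ EqK T T' ∧ (∀ x n, Φ (T' x) n = t n (Φ x n))

/-- Module DGB: approximate diagonalisation of blocks. -/
def DgbStmt : Prop :=
  ∀ (d : ℕ → ℕ) (M : Set ℂ), IsCompact M → M.Nonempty →
  ∀ (t : ∀ n, Eu (d n + 1) →L[ℂ] Eu (d n + 1)) (C : ℝ), (∀ n, ‖t n‖ ≤ C) →
    Filter.Tendsto (fun n => ‖star (t n) * t n - t n * star (t n)‖) Filter.atTop (nhds 0) →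
    (∀ μ : ℂ, μ ∉ M → ∃ (s : ∀ n, Eu (d n + 1) →L[ℂ] Eu (d n + 1)) (C' : ℝ), (∀ n, ‖s n‖ ≤ C') ∧
      Filter.Tendsto (fun n => ‖s n * (t n - μ • 1) - 1‖) Filter.atTop (nhds 0) ∧
      Filter.Tendsto (fun n => ‖(t n - μ • 1) * s n - 1‖) Filter.atTop (nhds 0)) →
    ∃ (μ : ∀ n, Fin (d n + 1) → ℂ) (b : ∀ n, OrthonormalBasis (Fin (d n + 1)) ℂ (Eu (d n + 1)))
      (D : ∀ n, Eu (d n + 1) →L[ℂ] Eu (d n + 1)), (∀ n i, μ n i ∈ M) ∧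
      (∀ n i, D n (b n i) = μ n i • b n i) ∧
      Filter.Tendsto (fun n => ‖t n - D n‖) Filter.atTop (nhds 0)

/-- Module BDF: the classical theorem of Brown, Douglas and Fillmore, index zero case. -/
def BdfStmt : Prop :=
  ∀ (H : Type) [NormedAddCommGroup H] [InnerProductSpace ℂ H] [CompleteSpace H]
    [TopologicalSpace.SeparableSpace H], ¬ FiniteDimensional ℂ H →
  ∀ (M : Set ℂ), IsCompact M → M.Nonempty → ∀ (T : H →L[ℂ] H),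
    EqK (ContinuousLinearMap.adjoint T ∘L T) (T ∘L ContinuousLinearMap.adjoint T) →
    (∀ μ : ℂ, μ ∉ M → IndexZero (T - μ • ContinuousLinearMap.id ℂ H)) →
    (∀ μ ∈ M, ¬ EssInv (T - μ • ContinuousLinearMap.id ℂ H)) →
    ∃ (b : HilbertBasis ℕ ℂ H) (μ : ℕ → ℂ) (D : H →L[ℂ] H),
      (∀ n, μ n ∈ M) ∧ (∀ n, D (b n) = μ n • b n) ∧ EqK T D

/-- Module HIL: consequence of BDF for corners of diagonal representations on `ZP r 2`. -/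
def HilStmt : Prop :=
  ∀ (M : Set ℂ) [CompactSpace M] (r : ℕ → ℕ) (v : ∀ n, Fin (r n) → M)
    (e : ZP r 2 →L[ℂ] ZP r 2), Corner (diagRep v 2) e →
    (∀ μ : ℂ, μ ∉ M → IndexZero (cornerOp (diagRep v 2) e μ)) →
    (∀ μ ∈ M, ¬ EssInv (cornerOp (diagRep v 2) e μ)) → M.Nonempty →
    ∃ (μ : ℕ → M) (A : ZP r 2 →L[ℂ] ZP (fun _ => 1) 2) (B : ZP (fun _ => 1) 2 →L[ℂ] ZP r 2),
      A ∘L B = ContinuousLinearMap.id ℂ _ ∧ B ∘L A = e ∧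
      ∀ a, EqK (A ∘L (diagRep v 2).hom a) ((diagRep (fun n (_ : Fin 1) => μ n) 2).hom a ∘L A)

end Pool.Agent.H33.BDFP
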