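import Mathlib
import Pool.Agent.H33.BDFP.Defs
import Pool.Agent.H33.BDFP.Defs2
import Pool.Agent.H33.BDFP.Defs3
import Pool.Agent.H33.BDFP.ResDefs
import Pool.Agent.H33.BDFP.Stmts

attribute [local instance] Pool.Agent.H33.BDFP.NV.instNACG Pool.Agent.H33.BDFP.NV.instModule
  Pool.Agent.H33.BDFP.NV.instNormedSpace Pool.Agent.H33.BDFP.NV.instFD
  Pool.Agent.H33.BDFP.NV.instComplete

/-!
Basic facts on `EqK`, `EssEquiv` and `EssInv`.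
-/

open scoped ENNReal NNReal

noncomputable section

namespace Pool.Agent.H33.BDFP

section EqK

variable {X Y Z W : Type} [NormedAddCommGroup X] [NormedSpace ℂ X]
  [NormedAddCommGroup Y] [NormedSpace ℂ Y] [NormedAddCommGroup Z] [NormedSpace ℂ Z]
  [NormedAddCommGroup W] [NormedSpace ℂ W]

lemma EqK.refl (S : X →L[ℂ] Y) : EqK S S := by
  change IsCompactOperator (⇑(S - S))
  rw [sub_self]
  exact isCompactOperator_zero

lemma EqK.of_eq {S T : X →L[ℂ] Y} (h : S = T) : EqK S T := h ▸ EqK.refl S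

lemma EqK.symm {S T : X →L[ℂ] Y} (h : EqK S T) : EqK T S := by
  have h1 : IsCompactOperator (⇑(-(S - T))) := h.neg
  rwa [neg_sub] at h1

lemma EqK.trans {S T U : X →L[ℂ] Y} (h : EqK S T) (h' : EqK T U) : EqK S U := by
  have h1 : IsCompactOperator (⇑((S - T) + (T - U))) := h.add h'
  rwa [sub_add_sub_cancel] at h1

lemma EqK.add {S T S' T' : X →L[ℂ] Y} (h : EqK S T) (h' : EqK S' T') :
    EqK (S + S') (T + T') := by
  have h1 : IsCompactOperator (⇑((S - T) + (S' - T'))) := IsCompactOperator.add h h'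
  rwa [sub_add_sub_comm] at h1

lemma EqK.sub {S T S' T' : X →L[ℂ] Y} (h : EqK S T) (h' : EqK S' T') :
    EqK (S - S') (T - T') := by
  have h1 : IsCompactOperator (⇑((S - T) - (S' - T'))) := IsCompactOperator.sub h h'
  rwa [sub_sub_sub_comm] at h1

lemma EqK.smul {S T : X →L[ℂ] Y} (c : ℂ) (h : EqK S T) : EqK (c • S) (c • T) := by
  have h1 : IsCompactOperator (⇑(c • (S - T))) := IsCompactOperator.smul h c
  rwa [smul_sub] at h1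

lemma EqK.comp_left (A : Y →L[ℂ] Z) {S T : X →L[ℂ] Y} (h : EqK S T) :
    EqK (A ∘L S) (A ∘L T) := by
  change IsCompactOperator (⇑(A ∘L S - A ∘L T))
  rw [← ContinuousLinearMap.comp_sub]
  exact h.clm_comp A

lemma EqK.comp_right (A : Z →L[ℂ] X) {S T : X →L[ℂ] Y} (h : EqK S T) :
    EqK (S ∘L A) (T ∘L A) := by
  change IsCompactOperator (⇑(S ∘L A - T ∘L A))
  rw [← ContinuousLinearMap.sub_comp]
  exact h.comp_clm A

lemma EqK.comp {S T : X →L[ℂ] Y} {S' T' : Z →L[ℂ] X} (h : EqK S T) (h' : EqK S' T') :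
    EqK (S ∘L S') (T ∘L T') :=
  (h.comp_right S').trans (h'.comp_left T)

lemma EqK.prodMap {S T : X →L[ℂ] Y} {S' T' : Z →L[ℂ] W} (h : EqK S T) (h' : EqK S' T') :
    EqK (S.prodMap S') (T.prodMap T') := by
  have e : S.prodMap S' - T.prodMap T' = ContinuousLinearMap.inl ℂ Y W ∘L (S - T) ∘L
      ContinuousLinearMap.fst ℂ X Z + ContinuousLinearMap.inr ℂ Y W ∘L (S' - T') ∘L
      ContinuousLinearMap.snd ℂ X Z := by
    refine ContinuousLinearMap.ext fun x => ?_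
    change (S x.1 - T x.1, S' x.2 - T' x.2) = (S x.1 - T x.1, (0 : W)) + ((0 : Y), S' x.2 - T' x.2)
    simp
  change IsCompactOperator (⇑(S.prodMap S' - T.prodMap T'))
  rw [e]
  have h1 : IsCompactOperator (⇑(ContinuousLinearMap.inl ℂ Y W ∘L (S - T) ∘L
      ContinuousLinearMap.fst ℂ X Z)) :=
    (IsCompactOperator.comp_clm h (ContinuousLinearMap.fst ℂ X Z)).clm_comp
      (ContinuousLinearMap.inl ℂ Y W)
  have h2 : IsCompactOperator (⇑(ContinuousLinearMap.inr ℂ Y W ∘L (S' - T') ∘L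
      ContinuousLinearMap.snd ℂ X Z)) :=
    (IsCompactOperator.comp_clm h' (ContinuousLinearMap.snd ℂ X Z)).clm_comp
      (ContinuousLinearMap.inr ℂ Y W)
  exact h1.add h2

lemma prodMap_comp_prodMap {X' Y' Z' : Type} [NormedAddCommGroup X'] [NormedSpace ℂ X']
    [NormedAddCommGroup Y'] [NormedSpace ℂ Y'] [NormedAddCommGroup Z'] [NormedSpace ℂ Z']
    (S : Y →L[ℂ] Z) (T : X →L[ℂ] Y) (S' : Y' →L[ℂ] Z') (T' : X' →L[ℂ] Y') :
    (S.prodMap S') ∘L (T.prodMap T') = (S ∘L T).prodMap (S' ∘L T') :=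
  ContinuousLinearMap.ext fun _ => rfl

/-- with both idempotents equal to `1` one can transport freely -/
lemma id_prodMap_id : (ContinuousLinearMap.id ℂ X).prodMap (ContinuousLinearMap.id ℂ Y) =
    ContinuousLinearMap.id ℂ (X × Y) := ContinuousLinearMap.ext fun _ => rfl

lemma eqK_zero_iff (S : X →L[ℂ] Y) : EqK S 0 ↔ IsCompactOperator (⇑S) := by
  unfold EqK
  rw [sub_zero]

/-- compact operators are closed -/
lemma eqK_of_forall_approx [CompleteSpace Y] (S T : X →L[ℂ] Y)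
    (h : ∀ ε : ℝ, 0 < ε → ∃ C : X →L[ℂ] Y, IsCompactOperator (⇑C) ∧ ‖(S - T) - C‖ ≤ ε) :
    EqK S T := by
  have h1 : (S - T) ∈ closure {C : X →L[ℂ] Y | IsCompactOperator (⇑C)} := by
    rw [Metric.mem_closure_iff]
    intro ε hε
    obtain ⟨C, hC, hC'⟩ := h (ε / 2) (by positivity)
    refine ⟨C, hC, ?_⟩
    rw [dist_eq_norm]
    linarith
  have h2 : IsClosed {C : X →L[ℂ] Y | IsCompactOperator (⇑C)} :=
    isClosed_setOfPred_isCompactOperator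
  rw [h2.closure_eq] at h1
  exact h1

end EqK

section EssInv

variable {X Y Z W : Type} [NormedAddCommGroup X] [NormedSpace ℂ X]
  [NormedAddCommGroup Y] [NormedSpace ℂ Y] [NormedAddCommGroup Z] [NormedSpace ℂ Z]
  [NormedAddCommGroup W] [NormedSpace ℂ W]

lemma EssInv.congr {S T : X →L[ℂ] Y} (h : EssInv S) (h' : EqK S T) : EssInv T := by
  obtain ⟨R, h1, h2⟩ := h
  exact ⟨R, (h'.symm.comp_left R).trans h1, (h'.symm.comp_right R).trans h2⟩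

lemma EssInv.comp {S : Y →L[ℂ] Z} {T : X →L[ℂ] Y} (h : EssInv S) (h' : EssInv T) :
    EssInv (S ∘L T) := by
  obtain ⟨R, h1, h2⟩ := h
  obtain ⟨R', h1', h2'⟩ := h'
  refine ⟨R' ∘L R, ?_, ?_⟩
  · have a1 : EqK (R' ∘L (R ∘L S) ∘L T) (R' ∘L (ContinuousLinearMap.id ℂ Y) ∘L T) :=
      (h1.comp_right T).comp_left R'
    exact a1.trans h1'
  · have a1 : EqK (S ∘L (T ∘L R') ∘L R) (S ∘L (ContinuousLinearMap.id ℂ Y) ∘L R) :=
      (h2'.comp_right R).comp_left S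
    exact a1.trans h2

lemma EssInv.of_equiv (U : X ≃L[ℂ] Y) : EssInv (U : X →L[ℂ] Y) :=
  ⟨(U.symm : Y →L[ℂ] X), EqK.of_eq (by ext x; simp), EqK.of_eq (by ext x; simp)⟩

lemma EssInv.prodMap {S : X →L[ℂ] Y} {T : Z →L[ℂ] W} (h : EssInv S) (h' : EssInv T) :
    EssInv (S.prodMap T) := by
  obtain ⟨R, h1, h2⟩ := h
  obtain ⟨R', h1', h2'⟩ := h'
  refine ⟨R.prodMap R', ?_, ?_⟩
  · rw [prodMap_comp_prodMap, ← id_prodMap_id]; exact h1.prodMap h1'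
  · rw [prodMap_comp_prodMap, ← id_prodMap_id]; exact h2.prodMap h2'

lemma IndexZero.essInv {T : X →L[ℂ] X} (h : IndexZero T) : EssInv T := by
  obtain ⟨U, hU⟩ := h
  have h1 : EssInv (U : X →L[ℂ] X) := ⟨((U⁻¹ : (X →L[ℂ] X)ˣ) : X →L[ℂ] X),
    EqK.of_eq U.inv_mul, EqK.of_eq U.mul_inv⟩
  exact h1.congr hU

lemma IndexZero.congr {S T : X →L[ℂ] X} (h : IndexZero S) (h' : EqK S T) : IndexZero T := by
  obtain ⟨U, hU⟩ := h
  exact ⟨U, hU.trans h'⟩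

/-- index zero is invariant under similarity -/
lemma IndexZero.conj {T : X →L[ℂ] X} (h : IndexZero T) (Φ : X ≃L[ℂ] Y) :
    IndexZero ((Φ : X →L[ℂ] Y) ∘L T ∘L (Φ.symm : Y →L[ℂ] X)) := by
  obtain ⟨U, hU⟩ := h
  refine ⟨⟨(Φ : X →L[ℂ] Y) ∘L (U : X →L[ℂ] X) ∘L (Φ.symm : Y →L[ℂ] X),
    (Φ : X →L[ℂ] Y) ∘L ((U⁻¹ : (X →L[ℂ] X)ˣ) : X →L[ℂ] X) ∘L (Φ.symm : Y →L[ℂ] X), ?_, ?_⟩,
    (hU.comp_right _).comp_left _⟩
  · have h1 : ∀ x, (U : X →L[ℂ] X) (((U⁻¹ : (X →L[ℂ] X)ˣ) : X →L[ℂ] X) x) = x := fun x =>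
      congrArg (fun f : X →L[ℂ] X => f x) U.mul_inv
    refine ContinuousLinearMap.ext fun y => ?_
    change Φ ((U : X →L[ℂ] X) (Φ.symm (Φ (((U⁻¹ : (X →L[ℂ] X)ˣ) : X →L[ℂ] X) (Φ.symm y))))) = y
    rw [Φ.symm_apply_apply, h1, Φ.apply_symm_apply]
  · have h1 : ∀ x, ((U⁻¹ : (X →L[ℂ] X)ˣ) : X →L[ℂ] X) ((U : X →L[ℂ] X) x) = x := fun x =>
      congrArg (fun f : X →L[ℂ] X => f x) U.inv_mul
    refine ContinuousLinearMap.ext fun y => ?_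
    change Φ (((U⁻¹ : (X →L[ℂ] X)ˣ) : X →L[ℂ] X) (Φ.symm (Φ ((U : X →L[ℂ] X) (Φ.symm y))))) = y
    rw [Φ.symm_apply_apply, h1, Φ.apply_symm_apply]

end EssInv

section EssEquiv

variable {M : Set ℂ} [CompactSpace M]
variable {X Y Z W : Type} [NormedAddCommGroup X] [NormedSpace ℂ X]
  [NormedAddCommGroup Y] [NormedSpace ℂ Y] [NormedAddCommGroup Z] [NormedSpace ℂ Z]
  [NormedAddCommGroup W] [NormedSpace ℂ W]

lemma EssEquiv.refl {ρ : Rep M X} {e : X →L[ℂ] X} (h : Corner ρ e) : EssEquiv ρ e ρ e :=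
  ⟨e, e, EqK.of_eq h.1, EqK.of_eq h.1, EqK.of_eq h.1, EqK.of_eq h.1, h.2⟩

lemma EssEquiv.trans {ρ : Rep M X} {e : X →L[ℂ] X} {σ : Rep M Y} {f : Y →L[ℂ] Y}
    {τ : Rep M Z} {g : Z →L[ℂ] Z} (h : EssEquiv ρ e σ f) (h' : EssEquiv σ f τ g) :
    EssEquiv ρ e τ g := by
  obtain ⟨A₁, B₁, h1, h2, h3, h4, h5⟩ := h
  obtain ⟨A₂, B₂, k1, k2, k3, k4, k5⟩ := h'
  refine ⟨A₂ ∘L A₁, B₁ ∘L B₂, ?_, ?_, ?_, ?_, fun a => ?_⟩
  · have a1 : EqK (B₁ ∘L (B₂ ∘L A₂) ∘L A₁) ((B₁ ∘L f) ∘L A₁) := (k1.comp_right A₁).comp_left B₁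
    exact a1.trans ((h4.comp_right A₁).trans h1)
  · have a1 : EqK (A₂ ∘L (A₁ ∘L B₁) ∘L B₂) ((A₂ ∘L f) ∘L B₂) := (h2.comp_right B₂).comp_left A₂
    exact a1.trans ((k3.comp_right B₂).trans k2)
  · exact h3.comp_left A₂
  · exact k4.comp_left B₁
  · have a1 : EqK (A₂ ∘L (A₁ ∘L ρ.hom a)) ((A₂ ∘L σ.hom a) ∘L A₁) := (h5 a).comp_left A₂
    exact a1.trans ((k5 a).comp_right A₁)

/-- derived facts -/
lemma EssEquiv.derived {ρ : Rep M X} {e : X →L[ℂ] X} {σ : Rep M Y} {f : Y →L[ℂ] Y}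
    {A : X →L[ℂ] Y} {B : Y →L[ℂ] X} (h1 : EqK (B ∘L A) e) (h2 : EqK (A ∘L B) f)
    (h3 : EqK (A ∘L e) A) (h4 : EqK (B ∘L f) B)
    (h5 : ∀ a, EqK (A ∘L ρ.hom a) (σ.hom a ∘L A))
    (he : ∀ a, EqK (e ∘L ρ.hom a) (ρ.hom a ∘L e))
    (hf : ∀ a, EqK (f ∘L σ.hom a) (σ.hom a ∘L f)) :
    EqK (e ∘L B) B ∧ EqK (f ∘L A) A ∧ ∀ a, EqK (B ∘L σ.hom a) (ρ.hom a ∘L B) := by
  have q1 : EqK (e ∘L B) B := by
    have a1 : EqK (e ∘L B) ((B ∘L A) ∘L B) := (h1.comp_right B).symm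
    have a2 : EqK (B ∘L (A ∘L B)) (B ∘L f) := h2.comp_left B
    exact a1.trans (a2.trans h4)
  have q2 : EqK (f ∘L A) A := by
    have a1 : EqK (f ∘L A) ((A ∘L B) ∘L A) := (h2.comp_right A).symm
    have a2 : EqK (A ∘L (B ∘L A)) (A ∘L e) := h1.comp_left A
    exact a1.trans (a2.trans h3)
  refine ⟨q1, q2, fun a => ?_⟩
  have a1 : EqK (B ∘L σ.hom a) ((B ∘L f) ∘L σ.hom a) := (h4.comp_right _).symm
  have a2 : EqK (B ∘L (f ∘L σ.hom a)) (B ∘L (σ.hom a ∘L f)) := (hf a).comp_left B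
  have a3 : EqK ((B ∘L σ.hom a) ∘L f) ((B ∘L σ.hom a) ∘L (A ∘L B)) := (h2.comp_left _).symm
  have a4 : EqK (B ∘L (σ.hom a ∘L A) ∘L B) (B ∘L (A ∘L ρ.hom a) ∘L B) :=
    (((h5 a).symm).comp_right B).comp_left B
  have a5 : EqK ((B ∘L A) ∘L ρ.hom a ∘L B) (e ∘L ρ.hom a ∘L B) := h1.comp_right _
  have a6 : EqK ((e ∘L ρ.hom a) ∘L B) ((ρ.hom a ∘L e) ∘L B) := (he a).comp_right B
  have a7 : EqK (ρ.hom a ∘L (e ∘L B)) (ρ.hom a ∘L B) := q1.comp_left _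
  exact a1.trans (a2.trans (a3.trans (a4.trans (a5.trans (a6.trans a7)))))

lemma EssEquiv.symm {ρ : Rep M X} {e : X →L[ℂ] X} {σ : Rep M Y} {f : Y →L[ℂ] Y}
    (h : EssEquiv ρ e σ f) (he : ∀ a, EqK (e ∘L ρ.hom a) (ρ.hom a ∘L e))
    (hf : ∀ a, EqK (f ∘L σ.hom a) (σ.hom a ∘L f)) : EssEquiv σ f ρ e := by
  obtain ⟨A, B, h1, h2, h3, h4, h5⟩ := h
  obtain ⟨-, -, q3⟩ := EssEquiv.derived h1 h2 h3 h4 h5 he hf
  exact ⟨B, A, h2, h1, h4, h3, q3⟩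

lemma EssEquiv.prod {X' Y' : Type} [NormedAddCommGroup X'] [NormedSpace ℂ X']
    [NormedAddCommGroup Y'] [NormedSpace ℂ Y']
    {ρ : Rep M X} {e : X →L[ℂ] X} {σ : Rep M Y} {f : Y →L[ℂ] Y}
    {ρ' : Rep M X'} {e' : X' →L[ℂ] X'} {σ' : Rep M Y'} {f' : Y' →L[ℂ] Y'}
    (h : EssEquiv ρ e σ f) (h' : EssEquiv ρ' e' σ' f') :
    EssEquiv (ρ.prod ρ') (e.prodMap e') (σ.prod σ') (f.prodMap f') := by
  obtain ⟨A, B, h1, h2, h3, h4, h5⟩ := h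
  obtain ⟨A', B', k1, k2, k3, k4, k5⟩ := h'
  refine ⟨A.prodMap A', B.prodMap B', ?_, ?_, ?_, ?_, fun a => ?_⟩
  · rw [prodMap_comp_prodMap]; exact h1.prodMap k1
  · rw [prodMap_comp_prodMap]; exact h2.prodMap k2
  · rw [prodMap_comp_prodMap]; exact h3.prodMap k3
  · rw [prodMap_comp_prodMap]; exact h4.prodMap k4
  · rw [Rep.prod_apply, Rep.prod_apply, prodMap_comp_prodMap, prodMap_comp_prodMap]
    exact (h5 a).prodMap (k5 a)

/-- exact isomorphisms give equivalences -/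
lemma EssEquiv.of_iso {ρ : Rep M X} {e : X →L[ℂ] X} {σ : Rep M Y} {f : Y →L[ℂ] Y}
    (Φ : X ≃L[ℂ] Y) (h : Corner ρ e) (hΦ : ∀ a x, Φ (ρ.hom a x) = σ.hom a (Φ x))
    (hf : ∀ x, f (Φ x) = Φ (e x)) : EssEquiv ρ e σ f := by
  have hee : ∀ x, e (e x) = e x := fun x => congrArg (fun T : X →L[ℂ] X => T x) h.1
  refine ⟨(Φ : X →L[ℂ] Y) ∘L e, e ∘L (Φ.symm : Y →L[ℂ] X), EqK.of_eq ?_, EqK.of_eq ?_,
    EqK.of_eq ?_, EqK.of_eq ?_, fun a => ?_⟩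
  · refine ContinuousLinearMap.ext fun x => ?_
    change e (Φ.symm (Φ (e x))) = e x
    rw [Φ.symm_apply_apply, hee]
  · refine ContinuousLinearMap.ext fun y => ?_
    change Φ (e (e (Φ.symm y))) = f y
    rw [hee, ← hf, Φ.apply_symm_apply]
  · refine ContinuousLinearMap.ext fun x => ?_
    change Φ (e (e x)) = Φ (e x)
    rw [hee]
  · refine ContinuousLinearMap.ext fun y => ?_
    change e (Φ.symm (f y)) = e (Φ.symm y)
    obtain ⟨x, rfl⟩ := Φ.surjective y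
    rw [hf, Φ.symm_apply_apply, Φ.symm_apply_apply, hee]
  · have a1 : EqK (((Φ : X →L[ℂ] Y) ∘L e) ∘L ρ.hom a) ((Φ : X →L[ℂ] Y) ∘L (ρ.hom a ∘L e)) :=
      (h.2 a).comp_left (Φ : X →L[ℂ] Y)
    refine a1.trans (EqK.of_eq ?_)
    refine ContinuousLinearMap.ext fun x => ?_
    exact hΦ a (e x)

/-- transport of a representation by an isomorphism -/
def Rep.conj (ρ : Rep M X) (Φ : X ≃L[ℂ] Y) : Rep M Y where
  hom :=
    { toFun := fun a => (Φ : X →L[ℂ] Y) ∘L ρ.hom a ∘L (Φ.symm : Y →L[ℂ] X)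
      map_add' := fun a b => by
        refine ContinuousLinearMap.ext fun y => ?_
        change Φ (ρ.hom (a + b) (Φ.symm y)) = Φ (ρ.hom a (Φ.symm y)) + Φ (ρ.hom b (Φ.symm y))
        rw [map_add ρ.hom, add_apply, map_add]
      map_mul' := fun a b => by
        refine ContinuousLinearMap.ext fun y => ?_
        change Φ (ρ.hom (a * b) (Φ.symm y)) = Φ (ρ.hom a (Φ.symm (Φ (ρ.hom b (Φ.symm y)))))
        rw [map_mul ρ.hom, Φ.symm_apply_apply]; rfl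
      map_one' := by
        refine ContinuousLinearMap.ext fun y => ?_
        change Φ (ρ.hom 1 (Φ.symm y)) = y
        rw [map_one]
        exact Φ.apply_symm_apply y
      map_zero' := by
        refine ContinuousLinearMap.ext fun y => ?_
        change Φ (ρ.hom 0 (Φ.symm y)) = 0
        rw [map_zero]
        exact map_zero Φ
      commutes' := fun c => by
        refine ContinuousLinearMap.ext fun y => ?_
        change Φ (ρ.hom (algebraMap ℂ C(M, ℂ) c) (Φ.symm y)) = c • y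
        rw [AlgHom.commutes]
        change Φ (c • (Φ.symm y)) = c • y
        rw [map_smul, Φ.apply_symm_apply] }
  bdd := by
    obtain ⟨C, hC⟩ := ρ.bdd
    refine ⟨‖(Φ : X →L[ℂ] Y)‖ * C * ‖(Φ.symm : Y →L[ℂ] X)‖, fun a => ?_⟩
    change ‖(Φ : X →L[ℂ] Y) ∘L (ρ.hom a ∘L (Φ.symm : Y →L[ℂ] X))‖ ≤ _
    calc ‖(Φ : X →L[ℂ] Y) ∘L (ρ.hom a ∘L (Φ.symm : Y →L[ℂ] X))‖
        ≤ ‖(Φ : X →L[ℂ] Y)‖ * (‖ρ.hom a‖ * ‖(Φ.symm : Y →L[ℂ] X)‖) :=
          (ContinuousLinearMap.opNorm_comp_le _ _).trans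
            (mul_le_mul_of_nonneg_left (ContinuousLinearMap.opNorm_comp_le _ _) (norm_nonneg _))
      _ ≤ ‖(Φ : X →L[ℂ] Y)‖ * ((C * ‖a‖) * ‖(Φ.symm : Y →L[ℂ] X)‖) := by
          gcongr
          exact hC a
      _ = ‖(Φ : X →L[ℂ] Y)‖ * C * ‖(Φ.symm : Y →L[ℂ] X)‖ * ‖a‖ := by ring

lemma Rep.conj_apply (ρ : Rep M X) (Φ : X ≃L[ℂ] Y) (a : C(M, ℂ)) (x : X) :
    (ρ.conj Φ).hom a (Φ x) = Φ (ρ.hom a x) := by
  change Φ (ρ.hom a (Φ.symm (Φ x))) = _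
  rw [Φ.symm_apply_apply]

lemma corner_id (ρ : Rep M X) : Corner ρ (ContinuousLinearMap.id ℂ X) :=
  ⟨rfl, fun _ => EqK.of_eq rfl⟩

lemma Corner.prod {ρ : Rep M X} {e : X →L[ℂ] X} {σ : Rep M Y} {f : Y →L[ℂ] Y}
    (h : Corner ρ e) (h' : Corner σ f) : Corner (ρ.prod σ) (e.prodMap f) := by
  refine ⟨?_, fun a => ?_⟩
  · rw [prodMap_comp_prodMap, h.1, h'.1]
  · rw [Rep.prod_apply, prodMap_comp_prodMap, prodMap_comp_prodMap]
    exact (h.2 a).prodMap (h'.2 a)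

lemma EssEquiv.conj_id (ρ : Rep M X) (Φ : X ≃L[ℂ] Y) :
    EssEquiv ρ (ContinuousLinearMap.id ℂ X) (ρ.conj Φ) (ContinuousLinearMap.id ℂ Y) :=
  EssEquiv.of_iso Φ (corner_id ρ) (fun a x => (ρ.conj_apply Φ a x).symm) (fun _ => rfl)

end EssEquiv

end Pool.Agent.H33.BDFP
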