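import Mathlib
import Pool.Agent.H33.BDFP.Stmts
import Pool.Agent.H33.BDFP.Ess

attribute [local instance] Pool.Agent.H33.BDFP.NV.instNACG Pool.Agent.H33.BDFP.NV.instModule
  Pool.Agent.H33.BDFP.NV.instNormedSpace Pool.Agent.H33.BDFP.NV.instFD
  Pool.Agent.H33.BDFP.NV.instComplete

/-!
Module ASM: assembly of the swindle part.
-/

open scoped ENNReal NNReal

noncomputable section

namespace Pool.Agent.H33.BDFP

theorem asm (hcut : ACutStmt) (hreg : ARegStmt) (hsw : ASwStmt) (hhil : AHilStmt)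
    (hpc : APcStmt) (hpel : PelStmt) : AsmStmt := by
  intro p _ hp2 hp M _ r r' v v' e e₂ s D A B hce hce₂ hD hD1 hcomm hAB hBA hint
  obtain ⟨N, hN, hN0, c1, c2, cA, cB, h3, h4, h5⟩ :=
    hcut p hp2 hp M r r' v v' e e₂ A B hce hce₂ hint
  have hs := hD.1
  obtain ⟨Φ, -, hΦ2, hΦ3⟩ := hreg p hp2 hp M r N s hs v D hD hD1 hN hN0
  obtain ⟨ei, hei, hsw'⟩ := hsw p hp2 hp M r N s hs v D e e₂ hD hD1 hN hN0 hcomm hce.1 c1 c2 h3 h4
  have E0 : EssEquiv (diagRep v p) e (repL p hp r N s hs v (some 0))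
      ((Φ.symm : ZP r p →L[ℂ] ZL p r N s hs (some 0)) ∘L e ∘L
          (Φ : ZL p r N s hs (some 0) →L[ℂ] ZP r p)) := by
    refine EssEquiv.of_iso Φ.symm hce (fun a x => ?_) (fun x => ?_)
    · obtain ⟨y, rfl⟩ := Φ.surjective x
      rw [← hΦ2, Φ.symm_apply_apply, Φ.symm_apply_apply]
    · change Φ.symm (e (Φ (Φ.symm x))) = Φ.symm (e x)
      rw [Φ.apply_symm_apply]
  have E1 := E0.prod (EssEquiv.refl (corner_id (repPlus p hp r N s hs v)))
  have E2 := hsw' _ (hΦ3 e)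
  have E3 := (hhil p hp2 hp M r r' N s hs v v' D e e₂ A B hD hN hN0 hcomm hAB hBA cA cB h5 ei
    hei).prod (EssEquiv.refl (corner_id (repPlus p hp r N s hs v)))
  have E4 := (E1.trans E2).trans E3
  rw [id_prodMap_id] at E4
  refine ⟨ZPlus p r N s hs, ZL p r' N (fun _ => 1) (fun _ => one_pos) none × ZPlus p r N s hs,
    inferInstance, inferInstance, inferInstance, inferInstance, _, _, (hpc p hp2 hp r N s hs).1,
    ?_, E4⟩
  exact (hpel p hp).2.2.2 _ _ (hpc p hp2 hp r' N (fun _ => 1) (fun _ => one_pos)).2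
    (hpc p hp2 hp r N s hs).1

end Pool.Agent.H33.BDFP
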