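import Mathlib
import Pool.Agent.H33.BDFP.Defs
import Pool.Agent.H33.BDFP.ResDefs

/-!
The definitions used in the statement of the result.
-/

open scoped ENNReal

noncomputable section

namespace Pool.Agent.H33.BDFP.Cal

/-- the bounded operators on `X` -/
abbrev Op (X : Type) [NormedAddCommGroup X] [NormedSpace ℂ X] : Type := X →L[ℂ] X

/-- the Calkin algebra `B(X)/K(X)` -/
def Ck (X : Type) [NormedAddCommGroup X] [NormedSpace ℂ X] : Type := Calkin X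

/-- the ring structure of the Calkin algebra -/
instance instRing (X : Type) [NormedAddCommGroup X] [NormedSpace ℂ X] : Ring (Ck X) :=
  Ideal.Quotient.ring (compactIdeal X)

/-- the algebra structure of the Calkin algebra -/
instance instAlgebra (X : Type) [NormedAddCommGroup X] [NormedSpace ℂ X] : Algebra ℂ (Ck X) :=
  Ideal.Quotient.algebra ℂ (I := compactIdeal X)

/-- the quotient norm -/
instance instNorm (X : Type) [NormedAddCommGroup X] [NormedSpace ℂ X] : Norm (Ck X) :=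
  (Submodule.Quotient.seminormedAddCommGroup (compactIdeal X)).toNorm

/-- the quotient map `π : B(X) → B(X)/K(X)` -/
def pr {X : Type} [NormedAddCommGroup X] [NormedSpace ℂ X] (T : X →L[ℂ] X) : Ck X :=
  calkinMk X T

/-- unital homomorphisms `C(M) → B(X)/K(X)` -/
def Ext (M : Set ℂ) [CompactSpace M] (X : Type) [NormedAddCommGroup X] [NormedSpace ℂ X] : Type :=
  C(M, ℂ) →ₐ[ℂ] Ck X

/-- the value of an extension at `a` -/
def Ext.ap {M : Set ℂ} [CompactSpace M] {X : Type} [NormedAddCommGroup X] [NormedSpace ℂ X]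
    (φ : Ext M X) (a : C(M, ℂ)) : Ck X := (show C(M, ℂ) →ₐ[ℂ] Ck X from φ) a

section

variable {M : Set ℂ} [CompactSpace M] {X : Type} [NormedAddCommGroup X] [NormedSpace ℂ X]

/-- isomorphic extension -/
def IsIso (φ : Ext M X) : Prop :=
  ∃ C : ℝ, 1 ≤ C ∧ ∀ a, C⁻¹ * ‖a‖ ≤ ‖φ.ap a‖ ∧ ‖φ.ap a‖ ≤ C * ‖a‖

/-- trivial isomorphic extension: `φ = π ∘ ρ` with `ρ : C(M) → B(X)` a unital isomorphism (into) -/
def IsTrivial (φ : Ext M X) : Prop :=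
  IsIso φ ∧ ∃ ρ : C(M, ℂ) →ₐ[ℂ] (X →L[ℂ] X),
    (∃ C : ℝ, 1 ≤ C ∧ ∀ a, C⁻¹ * ‖a‖ ≤ ‖ρ a‖ ∧ ‖ρ a‖ ≤ C * ‖a‖) ∧ ∀ a, φ.ap a = pr (ρ a)

/-- equivalence: `φ₂(a) = π(S) φ₁(a) π(S)⁻¹` for some invertible `S` -/
def Equ (φ₁ φ₂ : Ext M X) : Prop :=
  ∃ S : X ≃L[ℂ] X, ∀ a, φ₂.ap a = pr (S : X →L[ℂ] X) * φ₁.ap a * pr (S.symm : X →L[ℂ] X)

/-- `ψ` is the sum of `φ₁` and `φ₂` formed with the isomorphism `S : X ⊕ X → X`:
`ψ(a) = π(S (T₁ ⊕ T₂) S⁻¹)` whenever `π(T₁) = φ₁(a)` and `π(T₂) = φ₂(a)` -/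
def IsSum (S : (X × X) ≃L[ℂ] X) (φ₁ φ₂ ψ : Ext M X) : Prop :=
  ∀ (a : C(M, ℂ)) (T₁ T₂ : X →L[ℂ] X), pr T₁ = φ₁.ap a → pr T₂ = φ₂.ap a →
    ψ.ap a = pr (conjSum S T₁ T₂)

/-- `[φ₁] + [φ₂] = [φ₃]` -/
def SumEq (φ₁ φ₂ φ₃ : Ext M X) : Prop :=
  ∃ (S : (X × X) ≃L[ℂ] X) (ψ : Ext M X), IsSum S φ₁ φ₂ ψ ∧ Equ ψ φ₃

/-- the defining properties of the absorbing extension `θ_M`: it is trivial,
`[θ] + [θ] = [θ]`, and every isomorphic extension `φ` has an isomorphic extension `φ'` with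
`[φ] + [φ'] = [θ]` -/
def IsTh (θ : Ext M X) : Prop :=
  IsTrivial θ ∧ SumEq θ θ θ ∧ ∀ φ : Ext M X, IsIso φ → ∃ φ' : Ext M X, IsIso φ' ∧ SumEq φ φ' θ

/-- the Fredholm indices of `φ₁(z) - μ` and `φ₂(z) - μ` agree for all `μ` outside `M`
(`T` is a lift of `φ(z) - μ` iff `T + μ` is a lift of `φ(z)`) -/
def SameIndex (φ₁ φ₂ : Ext M X) : Prop :=
  ∀ μ : ℂ, μ ∉ M → ∀ T₁ T₂ : X →L[ℂ] X,
    pr (T₁ + μ • ContinuousLinearMap.id ℂ X) = φ₁.ap (zfun M) →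
    pr (T₂ + μ • ContinuousLinearMap.id ℂ X) = φ₂.ap (zfun M) → findex T₁ = findex T₂

end

/-- The assertion of Q1 for the set `M` and the space `X`: for all isomorphic extensions
`φ₁`, `φ₂` and every `θ` with the properties of `θ_M`, the indices agree if and only if
`[φ₁] + [θ] = [φ₂] + [θ]`, that is, if and only if `ψ` and `ψ'` are equivalent whenever `ψ` is a
sum of `φ₁` and `θ` and `ψ'` is a sum of `φ₂` and `θ`; sums exist, for every choice of the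
isomorphism `S : X ⊕ X → X`, and it is the same to ask this for one choice of the sums. -/
def Q1For (M : Set ℂ) [CompactSpace M] (X : Type) [NormedAddCommGroup X] [NormedSpace ℂ X] :
    Prop :=
  ∀ θ φ₁ φ₂ : Ext M X, IsTh θ → IsIso φ₁ → IsIso φ₂ →
    (SameIndex φ₁ φ₂ ↔ ∀ (S S' : (X × X) ≃L[ℂ] X) (ψ ψ' : Ext M X), IsSum S φ₁ θ ψ →
      IsSum S' φ₂ θ ψ' → Equ ψ ψ') ∧
    (SameIndex φ₁ φ₂ ↔ ∃ (S S' : (X × X) ≃L[ℂ] X) (ψ ψ' : Ext M X), IsSum S φ₁ θ ψ ∧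
      IsSum S' φ₂ θ ψ' ∧ Equ ψ ψ')

end Pool.Agent.H33.BDFP.Cal
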