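import Mathlib
import Pool.Agent.H33.BDFP.Stmts
import Pool.Agent.H33.BDFP.Ess

attribute [local instance] Pool.Agent.H33.BDFP.NV.instNACG Pool.Agent.H33.BDFP.NV.instModule
  Pool.Agent.H33.BDFP.NV.instNormedSpace Pool.Agent.H33.BDFP.NV.instFD
  Pool.Agent.H33.BDFP.NV.instComplete

/-!
Module MC, part 1: from the corner on `l^p` to a corner of a diagonal representation.
-/

open scoped ENNReal NNReal

noncomputable section

namespace Pool.Agent.H33.BDFP

section General

/-- operators on `l^p` agreeing on the coordinate vectors are equal -/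
lemma lp_ext_single {ι : Type} [DecidableEq ι] {E : ι → Type} [∀ i, NormedAddCommGroup (E i)]
    [∀ i, NormedSpace ℂ (E i)] {p : ℝ≥0∞} [Fact (1 ≤ p)] (hp : p ≠ ∞) {Y : Type}
    [NormedAddCommGroup Y] [NormedSpace ℂ Y] {T T' : lp E p →L[ℂ] Y}
    (h : ∀ i x, T (lp.single p i x) = T' (lp.single p i x)) : T = T' := by
  refine ContinuousLinearMap.ext fun x => ?_
  have h1 := (lp.hasSum_single hp x).mapL T
  have h2 := (lp.hasSum_single hp x).mapL T'
  have h3 : (fun i => T (lp.single p i (x i))) = fun i => T' (lp.single p i (x i)) :=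
    funext fun i => h i (x i)
  rw [h3] at h1
  exact h1.unique h2

variable {M : Set ℂ} [CompactSpace M]

/-- `C(M)` acts by the value at a point -/
def scalRep (z : M) (X : Type) [NormedAddCommGroup X] [NormedSpace ℂ X] : Rep M X where
  hom :=
    { toFun := fun a => a z • ContinuousLinearMap.id ℂ X
      map_add' := fun a b => by
        refine ContinuousLinearMap.ext fun x => ?_
        change (a z + b z) • x = a z • x + b z • x
        rw [add_smul]
      map_mul' := fun a b => by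
        refine ContinuousLinearMap.ext fun x => ?_
        change (a z * b z) • x = a z • (b z • x)
        rw [mul_smul]
      map_one' := by
        refine ContinuousLinearMap.ext fun x => ?_
        change (1 : ℂ) • x = x
        rw [one_smul]
      map_zero' := by
        refine ContinuousLinearMap.ext fun x => ?_
        change (0 : ℂ) • x = 0
        rw [zero_smul]
      commutes' := fun c => by
        refine ContinuousLinearMap.ext fun x => ?_
        rfl }
  bdd := ⟨1, fun a => by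
    rw [one_mul]
    change ‖a z • ContinuousLinearMap.id ℂ X‖ ≤ ‖a‖
    rw [norm_smul]
    calc ‖a z‖ * ‖ContinuousLinearMap.id ℂ X‖ ≤ ‖a‖ * 1 :=
          mul_le_mul (a.norm_coe_le_norm z) ContinuousLinearMap.norm_id_le (norm_nonneg _)
            (norm_nonneg _)
      _ = ‖a‖ := mul_one _⟩

lemma scalRep_apply (z : M) {X : Type} [NormedAddCommGroup X] [NormedSpace ℂ X] (a : C(M, ℂ))
    (x : X) : (scalRep z X).hom a x = a z • x := rfl

lemma scalRep_contr (z : M) (X : Type) [NormedAddCommGroup X] [NormedSpace ℂ X] :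
    (scalRep z X).Contr := fun a => by
  change ‖a z • ContinuousLinearMap.id ℂ X‖ ≤ ‖a‖
  rw [norm_smul]
  calc ‖a z‖ * ‖ContinuousLinearMap.id ℂ X‖ ≤ ‖a‖ * 1 :=
        mul_le_mul (a.norm_coe_le_norm z) ContinuousLinearMap.norm_id_le (norm_nonneg _)
          (norm_nonneg _)
    _ = ‖a‖ := mul_one _

/-- the diagonal representation on `l^p` -/
def seqRep (u : ℕ → M) (p : ℝ≥0∞) [Fact (1 ≤ p)] : Rep M (LP p) :=
  Rep.lpSum p (fun n => scalRep (u n) ℂ) (fun n => scalRep_contr (u n) ℂ)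

lemma seqRep_apply (u : ℕ → M) (p : ℝ≥0∞) [Fact (1 ≤ p)] (a : C(M, ℂ)) (x : LP p) (n : ℕ) :
    (seqRep u p).hom a x n = a (u n) * x n := rfl

/-- `a` and `b` inverse to each other: corners of `ρ(a)` and `ρ(b)` are inverse modulo compact
operators -/
lemma corner_inv {X : Type} [NormedAddCommGroup X] [NormedSpace ℂ X] {ρ : Rep M X}
    {e : X →L[ℂ] X} (h : Corner ρ e) (a b : C(M, ℂ)) (hab : a * b = 1) :
    EqK ((e ∘L ρ.hom a ∘L e + (ContinuousLinearMap.id ℂ X - e)) ∘L
      (e ∘L ρ.hom b ∘L e + (ContinuousLinearMap.id ℂ X - e))) (ContinuousLinearMap.id ℂ X) := by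
  have hee : ∀ x, e (e x) = e x := fun x => congrArg (fun T : X →L[ℂ] X => T x) h.1
  have e1 : (e ∘L ρ.hom a ∘L e + (ContinuousLinearMap.id ℂ X - e)) ∘L
      (e ∘L ρ.hom b ∘L e + (ContinuousLinearMap.id ℂ X - e)) =
      (e ∘L ρ.hom a) ∘L (e ∘L ρ.hom b) ∘L e + (ContinuousLinearMap.id ℂ X - e) := by
    refine ContinuousLinearMap.ext fun x => ?_
    change e (ρ.hom a (e (e (ρ.hom b (e x)) + (x - e x)))) +
      ((e (ρ.hom b (e x)) + (x - e x)) - e (e (ρ.hom b (e x)) + (x - e x))) =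
      e (ρ.hom a (e (ρ.hom b (e x)))) + (x - e x)
    have h1 : e (e (ρ.hom b (e x)) + (x - e x)) = e (ρ.hom b (e x)) := by
      rw [map_add, map_sub, hee, hee, sub_self, add_zero]
    rw [h1]
    abel
  have e2 : EqK ((e ∘L ρ.hom a) ∘L (e ∘L ρ.hom b) ∘L e) e := by
    have a1 : EqK ((e ∘L ρ.hom a) ∘L (e ∘L ρ.hom b) ∘L e)
        ((e ∘L ρ.hom a) ∘L (ρ.hom b ∘L e) ∘L e) := ((h.2 b).comp_right e).comp_left _
    refine a1.trans ?_
    have a2 : (e ∘L ρ.hom a) ∘L (ρ.hom b ∘L e) ∘L e = e := by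
      refine ContinuousLinearMap.ext fun x => ?_
      change e (ρ.hom a (ρ.hom b (e (e x)))) = e x
      have h2 : ρ.hom a (ρ.hom b (e (e x))) = e (e x) := by
        have h3 : ρ.hom a * ρ.hom b = 1 := by rw [← map_mul, hab, map_one]
        exact congrArg (fun T : X →L[ℂ] X => T (e (e x))) h3
      rw [h2, hee, hee]
    exact EqK.of_eq a2
  rw [e1]
  refine (e2.add (EqK.refl _)).trans (EqK.of_eq ?_)
  abel

omit [CompactSpace M] in
/-- the resolvent function -/
lemma exists_resolvent {μ : ℂ} (hμ : μ ∉ M) :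
    ∃ b : C(M, ℂ), (zfun M - μ • (1 : C(M, ℂ))) * b = 1 ∧
      b * (zfun M - μ • (1 : C(M, ℂ))) = 1 := by
  have h0 : ∀ z : M, (z : ℂ) - μ ≠ 0 := fun z hz => hμ (by
    rw [sub_eq_zero] at hz
    rw [← hz]
    exact z.2)
  refine ⟨⟨fun z => ((z : ℂ) - μ)⁻¹, ?_⟩, ?_, ?_⟩
  · exact (continuous_subtype_val.sub continuous_const).inv₀ h0
  · ext z
    change ((z : ℂ) - μ • (1 : ℂ)) * ((z : ℂ) - μ)⁻¹ = 1
    rw [smul_eq_mul, mul_one]
    exact mul_inv_cancel₀ (h0 z)
  · ext z
    change ((z : ℂ) - μ)⁻¹ * ((z : ℂ) - μ • (1 : ℂ)) = 1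
    rw [smul_eq_mul, mul_one]
    exact inv_mul_cancel₀ (h0 z)

lemma cornerOp_eq {X : Type} [NormedAddCommGroup X] [NormedSpace ℂ X] (ρ : Rep M X)
    (e : X →L[ℂ] X) (μ : ℂ) :
    cornerOp ρ e μ = e ∘L ρ.hom (zfun M - μ • (1 : C(M, ℂ))) ∘L e +
      (ContinuousLinearMap.id ℂ X - e) := by
  have h : ρ.hom (zfun M - μ • (1 : C(M, ℂ))) =
      ρ.hom (zfun M) - μ • ContinuousLinearMap.id ℂ X := by
    rw [map_sub, map_smul, map_one]
    rfl
  rw [h]
  rfl

/-- a sequence of points of `M`, coming near every point infinitely often -/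
lemma exists_seq (hM : M.Nonempty) :
    ∃ u : ℕ → M, ∀ z : M, ∀ ε : ℝ, 0 < ε → ∀ N : ℕ, ∃ n, N ≤ n ∧ dist (u n) z < ε := by
  have : Nonempty M := hM.to_subtype
  refine ⟨fun n => TopologicalSpace.denseSeq M (Nat.unpair n).1, fun z ε hε N => ?_⟩
  obtain ⟨m, hm⟩ := (TopologicalSpace.denseRange_denseSeq M).exists_dist_lt z hε
  refine ⟨Nat.pair m N, Nat.right_le_pair m N, ?_⟩
  change dist (TopologicalSpace.denseSeq M (Nat.unpair (Nat.pair m N)).1) z < ε
  rw [Nat.unpair_pair, dist_comm]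
  exact hm

end General

section Part1

variable {M : Set ℂ} [CompactSpace M] {p : ℝ≥0∞} [Fact (1 ≤ p)]
variable {r : ℕ → ℕ} {v : ∀ n, Fin (r n) → M} {i₀ : ∀ n, Fin (r n)} {u : ℕ → M}

/-- embedding of the distinguished coordinates -/
def qIn (i₀ : ∀ n, Fin (r n)) (p : ℝ≥0∞) [Fact (1 ≤ p)] : LP p →L[ℂ] ZP r p :=
  lp.mapCLM p (fun n => LinearMap.mkContinuous
    ({ toFun := fun c => EuclideanSpace.single (i₀ n) c
       map_add' := fun c d => by ext i; simp [PiLp.single_apply]; split_ifs <;> simp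
       map_smul' := fun c d => by ext i; simp [PiLp.single_apply] } :
      ℂ →ₗ[ℂ] EuclideanSpace ℂ (Fin (r n))) 1 (fun c => by simp)) (K := 1) zero_le_one
    (fun n => LinearMap.mkContinuous_norm_le _ zero_le_one _)

/-- restriction to the distinguished coordinates -/
def qOut (i₀ : ∀ n, Fin (r n)) (p : ℝ≥0∞) [Fact (1 ≤ p)] : ZP r p →L[ℂ] LP p :=
  lp.mapCLM p (fun n => LinearMap.mkContinuous
    ({ toFun := fun x => x (i₀ n)
       map_add' := fun c d => rfl
       map_smul' := fun c d => rfl } :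
      EuclideanSpace ℂ (Fin (r n)) →ₗ[ℂ] ℂ) 1 (fun x => by
        rw [one_mul]
        exact PiLp.norm_apply_le x (i₀ n))) (K := 1) zero_le_one
    (fun n => LinearMap.mkContinuous_norm_le _ zero_le_one _)

lemma qIn_apply (x : LP p) (n : ℕ) : qIn i₀ p x n = EuclideanSpace.single (i₀ n) (x n) := rfl

lemma qOut_apply (x : ZP r p) (n : ℕ) : qOut i₀ p x n = x n (i₀ n) := rfl

lemma qOut_qIn (x : LP p) : qOut i₀ p (qIn i₀ p x) = x := by
  refine lp.ext (funext fun n => ?_)
  rw [qOut_apply, qIn_apply]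
  simp

lemma qIn_tau (hv : ∀ n, v n (i₀ n) = u n) (a : C(M, ℂ)) (x : LP p) :
    qIn i₀ p ((seqRep u p).hom a x) = (diagRep v p).hom a (qIn i₀ p x) := by
  refine lp.ext (funext fun n => ?_)
  ext i
  rw [qIn_apply, seqRep_apply, diagRep_apply, qIn_apply]
  by_cases h : i = i₀ n
  · subst h
    simp [hv]
  · simp [h]

lemma qOut_tau (hv : ∀ n, v n (i₀ n) = u n) (a : C(M, ℂ)) (x : ZP r p) :
    qOut i₀ p ((diagRep v p).hom a x) = (seqRep u p).hom a (qOut i₀ p x) := by
  refine lp.ext (funext fun n => ?_)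
  rw [qOut_apply, seqRep_apply, diagRep_apply, qOut_apply, hv]

lemma R_qIn (hp : p ≠ ∞) {R : ZP r p →L[ℂ] LP p}
    (hR : ∀ n (c : ℂ), R (lp.single p n (EuclideanSpace.single (i₀ n) c)) = 0) (x : LP p) :
    R (qIn i₀ p x) = 0 := by
  have h : R ∘L qIn i₀ p = 0 := by
    refine lp_ext_single hp fun n c => ?_
    change R (qIn i₀ p (lp.single p n c)) = 0
    have h1 : qIn i₀ p (lp.single p n c) = lp.single p n (EuclideanSpace.single (i₀ n) c) := by
      refine lp.ext (funext fun m => ?_)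
      rw [qIn_apply]
      by_cases hm : m = n
      · subst hm
        rw [lp.single_apply_self, lp.single_apply_self]
      · rw [lp.single_apply_ne _ _ _ hm, lp.single_apply_ne _ _ _ hm]
        simp
    rw [h1, hR]
  exact congrArg (fun T : LP p →L[ℂ] LP p => T x) h

/-- Part 1 of the core theorem. -/
lemma mc_part1 (hp : p ≠ ∞) (ρ : Rep M (LP p)) (e : LP p →L[ℂ] LP p) (he : Corner ρ e)
    (hind : ∀ μ : ℂ, μ ∉ M → IndexZero (cornerOp ρ e μ))
    (J : LP p →L[ℂ] ZP r p) (R : ZP r p →L[ℂ] LP p) (hv : ∀ n, v n (i₀ n) = u n)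
    (hJ : ∀ x n, J x n (i₀ n) = 0)
    (hR : ∀ n (c : ℂ), R (lp.single p n (EuclideanSpace.single (i₀ n) c)) = 0)
    (hRJ : R ∘L J = ContinuousLinearMap.id ℂ (LP p))
    (hJρ : ∀ a, EqK (J ∘L ρ.hom a) ((diagRep v p).hom a ∘L J))
    (hRρ : ∀ a, EqK (R ∘L (diagRep v p).hom a) (ρ.hom a ∘L R)) :
    ∃ e' : ZP r p →L[ℂ] ZP r p, Corner (diagRep v p) e' ∧
      (∀ n (c : ℂ), e' (lp.single p n (EuclideanSpace.single (i₀ n) c)) =
        lp.single p n (EuclideanSpace.single (i₀ n) c)) ∧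
      (∀ μ : ℂ, μ ∉ M → IndexZero (cornerOp (diagRep v p) e' μ)) ∧
      EssEquiv (ρ.prod (seqRep u p)) (e.prodMap (ContinuousLinearMap.id ℂ (LP p)))
        (diagRep v p) e' := by
  have hee : ∀ x, e (e x) = e x := fun x => congrArg (fun T : LP p →L[ℂ] LP p => T x) he.1
  have hrj : ∀ x, R (J x) = x := fun x => congrArg (fun T : LP p →L[ℂ] LP p => T x) hRJ
  have hrq : ∀ x, R (qIn i₀ p x) = 0 := R_qIn hp hR
  have hqj : ∀ x, qOut i₀ p (J x) = 0 := fun x => lp.ext (funext fun n => hJ x n)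
  have hqq : ∀ x, qOut i₀ p (qIn i₀ p x) = x := qOut_qIn
  have htin : ∀ a x, qIn i₀ p ((seqRep u p).hom a x) = (diagRep v p).hom a (qIn i₀ p x) :=
    qIn_tau hv
  have htout : ∀ a x, qOut i₀ p ((diagRep v p).hom a x) = (seqRep u p).hom a (qOut i₀ p x) :=
    qOut_tau hv
  set q : LP p →L[ℂ] ZP r p := qIn i₀ p with hq
  set o : ZP r p →L[ℂ] LP p := qOut i₀ p with ho
  set τ := diagRep v p with hτ
  have hcom : ∀ a, EqK ((J ∘L e ∘L R + q ∘L o) ∘L τ.hom a) (τ.hom a ∘L (J ∘L e ∘L R + q ∘L o)) := by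
    intro a
    have b1 : EqK (J ∘L e ∘L (R ∘L τ.hom a)) (J ∘L (e ∘L ρ.hom a) ∘L R) :=
      ((hRρ a).comp_left e).comp_left J
    have b2 : EqK (J ∘L (e ∘L ρ.hom a) ∘L R) (J ∘L (ρ.hom a ∘L e) ∘L R) :=
      ((he.2 a).comp_right R).comp_left J
    have b3 : EqK ((J ∘L ρ.hom a) ∘L e ∘L R) ((τ.hom a ∘L J) ∘L e ∘L R) := (hJρ a).comp_right _
    have b4 : EqK (J ∘L e ∘L (R ∘L τ.hom a) + q ∘L o ∘L τ.hom a)
        ((τ.hom a ∘L J) ∘L e ∘L R + q ∘L o ∘L τ.hom a) :=
      (b1.trans (b2.trans b3)).add (EqK.refl _)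
    have b5 : (τ.hom a ∘L J) ∘L e ∘L R + q ∘L o ∘L τ.hom a =
        τ.hom a ∘L (J ∘L e ∘L R + q ∘L o) := by
      refine ContinuousLinearMap.ext fun x => ?_
      change τ.hom a (J (e (R x))) + q (o (τ.hom a x)) = τ.hom a (J (e (R x)) + q (o x))
      rw [map_add, htout, htin]
    rw [b5] at b4
    exact b4
  have hid : ∀ x, J (e (R (J (e (R x)) + q (o x)))) + q (o (J (e (R x)) + q (o x))) =
      J (e (R x)) + q (o x) := by
    intro x
    rw [map_add R, hrj, hrq, add_zero, hee, map_add o, hqj, hqq, zero_add]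
  refine ⟨J ∘L e ∘L R + q ∘L o, ⟨ContinuousLinearMap.ext hid, hcom⟩, fun n c => ?_,
    fun μ hμ => ?_, ?_⟩
  · change J (e (R _)) + q (o _) = _
    rw [hR, map_zero, map_zero, zero_add]
    have h1 : o (lp.single p n (EuclideanSpace.single (i₀ n) c)) = lp.single p n c := by
      refine lp.ext (funext fun m => ?_)
      change (lp.single p n (EuclideanSpace.single (i₀ n) c) : ZP r p) m (i₀ m) = _
      by_cases hm : m = n
      · subst hm
        rw [lp.single_apply_self, lp.single_apply_self]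
        simp
      · rw [lp.single_apply_ne _ _ _ hm, lp.single_apply_ne _ _ _ hm]
        rfl
    rw [h1]
    refine lp.ext (funext fun m => ?_)
    change EuclideanSpace.single (i₀ m) ((lp.single p n c : LP p) m) = _
    by_cases hm : m = n
    · subst hm
      rw [lp.single_apply_self, lp.single_apply_self]
    · rw [lp.single_apply_ne _ _ _ hm, lp.single_apply_ne _ _ _ hm]
      simp
  · -- index zero
    obtain ⟨b, hb1, hb2⟩ := exists_resolvent hμ
    set a : C(M, ℂ) := zfun M - μ • (1 : C(M, ℂ)) with ha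
    obtain ⟨U, hU⟩ := hind μ hμ
    rw [cornerOp_eq, ← ha] at hU
    rw [cornerOp_eq, ← ha]
    have hU1 : ∀ x, (U : LP p →L[ℂ] LP p) (((U⁻¹ : (LP p →L[ℂ] LP p)ˣ) : LP p →L[ℂ] LP p) x) = x :=
      fun x => congrArg (fun f : LP p →L[ℂ] LP p => f x) U.mul_inv
    have hU2 : ∀ x, ((U⁻¹ : (LP p →L[ℂ] LP p)ˣ) : LP p →L[ℂ] LP p) ((U : LP p →L[ℂ] LP p) x) = x :=
      fun x => congrArg (fun f : LP p →L[ℂ] LP p => f x) U.inv_mul
    set U' : LP p →L[ℂ] LP p := ((U⁻¹ : (LP p →L[ℂ] LP p)ˣ) : LP p →L[ℂ] LP p) with hU'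
    have hs1 : ∀ x, (seqRep u p).hom a ((seqRep u p).hom b x) = x := fun x => by
      have h3 : (seqRep u p).hom a * (seqRep u p).hom b = 1 := by rw [← map_mul, hb1, map_one]
      exact congrArg (fun T : LP p →L[ℂ] LP p => T x) h3
    have hs2 : ∀ x, (seqRep u p).hom b ((seqRep u p).hom a x) = x := fun x => by
      have h3 : (seqRep u p).hom b * (seqRep u p).hom a = 1 := by rw [← map_mul, hb2, map_one]
      exact congrArg (fun T : LP p →L[ℂ] LP p => T x) h3
    have key : ∀ (S S' : LP p →L[ℂ] LP p) (T T' : LP p →L[ℂ] LP p), (∀ x, S (S' x) = x) →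
        (∀ x, T (T' x) = x) →
        (J ∘L S ∘L R + q ∘L T ∘L o + (ContinuousLinearMap.id ℂ (ZP r p) - J ∘L R - q ∘L o)) *
        (J ∘L S' ∘L R + q ∘L T' ∘L o + (ContinuousLinearMap.id ℂ (ZP r p) - J ∘L R - q ∘L o)) =
        1 := by
      intro S S' T T' hS hT
      refine ContinuousLinearMap.ext fun x => ?_
      set y : ZP r p := J (S' (R x)) + q (T' (o x)) + (x - J (R x) - q (o x)) with hy
      change J (S (R y)) + q (T (o y)) + (y - J (R y) - q (o y)) = x
      have h1 : R y = S' (R x) := by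
        rw [hy, map_add, map_add, map_sub, map_sub, hrj, hrq, hrj, hrq]
        abel
      have h2 : o y = T' (o x) := by
        rw [hy, map_add, map_add, map_sub, map_sub, hqj, hqq, hqj, hqq]
        abel
      rw [h1, h2, hS, hT, hy]
      abel
    refine ⟨⟨_, _, key U U' ((seqRep u p).hom a) ((seqRep u p).hom b) hU1 hs1,
      key U' U ((seqRep u p).hom b) ((seqRep u p).hom a) hU2 hs2⟩, ?_⟩
    -- compare
    have c1 : EqK (J ∘L (U : LP p →L[ℂ] LP p) ∘L R)
        (J ∘L (e ∘L ρ.hom a ∘L e + (ContinuousLinearMap.id ℂ (LP p) - e)) ∘L R) :=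
      (hU.comp_right R).comp_left J
    have c2 : EqK ((J ∘L e) ∘L (R ∘L τ.hom a) ∘L (J ∘L e ∘L R))
        ((J ∘L e) ∘L (ρ.hom a ∘L R) ∘L (J ∘L e ∘L R)) := ((hRρ a).comp_right _).comp_left _
    change EqK (J ∘L (U : LP p →L[ℂ] LP p) ∘L R + q ∘L (seqRep u p).hom a ∘L o +
      (ContinuousLinearMap.id ℂ (ZP r p) - J ∘L R - q ∘L o)) _
    have c3 := (c1.add (EqK.refl (q ∘L (seqRep u p).hom a ∘L o))).add
      (EqK.refl (ContinuousLinearMap.id ℂ (ZP r p) - J ∘L R - q ∘L o))
    have c5 : EqK ((J ∘L e) ∘L (R ∘L τ.hom a) ∘L (q ∘L o)) 0 := by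
      have d1 : EqK ((J ∘L e) ∘L (R ∘L τ.hom a) ∘L (q ∘L o))
        ((J ∘L e) ∘L (ρ.hom a ∘L R) ∘L (q ∘L o)) := ((hRρ a).comp_right _).comp_left _
      refine d1.trans (EqK.of_eq ?_)
      refine ContinuousLinearMap.ext fun x => ?_
      change J (e (ρ.hom a (R (q (o x))))) = 0
      rw [hrq, map_zero, map_zero, map_zero]
    have c6 : EqK ((q ∘L o) ∘L (τ.hom a ∘L J) ∘L (e ∘L R)) 0 := by
      refine EqK.of_eq ?_
      refine ContinuousLinearMap.ext fun x => ?_
      change q (o (τ.hom a (J (e (R x))))) = 0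
      rw [htout, hqj, map_zero, map_zero]
    have c7 := ((c2.add c5).add c6).add
      (EqK.refl (q ∘L (seqRep u p).hom a ∘L o + (ContinuousLinearMap.id ℂ (ZP r p) -
        (J ∘L e ∘L R + q ∘L o))))
    refine c3.trans (EqK.trans (EqK.of_eq ?_) (c7.symm.trans (EqK.of_eq ?_)))
    · refine ContinuousLinearMap.ext fun x => ?_
      change J (e (ρ.hom a (e (R x))) + (R x - e (R x))) + q ((seqRep u p).hom a (o x)) +
        (x - J (R x) - q (o x)) = J (e (ρ.hom a (R (J (e (R x)))))) + 0 + 0 +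
        (q ((seqRep u p).hom a (o x)) + (x - (J (e (R x)) + q (o x))))
      rw [hrj, map_add J, map_sub J]
      abel
    · refine ContinuousLinearMap.ext fun x => ?_
      change J (e (R (τ.hom a (J (e (R x)))))) + J (e (R (τ.hom a (q (o x))))) +
        q (o (τ.hom a (J (e (R x))))) + (q ((seqRep u p).hom a (o x)) +
        (x - (J (e (R x)) + q (o x)))) =
        (J (e (R (τ.hom a (J (e (R x)) + q (o x))))) + q (o (τ.hom a (J (e (R x)) + q (o x))))) +
          (x - (J (e (R x)) + q (o x)))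
      rw [map_add (τ.hom a), map_add R, map_add e, map_add J, map_add o, map_add q,
        ← htin a (o x), hqq]
      abel
  · -- equivalence
    refine ⟨(J ∘L e) ∘L ContinuousLinearMap.fst ℂ (LP p) (LP p) +
      q ∘L ContinuousLinearMap.snd ℂ (LP p) (LP p), (e ∘L R).prod o, EqK.of_eq ?_, EqK.of_eq ?_,
      EqK.of_eq ?_, EqK.of_eq ?_, fun a => ?_⟩
    · refine ContinuousLinearMap.ext fun x => ?_
      change (e (R (J (e x.1) + q x.2)), o (J (e x.1) + q x.2)) = (e x.1, x.2)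
      rw [map_add R, hrj, hrq, add_zero, hee, map_add o, hqj, hqq, zero_add]
    · refine ContinuousLinearMap.ext fun x => ?_
      change J (e (e (R x))) + q (o x) = J (e (R x)) + q (o x)
      rw [hee]
    · refine ContinuousLinearMap.ext fun x => ?_
      change J (e (e x.1)) + q x.2 = J (e x.1) + q x.2
      rw [hee]
    · refine ContinuousLinearMap.ext fun x => ?_
      change (e (R (J (e (R x)) + q (o x))), o (J (e (R x)) + q (o x))) = (e (R x), o x)
      rw [map_add R, hrj, hrq, add_zero, hee, map_add o, hqj, hqq, zero_add]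
    · have b2 : EqK (J ∘L (e ∘L ρ.hom a) ∘L ContinuousLinearMap.fst ℂ (LP p) (LP p))
        (J ∘L (ρ.hom a ∘L e) ∘L ContinuousLinearMap.fst ℂ (LP p) (LP p)) :=
        ((he.2 a).comp_right _).comp_left J
      have b3 : EqK ((J ∘L ρ.hom a) ∘L e ∘L ContinuousLinearMap.fst ℂ (LP p) (LP p))
        ((τ.hom a ∘L J) ∘L e ∘L ContinuousLinearMap.fst ℂ (LP p) (LP p)) := (hJρ a).comp_right _
      have b4 := (b2.trans b3).add
        (EqK.refl ((q ∘L (seqRep u p).hom a) ∘L ContinuousLinearMap.snd ℂ (LP p) (LP p)))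
      refine EqK.trans (EqK.of_eq ?_) (b4.trans (EqK.of_eq ?_))
      · refine ContinuousLinearMap.ext fun x => ?_
        rfl
      · refine ContinuousLinearMap.ext fun x => ?_
        change τ.hom a (J (e x.1)) + q ((seqRep u p).hom a x.2) =
          τ.hom a (J (e x.1) + q x.2)
        rw [map_add, htin]

end Part1

end Pool.Agent.H33.BDFP
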