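import Mathlib
import Pool.Agent.H33.BDFP.Stmts
import Pool.Agent.H33.BDFP.Ess
import Pool.Agent.H33.BDFP.Mc1

attribute [local instance] Pool.Agent.H33.BDFP.NV.instNACG Pool.Agent.H33.BDFP.NV.instModule
  Pool.Agent.H33.BDFP.NV.instNormedSpace Pool.Agent.H33.BDFP.NV.instFD
  Pool.Agent.H33.BDFP.NV.instComplete

/-!
Module MC, part 2: passage to the weighted Hilbert space.
-/

open scoped ENNReal NNReal

noncomputable section

namespace Pool.Agent.H33.BDFP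

variable {M : Set ℂ} [CompactSpace M] {p : ℝ≥0∞} [Fact (1 ≤ p)]
variable {r : ℕ → ℕ} {v : ∀ n, Fin (r n) → M} {i₀ : ∀ n, Fin (r n)} {u : ℕ → M}

/-- the range of `D` is dense -/
lemma isDiag_ext {s : ℕ → ℝ} {D : ZP r p →L[ℂ] ZP r 2} (hD : IsDiag s D) {Y : Type}
    [NormedAddCommGroup Y] [NormedSpace ℂ Y] {T T' : ZP r 2 →L[ℂ] Y}
    (h : T ∘L D = T' ∘L D) : T = T' := by
  refine lp_ext_single (by norm_num) fun n x => ?_
  have h1 : D (lp.single p n (((s n : ℂ)⁻¹) • x)) = lp.single 2 n x := by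
    refine lp.ext (funext fun m => ?_)
    rw [hD.2]
    by_cases hm : m = n
    · subst hm
      rw [lp.single_apply_self, lp.single_apply_self, smul_smul, mul_inv_cancel₀, one_smul]
      exact_mod_cast (hD.1 m).ne'
    · rw [lp.single_apply_ne _ _ _ hm, lp.single_apply_ne _ _ _ hm, smul_zero]
  rw [← h1]
  exact congrArg (fun S : ZP r p →L[ℂ] Y => S (lp.single p n (((s n : ℂ)⁻¹) • x))) h

lemma isDiag_tau {s : ℕ → ℝ} {D : ZP r p →L[ℂ] ZP r 2} (hD : IsDiag s D) (a : C(M, ℂ)) :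
    (diagRep v 2).hom a ∘L D = D ∘L (diagRep v p).hom a := by
  refine ContinuousLinearMap.ext fun x => lp.ext (funext fun n => ?_)
  ext i
  change a (v n i) * (D x) n i = (D ((diagRep v p).hom a x)) n i
  rw [hD.2, hD.2]
  change a (v n i) * ((s n : ℂ) * x n i) = (s n : ℂ) * (a (v n i) * x n i)
  ring

/-- the norm of a diagonal representation -/
lemma diagRep_norm_le (v : ∀ n, Fin (r n) → M) (p : ℝ≥0∞) [Fact (1 ≤ p)] (a : C(M, ℂ)) :
    ‖(diagRep v p).hom a‖ ≤ ‖a‖ :=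
  lp.norm_mapCLM_le p _ (norm_nonneg a) (fun i => eucRep_contr (v i) a)

/-- The corner on the weighted Hilbert space. -/
lemma corner_two {s : ℕ → ℝ} {D : ZP r p →L[ℂ] ZP r 2} (hD : IsDiag s D)
    {e : ZP r p →L[ℂ] ZP r p} (he : Corner (diagRep v p) e) {e₂ : ZP r 2 →L[ℂ] ZP r 2}
    (he₂ : e₂ ∘L D = D ∘L e) (am : ℕ → C(M, ℂ)) (hd : DenseRange am)
    (c₂ : ℕ → (ZP r 2 →L[ℂ] ZP r 2)) (hc : ∀ m, IsCompactOperator (⇑(c₂ m)) ∧
      c₂ m ∘L D = D ∘L (e ∘L (diagRep v p).hom (am m) - (diagRep v p).hom (am m) ∘L e)) :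
    Corner (diagRep v 2) e₂ := by
  have hee : ∀ x, e (e x) = e x := fun x => congrArg (fun T : ZP r p →L[ℂ] ZP r p => T x) he.1
  have h2 : ∀ x, e₂ (D x) = D (e x) := fun x =>
    congrArg (fun T : ZP r p →L[ℂ] ZP r 2 => T x) he₂
  have ht : ∀ a x, (diagRep v 2).hom a (D x) = D ((diagRep v p).hom a x) := fun a x =>
    congrArg (fun T : ZP r p →L[ℂ] ZP r 2 => T x) (isDiag_tau hD a)
  have hcm : ∀ m, c₂ m = e₂ ∘L (diagRep v 2).hom (am m) - (diagRep v 2).hom (am m) ∘L e₂ := by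
    intro m
    refine isDiag_ext hD ?_
    rw [(hc m).2]
    refine ContinuousLinearMap.ext fun x => ?_
    change D (e ((diagRep v p).hom (am m) x) - (diagRep v p).hom (am m) (e x)) =
      e₂ ((diagRep v 2).hom (am m) (D x)) - (diagRep v 2).hom (am m) (e₂ (D x))
    rw [map_sub, ht, h2, h2, ht]
  constructor
  · refine isDiag_ext hD ?_
    refine ContinuousLinearMap.ext fun x => ?_
    change e₂ (e₂ (D x)) = e₂ (D x)
    rw [h2, h2, hee]
  · intro a
    refine eqK_of_forall_approx _ _ fun ε hε => ?_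
    obtain ⟨m, hm⟩ := hd.exists_dist_lt a (show 0 < ε / (2 * ‖e₂‖ + 1) by positivity)
    refine ⟨c₂ m, (hc m).1, ?_⟩
    rw [hcm m]
    have e1 : e₂ ∘L (diagRep v 2).hom a - (diagRep v 2).hom a ∘L e₂ -
        (e₂ ∘L (diagRep v 2).hom (am m) - (diagRep v 2).hom (am m) ∘L e₂) =
        e₂ ∘L (diagRep v 2).hom (a - am m) - (diagRep v 2).hom (a - am m) ∘L e₂ := by
      rw [map_sub, ContinuousLinearMap.comp_sub, ContinuousLinearMap.sub_comp]
      abel
    rw [e1]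
    have h3 : ‖(diagRep v 2).hom (a - am m)‖ ≤ ε / (2 * ‖e₂‖ + 1) := by
      refine (diagRep_norm_le v 2 _).trans ?_
      rw [← dist_eq_norm]
      exact hm.le
    calc ‖e₂ ∘L (diagRep v 2).hom (a - am m) - (diagRep v 2).hom (a - am m) ∘L e₂‖
        ≤ ‖e₂ ∘L (diagRep v 2).hom (a - am m)‖ + ‖(diagRep v 2).hom (a - am m) ∘L e₂‖ :=
          norm_sub_le _ _
      _ ≤ ‖e₂‖ * ‖(diagRep v 2).hom (a - am m)‖ + ‖(diagRep v 2).hom (a - am m)‖ * ‖e₂‖ :=
          add_le_add (ContinuousLinearMap.opNorm_comp_le _ _)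
            (ContinuousLinearMap.opNorm_comp_le _ _)
      _ = (2 * ‖e₂‖) * ‖(diagRep v 2).hom (a - am m)‖ := by ring
      _ ≤ (2 * ‖e₂‖ + 1) * (ε / (2 * ‖e₂‖ + 1)) := by
          gcongr
          linarith
      _ = ε := by field_simp

/-- index zero on the weighted Hilbert space -/
lemma index_two (htr : TrStmt) (hp2 : 2 < p) (hp : p ≠ ∞) {s : ℕ → ℝ}
    {D : ZP r p →L[ℂ] ZP r 2} (hD : IsDiag s D)
    {e : ZP r p →L[ℂ] ZP r p} (he : Corner (diagRep v p) e) {e₂ : ZP r 2 →L[ℂ] ZP r 2}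
    (he₂ : e₂ ∘L D = D ∘L e) (hc₂ : Corner (diagRep v 2) e₂) {μ : ℂ} (hμ : μ ∉ M)
    (h0 : IndexZero (cornerOp (diagRep v p) e μ)) :
    IndexZero (cornerOp (diagRep v 2) e₂ μ) := by
  have h2 : ∀ x, e₂ (D x) = D (e x) := fun x =>
    congrArg (fun T : ZP r p →L[ℂ] ZP r 2 => T x) he₂
  have ht : ∀ a x, (diagRep v 2).hom a (D x) = D ((diagRep v p).hom a x) := fun a x =>
    congrArg (fun T : ZP r p →L[ℂ] ZP r 2 => T x) (isDiag_tau hD a)
  obtain ⟨b, hb1, hb2⟩ := exists_resolvent hμ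
  have hcomp : ∀ a : C(M, ℂ), (e₂ ∘L (diagRep v 2).hom a ∘L e₂ +
      (ContinuousLinearMap.id ℂ (ZP r 2) - e₂)) ∘L D = D ∘L (e ∘L (diagRep v p).hom a ∘L e +
      (ContinuousLinearMap.id ℂ (ZP r p) - e)) := by
    intro a
    refine ContinuousLinearMap.ext fun x => ?_
    change e₂ ((diagRep v 2).hom a (e₂ (D x))) + (D x - e₂ (D x)) =
      D (e ((diagRep v p).hom a (e x)) + (x - e x))
    rw [h2, ht, h2, map_add, map_sub]
  rw [cornerOp_eq] at h0 ⊢
  exact htr p hp2 hp r s D _ _ _ _ hD (hcomp _) (hcomp b) (corner_inv he _ _ hb2)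
    (corner_inv he _ _ hb1) (corner_inv hc₂ _ _ hb2) (corner_inv hc₂ _ _ hb1) h0

/-- no essential invertibility at the points of `M` -/
lemma not_essInv {s : ℕ → ℝ} {D : ZP r p →L[ℂ] ZP r 2} (hD : IsDiag s D)
    {e : ZP r p →L[ℂ] ZP r p} {e₂ : ZP r 2 →L[ℂ] ZP r 2}
    (he₂ : e₂ ∘L D = D ∘L e)
    (hu : ∀ z : M, ∀ ε : ℝ, 0 < ε → ∀ N : ℕ, ∃ n, N ≤ n ∧ dist (u n) z < ε)
    (hv : ∀ n, v n (i₀ n) = u n)
    (hfix : ∀ n (c : ℂ), e (lp.single p n (EuclideanSpace.single (i₀ n) c)) =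
        lp.single p n (EuclideanSpace.single (i₀ n) c)) (μ : ℂ) (hμ : μ ∈ M) :
    ¬ EssInv (cornerOp (diagRep v 2) e₂ μ) := by
  rintro ⟨S, hS, -⟩
  set δ : ℕ → ZP r 2 := fun n => lp.single 2 n (EuclideanSpace.single (i₀ n) (1 : ℂ)) with hδ
  have hδn : ∀ n, ‖δ n‖ = 1 := by
    intro n
    rw [hδ]
    change ‖(lp.single 2 n (EuclideanSpace.single (i₀ n) (1 : ℂ)) : ZP r 2)‖ = 1
    rw [lp.norm_single (by norm_num)]
    simp
  have hDδ : ∀ n, D (lp.single p n (EuclideanSpace.single (i₀ n) ((s n : ℂ)⁻¹))) = δ n := by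
    intro n
    refine lp.ext (funext fun m => ?_)
    rw [hD.2]
    change _ = (lp.single 2 n (EuclideanSpace.single (i₀ n) (1 : ℂ)) : ZP r 2) m
    by_cases hm : m = n
    · subst hm
      rw [lp.single_apply_self, lp.single_apply_self]
      have h0 : (s m : ℂ) ≠ 0 := by exact_mod_cast (hD.1 m).ne'
      ext i
      change (s m : ℂ) * (EuclideanSpace.single (i₀ m) ((s m : ℂ)⁻¹)) i = _
      by_cases hi : i = i₀ m
      · subst hi
        simp [h0]
      · simp [hi]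
    · rw [lp.single_apply_ne _ _ _ hm, lp.single_apply_ne _ _ _ hm, smul_zero]
  have heδ : ∀ n, e₂ (δ n) = δ n := by
    intro n
    have h1 : e₂ (D (lp.single p n (EuclideanSpace.single (i₀ n) ((s n : ℂ)⁻¹)))) =
        D (e (lp.single p n (EuclideanSpace.single (i₀ n) ((s n : ℂ)⁻¹)))) :=
      congrArg (fun T : ZP r p →L[ℂ] ZP r 2 => T _) he₂
    rw [hfix, hDδ] at h1
    exact h1
  have hTδ : ∀ n, cornerOp (diagRep v 2) e₂ μ (δ n) = ((u n : ℂ) - μ) • δ n := by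
    intro n
    change e₂ ((diagRep v 2).hom (zfun M) (e₂ (δ n)) - μ • (e₂ (δ n))) + (δ n - e₂ (δ n)) = _
    have h1 : (diagRep v 2).hom (zfun M) (δ n) = (u n : ℂ) • δ n := by
      refine lp.ext (funext fun m => ?_)
      ext i
      rw [diagRep_apply]
      change (v m i : ℂ) * (lp.single 2 n (EuclideanSpace.single (i₀ n) (1 : ℂ)) : ZP r 2) m i =
        (u n : ℂ) * (lp.single 2 n (EuclideanSpace.single (i₀ n) (1 : ℂ)) : ZP r 2) m i
      by_cases hm : m = n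
      · subst hm
        rw [lp.single_apply_self]
        by_cases hi : i = i₀ m
        · subst hi
          rw [hv]
        · simp [hi]
      · rw [lp.single_apply_ne _ _ _ hm]
        simp
    rw [heδ, h1, ← sub_smul, map_smul, heδ, sub_self, add_zero]
  -- choose a sequence
  have hseq : ∃ φ : ℕ → ℕ, StrictMono φ ∧ ∀ k, dist (u (φ k)) (⟨μ, hμ⟩ : M) < 1 / ((k : ℝ) + 1) := by
    have h1 : ∀ k : ℕ, ∀ N : ℕ, ∃ n, N < n ∧ dist (u n) (⟨μ, hμ⟩ : M) < 1 / ((k : ℝ) + 1) := by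
      intro k N
      obtain ⟨n, hn, hn'⟩ := hu ⟨μ, hμ⟩ (1 / ((k : ℝ) + 1)) (by positivity) (N + 1)
      exact ⟨n, hn, hn'⟩
    choose f hf1 hf2 using h1
    refine ⟨fun k => Nat.rec (f 0 0) (fun k n => f (k + 1) n) k, ?_, ?_⟩
    · exact strictMono_nat_of_lt_succ fun k => hf1 (k + 1) _
    · intro k
      cases k with
      | zero => exact hf2 0 0
      | succ k => exact hf2 (k + 1) _
  obtain ⟨φ, hφ, hφ'⟩ := hseq
  -- compactness
  set K : ZP r 2 →L[ℂ] ZP r 2 := S ∘L cornerOp (diagRep v 2) e₂ μ -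
    ContinuousLinearMap.id ℂ (ZP r 2) with hK
  have hKc : IsCompactOperator (⇑K) := hS
  have hb : Bornology.IsBounded (Set.range fun k => δ (φ k)) := by
    rw [isBounded_iff_forall_norm_le]
    refine ⟨1, ?_⟩
    rintro _ ⟨k, rfl⟩
    exact (hδn _).le
  have hcl : IsCompact (closure (K '' Set.range fun k => δ (φ k))) :=
    IsCompactOperator.isCompact_closure_image_of_bounded (f := K.toLinearMap) hKc hb
  obtain ⟨y, -, ψ, hψ, hlim⟩ := hcl.tendsto_subseq (x := fun k => K (δ (φ k)))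
    (fun k => subset_closure ⟨_, ⟨k, rfl⟩, rfl⟩)
  -- `K δ + δ → 0`
  have h0 : Filter.Tendsto (fun k => K (δ (φ k)) + δ (φ k)) Filter.atTop (nhds 0) := by
    have e1 : ∀ k, K (δ (φ k)) + δ (φ k) = ((u (φ k) : ℂ) - μ) • S (δ (φ k)) := by
      intro k
      change S (cornerOp (diagRep v 2) e₂ μ (δ (φ k))) - δ (φ k) + δ (φ k) = _
      rw [hTδ, map_smul, sub_add_cancel]
    rw [tendsto_zero_iff_norm_tendsto_zero]
    refine squeeze_zero (fun k => norm_nonneg _) (g := fun k : ℕ => (1 / ((k : ℝ) + 1)) * ‖S‖)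
      (fun k => ?_) ?_
    · rw [e1, norm_smul]
      refine mul_le_mul ?_ ?_ (norm_nonneg _) (by positivity)
      · have h3 := (hφ' k).le
        rw [Subtype.dist_eq, dist_eq_norm] at h3
        exact h3
      · calc ‖S (δ (φ k))‖ ≤ ‖S‖ * ‖δ (φ k)‖ := S.le_opNorm _
          _ = ‖S‖ := by rw [hδn, mul_one]
    · have := (tendsto_one_div_add_atTop_nhds_zero_nat (𝕜 := ℝ)).mul_const ‖S‖
      rwa [zero_mul] at this
  have h1 : Filter.Tendsto (fun k => δ (φ (ψ k))) Filter.atTop (nhds (0 - y)) := by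
    have h2 := (h0.comp hψ.tendsto_atTop).sub hlim
    refine h2.congr fun k => ?_
    change K (δ (φ (ψ k))) + δ (φ (ψ k)) - K (δ (φ (ψ k))) = _
    abel
  -- the sequence has no limit
  have hsep : ∀ m n, m ≠ n → 1 ≤ ‖δ m - δ n‖ := by
    intro m n hmn
    have h3 : ‖(δ m - δ n) m‖ ≤ ‖δ m - δ n‖ := lp.norm_apply_le_norm (by norm_num) _ m
    refine le_trans (le_of_eq ?_) h3
    change 1 = ‖(lp.single 2 m (EuclideanSpace.single (i₀ m) (1 : ℂ)) : ZP r 2) m -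
      (lp.single 2 n (EuclideanSpace.single (i₀ n) (1 : ℂ)) : ZP r 2) m‖
    rw [lp.single_apply_self, lp.single_apply_ne _ _ _ hmn]
    simp
  have h4 := h1.cauchySeq
  rw [Metric.cauchySeq_iff'] at h4
  obtain ⟨N, hN⟩ := h4 1 one_pos
  have h5 := hN (N + 1) (Nat.le_succ N)
  rw [dist_eq_norm] at h5
  have h6 := hsep (φ (ψ (N + 1))) (φ (ψ N)) (by
    intro h
    have := hψ.injective (hφ.injective h)
    omega)
  linarith

end Pool.Agent.H33.BDFP
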