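import Mathlib
import Pool.Agent.H33.BDFP.Stmts
import Pool.Agent.H33.BDFP.DStmts
import Pool.Agent.H33.BDFP.Ess
import Pool.Agent.H33.BDFP.Mc1
import Pool.Agent.H33.BDFP.Mc2

attribute [local instance] Pool.Agent.H33.BDFP.NV.instNACG Pool.Agent.H33.BDFP.NV.instModule
  Pool.Agent.H33.BDFP.NV.instNormedSpace Pool.Agent.H33.BDFP.NV.instFD
  Pool.Agent.H33.BDFP.NV.instComplete

/-!
Module MC: assembly of the core theorem for `2 < p < ∞`.
-/

open scoped ENNReal NNReal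

noncomputable section

namespace Pool.Agent.H33.BDFP

theorem mcAsm (hdil : DilStmt) (hwt : WtStmt) (htr : TrStmt) (hhil : HilStmt)
    (hasm : AsmStmt) (hpel : PelStmt) : MCAsmStmt := by
  intro p _ hp2 hp M _ hM ρ e he hind
  obtain ⟨u, hu⟩ := exists_seq hM
  obtain ⟨r, v, i₀, J, R, hv, hJ, hR, hRJ, hJρ, hRρ⟩ := hdil p hp2.le hp M ρ u
  obtain ⟨e', he', hfix, hind', hE1⟩ := mc_part1 hp ρ e he hind J R hv hJ hR hRJ hJρ hRρ
  have hne : Nonempty M := hM.to_subtype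
  set am : ℕ → C(M, ℂ) := TopologicalSpace.denseSeq C(M, ℂ) with ham
  obtain ⟨s, D, e₂, c₂, hD, hD1, he₂, hc₂⟩ := hwt p hp2 hp r e'
    (fun m => e' ∘L (diagRep v p).hom (am m) - (diagRep v p).hom (am m) ∘L e')
    (fun m => he'.2 (am m))
  have hC2 : Corner (diagRep v 2) e₂ :=
    corner_two hD he' he₂ am (TopologicalSpace.denseRange_denseSeq _) c₂ hc₂
  have hI2 : ∀ μ : ℂ, μ ∉ M → IndexZero (cornerOp (diagRep v 2) e₂ μ) :=
    fun μ hμ => index_two htr hp2 hp hD he' he₂ hC2 hμ (hind' μ hμ)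
  have hN2 : ∀ μ ∈ M, ¬ EssInv (cornerOp (diagRep v 2) e₂ μ) :=
    fun μ hμ => not_essInv hD he₂ hu hv hfix μ hμ
  obtain ⟨μs, A, B, hAB, hBA, hint⟩ := hhil M r v e₂ hC2 hI2 hN2 hM
  obtain ⟨X₁, X₂, _, _, _, _, σ₁, σ₂, hX₁, hX₂, hE2⟩ := hasm p hp2 hp M r (fun _ => 1) v
    (fun n _ => μs n) e' e₂ s D A B he' hC2 hD hD1 he₂ hAB hBA hint
  obtain ⟨-, ⟨Ψ⟩, hp3, -⟩ := hpel p hp
  obtain ⟨Φ₁⟩ := hp3 X₁ hX₁
  obtain ⟨Φ₂⟩ := hp3 X₂ hX₂
  set κ : Rep M (LP p) := seqRep u p with hκ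
  have E3 := ((hE1.prod (EssEquiv.refl (corner_id σ₁))).trans hE2).prod
    (EssEquiv.refl (corner_id κ))
  rw [id_prodMap_id] at E3
  -- the right side
  have E4 := E3.trans (EssEquiv.conj_id (σ₂.prod κ) Φ₂)
  -- the left side
  let Θ : (LP p × (X₁ × LP p)) ≃L[ℂ] LP p :=
    ((ContinuousLinearEquiv.refl ℂ (LP p)).prodCongr Φ₁).trans Ψ
  have E5 : EssEquiv (ρ.prod (κ.prod (σ₁.prod κ)))
      (e.prodMap (ContinuousLinearMap.id ℂ (LP p × (X₁ × LP p))))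
      (((ρ.prod κ).prod σ₁).prod κ)
      (((e.prodMap (ContinuousLinearMap.id ℂ (LP p))).prodMap
        (ContinuousLinearMap.id ℂ X₁)).prodMap (ContinuousLinearMap.id ℂ (LP p))) := by
    let Ω : (LP p × (LP p × (X₁ × LP p))) ≃L[ℂ] (((LP p × LP p) × X₁) × LP p) :=
      { toFun := fun x => (((x.1, x.2.1), x.2.2.1), x.2.2.2)
        invFun := fun y => (y.1.1.1, (y.1.1.2, (y.1.2, y.2)))
        left_inv := fun _ => rfl
        right_inv := fun _ => rfl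
        map_add' := fun _ _ => rfl
        map_smul' := fun _ _ => rfl
        continuous_toFun := by fun_prop
        continuous_invFun := by fun_prop }
    exact EssEquiv.of_iso Ω (he.prod (corner_id _)) (fun _ _ => rfl) (fun _ => rfl)
  have E6 : EssEquiv (ρ.prod ((κ.prod (σ₁.prod κ)).conj Θ))
      (e.prodMap (ContinuousLinearMap.id ℂ (LP p)))
      (ρ.prod (κ.prod (σ₁.prod κ)))
      (e.prodMap (ContinuousLinearMap.id ℂ (LP p × (X₁ × LP p)))) :=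
    (EssEquiv.refl he).prod ((EssEquiv.conj_id _ Θ).symm (corner_id _).2 (corner_id _).2)
  exact ⟨_, _, (E6.trans E5).trans E4⟩

end Pool.Agent.H33.BDFP
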