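import Mathlib
import Pool.Agent.H33.BDFP.Stmts
import Pool.Agent.H33.BDFP.DStmts
import Pool.Agent.H33.BDFP.Mc
import Pool.Agent.H33.BDFP.Asm
import Pool.Agent.H13.BDFP.AP
import Pool.Agent.H13.BDFP.AREG
import Pool.Agent.H13.BDFP.AHIL
import Pool.Agent.H13.BDFP.T
import Pool.Agent.H14.BDFP.DGB
import Pool.Agent.H14.BDFP.PAIR2
import Pool.Agent.H15.BDFP.ASW
import Pool.Agent.H15.BDFP.FIN
import Pool.Agent.H15.BDFP.IX
import Pool.Agent.H19.BDFP.PEL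
import Pool.Agent.H19.BDFP.TRIV
import Pool.Agent.H20.BDFP.HIL
import Pool.Agent.H20.BDFP.PSUM
import Pool.Agent.H20.BDFP.ROS
import Pool.Agent.H24.BDFP.Edge
import Pool.Agent.H24.BDFP.Punct
import Pool.Agent.H3.BDFP.FINL
import Pool.Agent.H3.BDFP.FR
import Pool.Agent.H3.BDFP.PAIR1
import Pool.Agent.H3.BDFP.QUO
import Pool.Agent.H30.BDFP.DIL
import Pool.Agent.H32.BDFP.CYC
import Pool.Agent.H32.BDFP.KH
import Pool.Agent.H32.BDFP.PART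
import Pool.Agent.H41.BDFP.ACUT
import Pool.Agent.H41.BDFP.BLK
import Pool.Agent.H42.BDFP.CUTALL
import Pool.Agent.H42.BDFP.RETR
import Pool.Agent.H68.BDFP.SW
import Pool.Agent.H70.BDFP.QD
import Pool.Agent.H70.BDFP.TR
import Pool.Agent.H74.BDFP.CUT
import Pool.Agent.H74.BDFP.SCH
import Pool.Agent.H80.BDFP.BDF
import Pool.Agent.H80.BDFP.DIL1
import Pool.Agent.H80.BDFP.MAU
import Pool.Agent.H80.BDFP.WT
import Pool.Agent.H90.BDFP.SEMI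
import Pool.Agent.H90.BDFP.STAB

attribute [local instance] Pool.Agent.H33.BDFP.NV.instNACG Pool.Agent.H33.BDFP.NV.instModule
  Pool.Agent.H33.BDFP.NV.instNormedSpace Pool.Agent.H33.BDFP.NV.instFD
  Pool.Agent.H33.BDFP.NV.instComplete

/-!
Final assembly of the project BDFP (MP_c92038_an).
-/

open scoped ENNReal NNReal

noncomputable section

namespace Pool.Agent.H33.BDFP

lemma exists_conj {p : ℝ≥0∞} (h1 : 1 < p) (h2 : p < 2) :
    ∃ q : ℝ≥0∞, 2 < q ∧ q ≠ ∞ ∧ p⁻¹ + q⁻¹ = 1 := by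
  have a1 : p⁻¹ < 1 := ENNReal.inv_lt_one.2 h1
  have a2 : (2 : ℝ≥0∞)⁻¹ < p⁻¹ := ENNReal.inv_lt_inv.2 h2
  refine ⟨(1 - p⁻¹)⁻¹, ?_, ?_, ?_⟩
  · rw [← inv_inv (2 : ℝ≥0∞)]
    rw [ENNReal.inv_lt_inv]
    refine ENNReal.sub_lt_of_lt_add a1.le ?_
    calc (1 : ℝ≥0∞) = 2⁻¹ + 2⁻¹ := ENNReal.inv_two_add_inv_two.symm
      _ < 2⁻¹ + p⁻¹ := by
        exact ENNReal.add_lt_add_left (by norm_num) a2
  · rw [Ne, ENNReal.inv_eq_top, tsub_eq_zero_iff_le]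
    exact not_le.2 a1
  · rw [inv_inv]
    exact add_tsub_cancel_of_le a1.le

/-- the core theorem for all `p` -/
theorem mcAll (hT : TStmt) (hMC : MCAsmStmt) (p : ℝ≥0∞) [Fact (1 ≤ p)] (h1 : 1 < p)
    (hp : p ≠ ∞) (h2 : p ≠ 2) : MCStmt p := by
  rcases lt_or_gt_of_ne h2 with h | h
  · obtain ⟨q, hq, hq', hpq⟩ := exists_conj h1 h
    have hq1 : 1 < q := (by norm_num : (1 : ℝ≥0∞) < 2).trans hq
    have : Fact (1 ≤ q) := ⟨hq1.le⟩
    exact hT p q h1 hq1 hpq (hMC q hq hq')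
  · exact hMC p h hp

theorem final : ResultStmt := by
  have hAP := Pool.Agent.H13.BDFP.ap
  have hIX := Pool.Agent.H15.BDFP.ix
  have hPel := Pool.Agent.H19.BDFP.pel
  have hK := Pool.Agent.H32.BDFP.kh
  have hCut := Pool.Agent.H74.BDFP.cut
  have hSch := Pool.Agent.H74.BDFP.sch
  have hSemi := Pool.Agent.H90.BDFP.semi
  have hFR := Pool.Agent.H3.BDFP.fr Pool.Agent.H24.BDFP.punct Pool.Agent.H42.BDFP.retr
    (Pool.Agent.H42.BDFP.cutall Pool.Agent.H24.BDFP.edge) Pool.Agent.H3.BDFP.finLift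
  have hQuo := Pool.Agent.H3.BDFP.quo
  have hDgb := Pool.Agent.H14.BDFP.DGBM.dgb (Pool.Agent.H14.BDFP.pair2 hQuo) hFR
  have hBdf := Pool.Agent.H80.BDFP.bdf (Pool.Agent.H3.BDFP.pair1 hQuo) hFR Pool.Agent.H70.BDFP.qd hDgb hCut
  have hHil := Pool.Agent.H20.BDFP.hil hBdf hIX hAP
  have hWt := Pool.Agent.H80.BDFP.wt (Pool.Agent.H80.BDFP.mau hK) hCut
  have hTr := Pool.Agent.H70.BDFP.tr hCut
  have hPc := Pool.Agent.H20.BDFP.apc (Pool.Agent.H20.BDFP.ros hK) Pool.Agent.H20.BDFP.psum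
  have hAcut := Pool.Agent.H41.BDFP.acut hCut Pool.Agent.H74.BDFP.cutSeq Pool.Agent.H41.BDFP.blk
  have hAsw := Pool.Agent.H15.BDFP.asw (Pool.Agent.H68.BDFP.sw hSch Pool.Agent.H32.BDFP.cycStmt) hSch
  have hAsm := asm hAcut Pool.Agent.H13.BDFP.areg hAsw (Pool.Agent.H13.BDFP.ahil hSch) hPc hPel
  have hDil := Pool.Agent.H30.BDFP.dil Pool.Agent.H32.BDFP.part (Pool.Agent.H80.BDFP.dil1 hK) hCut
    Pool.Agent.H74.BDFP.cutSeq Pool.Agent.H41.BDFP.blk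
  have hMC := mcAsm hDil hWt hTr hHil hAsm hPel
  have hTriv := Pool.Agent.H19.BDFP.trivAbs hPel hSemi
  have hStab := Pool.Agent.H90.BDFP.stab hIX hAP hPel
  exact Pool.Agent.H15.BDFP.Fin.fin hSemi hTriv hStab hIX hAP
    (fun p _ h1 hp h2 => mcAll (Pool.Agent.H13.BDFP.transposition hAP) hMC p h1 hp h2)

end Pool.Agent.H33.BDFP
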