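import Mathlib
import Pool.Agent.H33.BDFP.Stmts
import Pool.Agent.H33.BDFP.Ess

attribute [local instance] Pool.Agent.H33.BDFP.NV.instNACG Pool.Agent.H33.BDFP.NV.instModule
  Pool.Agent.H33.BDFP.NV.instNormedSpace Pool.Agent.H33.BDFP.NV.instFD
  Pool.Agent.H33.BDFP.NV.instComplete

/-!
Second part of the project: extensions instead of representations, existence of `θ`, the circle
(MP_419fe0_an, S04465).
-/

open scoped ENNReal NNReal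

noncomputable section

namespace Pool.Agent.H33.BDFP

/-- bounded extension -/
def BddExt {X : Type} [NormedAddCommGroup X] [NormedSpace ℂ X] {M : Set ℂ} [CompactSpace M]
    (φ : C(M, ℂ) →ₐ[ℂ] Calkin X) : Prop := ∃ C : ℝ, ∀ a, ‖φ a‖ ≤ C * ‖a‖

/-- Module SQ: square functions of finite families of operators (the proof of DIL1). -/
def SqStmt : Prop :=
  ∀ (p : ℝ≥0∞) [Fact (1 ≤ p)], 2 ≤ p → p ≠ ∞ → ∃ K : ℝ, 1 ≤ K ∧ ∀ (m : ℕ)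
    (A : Fin m → (LP p →L[ℂ] LP p)) (D : ℝ), 0 ≤ D →
    (∀ ε : Fin m → Bool, ‖∑ i, sgn (ε i) • A i‖ ≤ D) →
    ∃ (J : LP p →L[ℂ] ZP (fun _ => m) p) (R : ZP (fun _ => m) p →L[ℂ] LP p),
      ‖J‖ ≤ K * D ∧ ‖R‖ ≤ K * D ∧ (∀ x n i, J x n i = A i x n) ∧
      (∀ n i (c : ℂ), R (lp.single p n (EuclideanSpace.single i c)) = A i (lp.single p n c))

/-- multiplication by a bounded sequence -/
def mulW (p : ℝ≥0∞) [Fact (1 ≤ p)] (w : ℕ → ℝ) (hw : ∀ n, |w n| ≤ 1) : LP p →L[ℂ] LP p :=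
  lp.mapCLM p (fun n => ((w n : ℝ) : ℂ) • ContinuousLinearMap.id ℂ ℂ) (K := 1) zero_le_one
    (fun n => by
      rw [norm_smul, Complex.norm_real]
      exact mul_le_one₀ (hw n) (norm_nonneg _) ContinuousLinearMap.norm_id_le)

lemma mulW_apply (p : ℝ≥0∞) [Fact (1 ≤ p)] (w : ℕ → ℝ) (hw : ∀ n, |w n| ≤ 1) (x : LP p) (n : ℕ) :
    mulW p w hw x n = (w n : ℂ) * x n := rfl

/-- Module WIN: slowly varying windows for a countable family of operators. The window `k` is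
finitely supported, for `k ≥ 1` supported in `[ν k, ∞)`; commutators with the operators of the
family tend to zero. -/
def WinStmt : Prop :=
  ∀ (p : ℝ≥0∞) [Fact (1 ≤ p)], 1 < p → p ≠ ∞ → ∀ (I : Type) [Countable I]
    (T : I → (LP p →L[ℂ] LP p)) (ν : ℕ → ℕ),
    ∃ (w : ℕ → ℕ → ℝ) (hw : ∀ k n, |w k n| ≤ 1),
      (∀ k n, 0 ≤ w k n) ∧
      (∀ n, ∃ k, w k n ^ 2 + w (k + 1) n ^ 2 = 1 ∧ ∀ l, l ≠ k → l ≠ k + 1 → w l n = 0) ∧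
      (∀ k, ∃ N, ∀ n, N ≤ n → w k n = 0) ∧
      (∀ k n, 1 ≤ k → n < ν k → w k n = 0) ∧
      (∀ (m : I) (ε : ℝ), 0 < ε → ∃ k₀ : ℕ, ∀ S : Finset ℕ, (∀ k ∈ S, k₀ ≤ k) →
        (∀ x : LP p, ∑ k ∈ S, ‖mulW p (w k) (hw k) (T m x) - T m (mulW p (w k) (hw k) x)‖ ^ p.toReal
          ≤ (ε * ‖x‖) ^ p.toReal) ∧
        (∀ y : ℕ → LP p, ‖∑ k ∈ S, (mulW p (w k) (hw k) (T m (y k)) -
            T m (mulW p (w k) (hw k) (y k)))‖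
          ≤ ε * (∑ k ∈ S, ‖y k‖ ^ p.toReal) ^ (1 / p.toReal)))

/-- Module GDIL0: an extension is modulo compact operators a direct summand of a diagonal
representation. -/
def GDil0Stmt : Prop :=
  ∀ (p : ℝ≥0∞) [Fact (1 ≤ p)], 2 ≤ p → p ≠ ∞ → ∀ (M : Set ℂ) [CompactSpace M], M.Nonempty →
  ∀ (φ : C(M, ℂ) →ₐ[ℂ] Calkin (LP p)), BddExt φ →
    ∃ (r : ℕ → ℕ) (v : ∀ n, Fin (r n) → M) (J : LP p →L[ℂ] ZP r p) (R : ZP r p →L[ℂ] LP p),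
      EqK (R ∘L J) (ContinuousLinearMap.id ℂ (LP p)) ∧
      (∀ a T, calkinMk (LP p) T = φ a → EqK (J ∘L T) ((diagRep v p).hom a ∘L J) ∧
        EqK (R ∘L (diagRep v p).hom a) (T ∘L R))

/-- Module GDIL: the same with `R J = 1`. -/
def GDilStmt : Prop :=
  ∀ (p : ℝ≥0∞) [Fact (1 ≤ p)], 2 ≤ p → p ≠ ∞ → ∀ (M : Set ℂ) [CompactSpace M], M.Nonempty →
  ∀ (φ : C(M, ℂ) →ₐ[ℂ] Calkin (LP p)), BddExt φ →
    ∃ (r : ℕ → ℕ) (v : ∀ n, Fin (r n) → M) (J : LP p →L[ℂ] ZP r p) (R : ZP r p →L[ℂ] LP p),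
      R ∘L J = ContinuousLinearMap.id ℂ (LP p) ∧
      (∀ a T, calkinMk (LP p) T = φ a → EqK (J ∘L T) ((diagRep v p).hom a ∘L J) ∧
        EqK (R ∘L (diagRep v p).hom a) (T ∘L R))

/-- Module PCZ. -/
def PczStmt : Prop :=
  ∀ (p : ℝ≥0∞) [Fact (1 ≤ p)], 2 < p → p ≠ ∞ → ∀ r : ℕ → ℕ, PComp p (ZP r p)

/-- every extension is a direct summand of an exact representation on `l^p` -/
def SplitStmt (p : ℝ≥0∞) [Fact (1 ≤ p)] : Prop :=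
  ∀ (M : Set ℂ) [CompactSpace M], M.Nonempty →
  ∀ (φ : C(M, ℂ) →ₐ[ℂ] Calkin (LP p)), BddExt φ →
    ∃ (ρ : Rep M (LP p)) (J R : LP p →L[ℂ] LP p),
      R ∘L J = ContinuousLinearMap.id ℂ (LP p) ∧
      (∀ a T, calkinMk (LP p) T = φ a → EqK (J ∘L T) (ρ.hom a ∘L J) ∧
        EqK (R ∘L ρ.hom a) (T ∘L R))

/-- Module SPLIT (assume GDilStmt, PczStmt, PelStmt). -/
def Split2Stmt : Prop :=
  ∀ (p : ℝ≥0∞) [Fact (1 ≤ p)], 2 < p → p ≠ ∞ → SplitStmt p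

/-- Module SPLITT: transposition (assume APStmt). -/
def SplitTStmt : Prop :=
  ∀ (p q : ℝ≥0∞) [Fact (1 ≤ p)] [Fact (1 ≤ q)], 1 < p → 1 < q → p⁻¹ + q⁻¹ = 1 →
    SplitStmt q → SplitStmt p

/-- Module MCG: two extensions with equal indices are stably equivalent by an isomorphism. -/
def McgStmt (p : ℝ≥0∞) [Fact (1 ≤ p)] : Prop :=
  ∀ (M : Set ℂ) [CompactSpace M], M.Nonempty →
  ∀ (φ₁ φ₂ : C(M, ℂ) →ₐ[ℂ] Calkin (LP p)), BddExt φ₁ → BddExt φ₂ →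
    (∀ μ : ℂ, μ ∉ M → ∀ T₁ T₂ : LP p →L[ℂ] LP p,
        calkinMk (LP p) T₁ = φ₁ (zfun M) - μ • 1 →
        calkinMk (LP p) T₂ = φ₂ (zfun M) - μ • 1 → findex T₁ = findex T₂) →
    ∃ (σ : Rep M (LP p)) (U : (LP p × LP p) ≃L[ℂ] (LP p × LP p)),
      ∀ a (T₁ T₂ : LP p →L[ℂ] LP p), calkinMk (LP p) T₁ = φ₁ a → calkinMk (LP p) T₂ = φ₂ a →
        EqK ((U : (LP p × LP p) →L[ℂ] (LP p × LP p)) ∘L (T₁.prodMap (σ.hom a)))
          ((T₂.prodMap (σ.hom a)) ∘L (U : (LP p × LP p) →L[ℂ] (LP p × LP p)))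

/-- Module MCG (assume IXStmt, APStmt, PelStmt). -/
def McgAllStmt : Prop :=
  ∀ (p : ℝ≥0∞) [Fact (1 ≤ p)], 1 < p → p ≠ ∞ → MCStmt p → SplitStmt p → McgStmt p

/-- Module THETA2: existence of `θ` for `p > 2` (assume GDilStmt, PczStmt, PelStmt, SemiStmt). -/
def Theta2Stmt : Prop :=
  ∀ (p : ℝ≥0∞) [Fact (1 ≤ p)], 2 < p → p ≠ ∞ → ∀ (M : Set ℂ) [CompactSpace M], M.Nonempty →
    ∃ θ : C(M, ℂ) →ₐ[ℂ] Calkin (LP p), IsTheta θ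

/-- Module THETAT: existence of `θ` by transposition (assume APStmt). -/
def ThetaTStmt : Prop :=
  ∀ (p q : ℝ≥0∞) [Fact (1 ≤ p)] [Fact (1 ≤ q)], 1 < p → 1 < q → p⁻¹ + q⁻¹ = 1 →
    (∀ (M : Set ℂ) [CompactSpace M], M.Nonempty →
      ∃ θ : C(M, ℂ) →ₐ[ℂ] Calkin (LP q), IsTheta θ) →
    ∀ (M : Set ℂ) [CompactSpace M], M.Nonempty →
      ∃ θ : C(M, ℂ) →ₐ[ℂ] Calkin (LP p), IsTheta θ

/-! ## The circle -/

/-- the unit circle -/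
abbrev Circ : Set ℂ := Metric.sphere (0 : ℂ) 1

/-- `f(T)` for a Laurent polynomial `f`, where `S` replaces the inverse of `T` -/
def lau {X : Type} [NormedAddCommGroup X] [NormedSpace ℂ X] (T S : X →L[ℂ] X) (f : ℤ →₀ ℂ) :
    X →L[ℂ] X :=
  f.sum (fun (n : ℤ) (a : ℂ) => a • (if 0 ≤ n then T ^ n.toNat else S ^ (-n).toNat))

/-- Module CEXT: the functional calculus for continuous functions on the circle. -/
def CextStmt : Prop :=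
  ∀ (X : Type) [NormedAddCommGroup X] [NormedSpace ℂ X] [CompleteSpace X] (T S : X →L[ℂ] X)
    (C : ℝ), 1 ≤ C → EqK (T ∘L S) (ContinuousLinearMap.id ℂ X) →
    EqK (S ∘L T) (ContinuousLinearMap.id ℂ X) →
    (∀ (f : ℤ →₀ ℂ) (M : ℝ),
      (∀ v : ℂ, ‖v‖ = 1 → ‖f.sum (fun (n : ℤ) (a : ℂ) => a * v ^ n)‖ ≤ M) →
      ∀ ε : ℝ, 0 < ε → ∃ K : X →L[ℂ] X, IsCompactOperator ⇑K ∧ ‖lau T S f + K‖ ≤ C * M + ε) →
    ∃ φ : C(Circ, ℂ) →ₐ[ℂ] Calkin X, (∀ a, ‖φ a‖ ≤ C * ‖a‖) ∧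
      φ (zfun Circ) = calkinMk X T

/-- Module CIND: the index function of an extension by `C` of the circle. -/
def CindStmt : Prop :=
  ∀ (p : ℝ≥0∞) [Fact (1 ≤ p)], p ≠ ∞ → ∀ (φ : C(Circ, ℂ) →ₐ[ℂ] Calkin (LP p)), BddExt φ →
    ∀ T : LP p →L[ℂ] LP p, φ (zfun Circ) = calkinMk (LP p) T →
    ∀ (μ : ℂ) (T' : LP p →L[ℂ] LP p), calkinMk (LP p) T' = φ (zfun Circ) - μ • 1 →
      (‖μ‖ < 1 → findex T' = findex T) ∧ (1 < ‖μ‖ → findex T' = 0)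

end Pool.Agent.H33.BDFP
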